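import Pool.Agent.Work.MP_9638d9_co.ConeComb

namespace Pool.Agent.Work.MP_9638d9_co

open Finset

universe u
variable {V : Type u} [DecidableEq V]

lemma mem_link {v : V} {C : Finset (Finset V)} {σ : Finset V} :
    σ ∈ link v C ↔ σ ∈ C ∧ v ∉ σ ∧ insert v σ ∈ C := by
  rw [link, mem_filter]

lemma mem_del {v : V} {C : Finset (Finset V)} {σ : Finset V} :
    σ ∈ del v C ↔ σ ∈ C ∧ v ∉ σ := by
  rw [del, mem_filter]

/-- non-evasive complexes are nonempty and connected -/
theorem nonEvasive_conn {K : Finset (Finset V)} (h : NonEvasive K) : IsComplex K →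
    (∃ x, {x} ∈ K) ∧ ∀ a b, {a} ∈ K → {b} ∈ K →
      Relation.ReflTransGen (fun x y => ({x, y} : Finset V) ∈ K) a b := by
  induction h with
  | point v =>
    intro _
    refine ⟨⟨v, by simp⟩, fun a b ha hb => ?_⟩
    have ha' : a = v := by simpa using ha
    have hb' : b = v := by simpa using hb
    rw [ha', hb']
  | step K v hv _ _ ihl ihd =>
    intro hK
    refine ⟨⟨v, hv⟩, ?_⟩
    obtain ⟨⟨y, hy⟩, -⟩ := ihl (isComplex_link hK v)
    obtain ⟨-, hd⟩ := ihd (isComplex_del hK v)
    rw [mem_link] at hy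
    have hyv : y ≠ v := fun h => hy.2.1 (by simp [h])
    have hyK : ({v, y} : Finset V) ∈ K := hy.2.2
    have hyK' : ({y, v} : Finset V) ∈ K := by rwa [pair_comm]
    have hydel : {y} ∈ del v K := mem_del.mpr ⟨hy.1, hy.2.1⟩
    have hmono : ∀ a b, {a} ∈ K → {b} ∈ K → a ≠ v → b ≠ v →
        Relation.ReflTransGen (fun x y => ({x, y} : Finset V) ∈ K) a b := by
      intro a b ha hb hav hbv
      refine Relation.ReflTransGen.mono (fun x y h => (mem_del.mp h).1) _ _ (hd a b ?_ ?_)
      · exact mem_del.mpr ⟨ha, by simpa using Ne.symm hav⟩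
      · exact mem_del.mpr ⟨hb, by simpa using Ne.symm hbv⟩
    intro a b ha hb
    by_cases hav : a = v
    · subst hav
      by_cases hbv : b = a
      · rw [hbv]
      · exact Relation.ReflTransGen.head hyK (hmono y b hy.1 hb hyv hbv)
    · by_cases hbv : b = v
      · subst hbv
        exact (hmono a y ha hy.1 hav hyv).tail hyK'
      · exact hmono a b ha hb hav hbv

/-- an elimination order: the later part of the link of every vertex but the last is nonempty and
connected -/
structure GoodOrder (C : Finset (Finset V)) (r : V → ℕ) : Prop where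
  inj : ∀ u w, {u} ∈ C → {w} ∈ C → r u = r w → u = w
  ex : ∀ v, {v} ∈ C → (∃ w, {w} ∈ C ∧ r v < r w) → ∃ y, ({v, y} : Finset V) ∈ C ∧ r v < r y
  conn : ∀ v, {v} ∈ C → ∀ y y', ({v, y} : Finset V) ∈ C → r v < r y →
    ({v, y'} : Finset V) ∈ C → r v < r y' →
    Relation.ReflTransGen (fun a b => ({v, a, b} : Finset V) ∈ C ∧ r v < r a ∧ r v < r b) y y'

theorem exists_goodOrder {K : Finset (Finset V)} (h : NonEvasive K) : IsComplex K →
    ∃ r : V → ℕ, GoodOrder K r := by
  induction h with
  | point v =>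
    intro _
    refine ⟨fun _ => 0, ⟨fun u w hu hw _ => ?_, fun v _ h => ?_, fun v _ y y' _ h _ _ => ?_⟩⟩
    · have ha' : u = v := by simpa using hu
      have hb' : w = v := by simpa using hw
      rw [ha', hb']
    · obtain ⟨w, -, h⟩ := h
      exact absurd h (lt_irrefl _)
    · exact absurd h (lt_irrefl _)
  | step K v hv hl _ ihl ihd =>
    intro hK
    obtain ⟨r', hr'⟩ := ihd (isComplex_del hK v)
    obtain ⟨⟨y₀, hy₀⟩, hlc⟩ := nonEvasive_conn hl (isComplex_link hK v)
    have hdel : ∀ u, {u} ∈ K → u ≠ v → {u} ∈ del v K := fun u hu h =>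
      mem_del.mpr ⟨hu, by simpa using Ne.symm h⟩
    have hdel2 : ∀ u w, ({u, w} : Finset V) ∈ K → u ≠ v → w ≠ v →
        ({u, w} : Finset V) ∈ del v K := fun u w hu h h' =>
      mem_del.mpr ⟨hu, by simp [Ne.symm h, Ne.symm h']⟩
    have hsub : ∀ u w, ({u, w} : Finset V) ∈ K → {w} ∈ K := fun u w h =>
      hK.2 _ h {w} (by simp) (singleton_nonempty w)
    let r : V → ℕ := fun u => if u = v then 0 else r' u + 1
    have rv : r v = 0 := by simp [r]
    have ru : ∀ u, u ≠ v → r u = r' u + 1 := fun u hu => by simp [r, hu]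
    have rne : ∀ {u w}, r u < r w → w ≠ v := by
      intro u w h hw
      rw [hw, rv] at h
      omega
    refine ⟨r, ⟨fun u w hu hw h => ?_, fun u hu h => ?_, fun u hu y y' hy hry hy' hry' => ?_⟩⟩
    · by_cases h1 : u = v <;> by_cases h2 : w = v
      · rw [h1, h2]
      · rw [h1, rv, ru w h2] at h; omega
      · rw [h2, rv, ru u h1] at h; omega
      · rw [ru u h1, ru w h2] at h
        exact hr'.inj u w (hdel u hu h1) (hdel w hw h2) (by omega)
    · by_cases h1 : u = v
      · subst h1
        rw [mem_link] at hy₀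
        have : y₀ ≠ u := fun h => hy₀.2.1 (by simp [h])
        exact ⟨y₀, hy₀.2.2, by rw [rv, ru y₀ this]; omega⟩
      · obtain ⟨w, hw, hlt⟩ := h
        have h2 := rne hlt
        rw [ru u h1, ru w h2] at hlt
        obtain ⟨y, hy, hry⟩ := hr'.ex u (hdel u hu h1) ⟨w, hdel w hw h2, by omega⟩
        have hyv : y ≠ v := by
          intro h
          rw [mem_del] at hy
          exact hy.2 (by simp [h])
        exact ⟨y, (mem_del.mp hy).1, by rw [ru u h1, ru y hyv]; omega⟩
    · have h1 := rne hry
      have h2 := rne hry'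
      by_cases h0 : u = v
      · subst h0
        have e1 : {y} ∈ link u K := mem_link.mpr ⟨hsub _ _ hy, by simpa using Ne.symm h1, hy⟩
        have e2 : {y'} ∈ link u K := mem_link.mpr ⟨hsub _ _ hy', by simpa using Ne.symm h2, hy'⟩
        refine Relation.ReflTransGen.mono ?_ _ _ (hlc y y' e1 e2)
        intro a b hab
        rw [mem_link] at hab
        obtain ⟨-, hnot, hab⟩ := hab
        have ha : a ≠ u := fun h => hnot (by simp [h])
        have hb : b ≠ u := fun h => hnot (by simp [h])
        refine ⟨hab, ?_, ?_⟩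
        · rw [rv, ru a ha]; omega
        · rw [rv, ru b hb]; omega
      · rw [ru u h0, ru y h1] at hry
        rw [ru u h0, ru y' h2] at hry'
        refine Relation.ReflTransGen.mono ?_ _ _ (hr'.conn u (hdel u hu h0) y y' (hdel2 u y hy h0 h1)
          (by omega) (hdel2 u y' hy' h0 h2) (by omega))
        rintro a b ⟨hab, hra, hrb⟩
        rw [mem_del] at hab
        obtain ⟨hab, hnot⟩ := hab
        have ha : a ≠ v := fun h => hnot (by simp [h])
        have hb : b ≠ v := fun h => hnot (by simp [h])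
        refine ⟨hab, ?_, ?_⟩
        · rw [ru u h0, ru a ha]; omega
        · rw [ru u h0, ru b hb]; omega

end Pool.Agent.Work.MP_9638d9_co
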