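import Pool.Agent.Work.MP_9638d9_co.Manifold
import Pool.Agent.Work.MP_9638d9_co.Order

namespace Pool.Agent.Work.MP_9638d9_co

open Finset

universe u
variable {V : Type u} [DecidableEq V]

lemma mem_cells {d : ℕ} {C : Finset (Finset V)} {σ : Finset V} :
    σ ∈ cells d C ↔ σ ∈ C ∧ σ.card = d + 1 := by
  rw [cells, mem_filter]

/-- star versions of the manifold conditions -/
structure Mfd (C : Finset (Finset V)) : Prop where
  cx : IsComplex C
  pure : Pure 3 C
  deg_le : ∀ F ∈ cells 2 C, deg 3 C F ≤ 2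
  connV : ∀ v, {v} ∈ C → ChainConnected 3 C {v}
  connE : ∀ v x, ({v, x} : Finset V) ∈ C → v ≠ x → ChainConnected 3 C {v, x}
  euler : ∀ v, {v} ∈ C →
    ((∀ F ∈ cells 2 C, v ∈ F → deg 3 C F = 2) ∧
      (((cells 1 C).filter (fun e => v ∈ e)).card : ℤ) -
        ((cells 2 C).filter (fun F => v ∈ F)).card +
        ((cells 3 C).filter (fun t => v ∈ t)).card = 2) ∨
    ((∃ F ∈ cells 2 C, v ∈ F ∧ deg 3 C F = 1) ∧
      (((cells 1 C).filter (fun e => v ∈ e)).card : ℤ) -
        ((cells 2 C).filter (fun F => v ∈ F)).card +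
        ((cells 3 C).filter (fun t => v ∈ t)).card = 1)

lemma mem_cells_link {d : ℕ} {C : Finset (Finset V)} (hC : IsComplex C) {v : V} {σ : Finset V} :
    σ ∈ cells d (link v C) ↔ v ∉ σ ∧ insert v σ ∈ cells (d + 1) C := by
  rw [mem_cells, mem_cells, mem_link]
  constructor
  · rintro ⟨⟨-, h1, h2⟩, h3⟩
    exact ⟨h1, h2, by rw [card_insert_of_notMem h1, h3]⟩
  · rintro ⟨h1, h2, h3⟩
    rw [card_insert_of_notMem h1] at h3
    have hc : σ.card = d + 1 := by omega
    exact ⟨⟨hC.2 _ h2 σ (subset_insert v σ) (card_pos.mp (by omega)), h1, h2⟩, hc⟩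

lemma star_eq_image {d : ℕ} {C : Finset (Finset V)} (hC : IsComplex C) (v : V) (F : Finset V)
    (hF : v ∉ F) :
    (cells (d + 1) C).filter (fun t => insert v F ⊆ t) =
      ((cells d (link v C)).filter (fun t => F ⊆ t)).image (insert v) := by
  ext t
  rw [mem_filter, mem_image]
  constructor
  · rintro ⟨ht, hs⟩
    have hv : v ∈ t := hs (mem_insert_self v F)
    refine ⟨t.erase v, mem_filter.mpr ⟨(mem_cells_link hC).mpr ⟨notMem_erase v t, ?_⟩, ?_⟩,
      insert_erase hv⟩
    · rwa [insert_erase hv]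
    · intro w hw
      exact mem_erase.mpr ⟨fun h => hF (h ▸ hw), hs (mem_insert_of_mem hw)⟩
  · rintro ⟨s, hs, rfl⟩
    rw [mem_filter] at hs
    exact ⟨((mem_cells_link hC).mp hs.1).2, insert_subset_insert v hs.2⟩

lemma card_star_eq {d : ℕ} {C : Finset (Finset V)} (hC : IsComplex C) (v : V) (F : Finset V)
    (hF : v ∉ F) :
    ((cells (d + 1) C).filter (fun t => insert v F ⊆ t)).card =
      ((cells d (link v C)).filter (fun t => F ⊆ t)).card := by
  rw [star_eq_image hC v F hF, card_image_of_injOn]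
  intro a ha b hb hab
  rw [mem_coe, mem_filter] at ha hb
  have h1 := ((mem_cells_link hC).mp ha.1).1
  have h2 := ((mem_cells_link hC).mp hb.1).1
  rw [← erase_insert h1, ← erase_insert h2]
  exact congrArg (fun s => s.erase v) hab

lemma card_vertex_star_eq {d : ℕ} {C : Finset (Finset V)} (hC : IsComplex C) (v : V) :
    ((cells (d + 1) C).filter (fun t => v ∈ t)).card = (cells d (link v C)).card := by
  have h := card_star_eq (d := d) hC v ∅ (by simp)
  simpa using h

lemma chain_link {d : ℕ} {C : Finset (Finset V)} (hC : IsComplex C) {v : V} {ρ : Finset V}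
    (hρ : v ∉ ρ) (h : ChainConnected d (link v C) ρ) : ChainConnected (d + 1) C (insert v ρ) := by
  intro σ hσ τ hτ hs ht
  have hvσ : v ∈ σ := hs (mem_insert_self v ρ)
  have hvτ : v ∈ τ := ht (mem_insert_self v ρ)
  have h1 : σ.erase v ∈ cells d (link v C) :=
    (mem_cells_link hC).mpr ⟨notMem_erase v σ, by rwa [insert_erase hvσ]⟩
  have h2 : τ.erase v ∈ cells d (link v C) :=
    (mem_cells_link hC).mpr ⟨notMem_erase v τ, by rwa [insert_erase hvτ]⟩
  have h3 : ρ ⊆ σ.erase v := fun w hw =>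
    mem_erase.mpr ⟨fun h => hρ (h ▸ hw), hs (mem_insert_of_mem hw)⟩
  have h4 : ρ ⊆ τ.erase v := fun w hw =>
    mem_erase.mpr ⟨fun h => hρ (h ▸ hw), ht (mem_insert_of_mem hw)⟩
  have h5 := h _ h1 _ h2 h3 h4
  have h6 := Relation.ReflTransGen.lift (p := fun a b => a ∈ cells (d + 1) C ∧
    b ∈ cells (d + 1) C ∧ insert v ρ ⊆ a ∩ b ∧ (a ∩ b).card = d + 1) (insert v) ?_ _ _ h5
  · simp only [Function.onFun, insert_erase hvσ, insert_erase hvτ] at h6
    exact h6
  · rintro a b ⟨ha, hb, hab, hc⟩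
    obtain ⟨ha1, ha2⟩ := (mem_cells_link hC).mp ha
    obtain ⟨hb1, hb2⟩ := (mem_cells_link hC).mp hb
    refine ⟨ha2, hb2, ?_, ?_⟩
    · rw [← insert_inter_distrib]
      exact insert_subset_insert v hab
    · rw [← insert_inter_distrib, card_insert_of_notMem, hc]
      exact fun h => ha1 (mem_inter.mp h).1

theorem IsManifold3.mfd {C : Finset (Finset V)} (h : IsManifold3 C) : Mfd C := by
  obtain ⟨hC, hP, hL⟩ := h
  have hS : ∀ v, {v} ∈ C → IsSurface (link v C) := fun v hv => (hL v hv).elim (·.1) (·.1)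
  have hdeg : ∀ v, ∀ e : Finset V, v ∉ e → deg 3 C (insert v e) = deg 2 (link v C) e :=
    fun v e he => card_star_eq hC v e he
  have hsub : ∀ σ ∈ C, ∀ v ∈ σ, {v} ∈ C := fun σ hσ v hv =>
    hC.2 σ hσ {v} (singleton_subset_iff.mpr hv) (singleton_nonempty v)
  have hcell : ∀ v, ∀ F ∈ cells 2 C, v ∈ F → F.erase v ∈ cells 1 (link v C) :=
    fun v F hF hv => (mem_cells_link hC).mpr ⟨notMem_erase v F, by rwa [insert_erase hv]⟩
  refine ⟨hC, hP, fun F hF => ?_, fun v hv => ?_, fun v x hvx hne => ?_, fun v hv => ?_⟩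
  · have hF' := mem_cells.mp hF
    obtain ⟨v, hv⟩ := card_pos.mp (show 0 < F.card by omega)
    have := (hS v (hsub F hF'.1 v hv)).2.2.1 _ (hcell v F hF hv)
    rwa [← hdeg v _ (notMem_erase v F), insert_erase hv] at this
  · have := chain_link hC (by simp) (hS v hv).2.2.2.1
    simpa using this
  · have hv : {v} ∈ C := hsub _ hvx v (by simp)
    have hx : {x} ∈ link v C := mem_link.mpr ⟨hsub _ hvx x (by simp), by simpa using hne, hvx⟩
    exact chain_link hC (by simpa using hne) ((hS v hv).2.2.2.2 x hx)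
  · have e0 := card_vertex_star_eq (d := 0) hC v
    have e1 := card_vertex_star_eq (d := 1) hC v
    have e2 := card_vertex_star_eq (d := 2) hC v
    rw [e0, e1, e2]
    rcases hL v hv with ⟨-, h1, h2⟩ | ⟨-, ⟨e, he, h1⟩, h2⟩
    · refine Or.inl ⟨fun F hF hvF => ?_, h2⟩
      have := h1 _ (hcell v F hF hvF)
      rwa [← hdeg v _ (notMem_erase v F), insert_erase hvF] at this
    · refine Or.inr ⟨?_, h2⟩
      obtain ⟨hve, hins⟩ := (mem_cells_link hC).mp he
      exact ⟨insert v e, hins, mem_insert_self v e, by rw [hdeg v e hve]; exact h1⟩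

end Pool.Agent.Work.MP_9638d9_co
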