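import Pool.Agent.Work.MP_9638d9_co.Mask

namespace Pool.Agent.Work.MP_9638d9_co

open Finset

/-- the elements of the symmetric group on three letters -/
def code : ℕ → Equiv.Perm (Fin 3)
  | 1 => Equiv.swap 1 2
  | 2 => Equiv.swap 0 1
  | 3 => Equiv.swap 0 1 * Equiv.swap 1 2
  | 4 => Equiv.swap 1 2 * Equiv.swap 0 1
  | 5 => Equiv.swap 0 2
  | _ => 1

def mulN (a b : ℕ) : ℕ :=
  ([[0,1,2,3,4,5],[1,0,4,5,2,3],[2,3,0,1,5,4],[3,2,5,4,0,1],[4,5,1,0,3,2],[5,4,3,2,1,0]].getD
    a []).getD b 0

def invN (a : ℕ) : ℕ := [0,1,2,4,3,5].getD a 0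

lemma code_mul : ∀ a < 6, ∀ b < 6, code (mulN a b) = code a * code b := by decide

lemma code_inv : ∀ a < 6, code (invN a) = (code a)⁻¹ := by decide

lemma invN_lt : ∀ a < 6, invN a < 6 := by decide

lemma mulN_lt : ∀ a < 6, ∀ b < 6, mulN a b < 6 := by decide

/-- table lookup -/
def look (T : List (ℕ × ℕ × ℕ)) (a b : ℕ) : ℕ :=
  match T.find? (fun x => x.1 == a && x.2.1 == b) with
  | some x => x.2.2
  | none => 0

lemma look_lt {T : List (ℕ × ℕ × ℕ)} (h : ∀ x ∈ T, x.2.2 < 6) (a b : ℕ) : look T a b < 6 := by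
  rw [look]
  split
  · rename_i x hx
    exact h x (List.mem_of_find?_eq_some hx)
  · norm_num

def adjN (m n : ℕ) : Bool := (bits (m &&& n)).length == 3

/-- all the checks on the cells -/
def okCells (L : List ℕ) : Bool :=
  L.all (fun m => (m < 65536) && ((bits m).length == 4))

def okPM (L : List ℕ) : Bool :=
  L.all (fun m => L.all (fun n => !adjN m n ||
    L.all (fun k => !((m &&& n) &&& k == m &&& n) || (k == m || k == n))))

def okFlat (L : List ℕ) (T P : List (ℕ × ℕ × ℕ)) (e : ℕ) : Bool :=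
  L.all (fun m => L.all (fun n => !adjN m n ||
    ((look T n m == invN (look T m n)) &&
     (bits (m &&& n)).all (fun i => ((m &&& n) ^^^ 2 ^ i == e) ||
        look T m n == mulN (invN (look P ((m &&& n) ^^^ 2 ^ i) m))
          (look P ((m &&& n) ^^^ 2 ^ i) n)))))

def okE (L : List ℕ) (e a b c : ℕ) : Bool :=
  L.all (fun m => !(e &&& m == e) || (m == a || m == b || m == c))

def okTab (T : List (ℕ × ℕ × ℕ)) : Bool := T.all (fun x => x.2.2 < 6)

lemma cells_gen {L : List ℕ} (h : okCells L = true) : cells 3 (gen L) = L.toFinset.image dec := by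
  simp only [okCells, List.all_eq_true, Bool.and_eq_true, decide_eq_true_eq, beq_iff_eq] at h
  have hc : ∀ m ∈ L, (dec m).card = 4 := fun m hm => by
    rw [card_dec (by have := (h m hm).1; omega)]; exact (h m hm).2
  ext σ
  rw [cells, mem_filter, mem_gen, mem_image]
  constructor
  · rintro ⟨⟨-, m, hm, hs⟩, hcard⟩
    refine ⟨m, List.mem_toFinset.mpr hm, (Finset.eq_of_subset_of_card_le hs ?_).symm⟩
    rw [hc m hm, hcard]
  · rintro ⟨m, hm, rfl⟩
    have hm' := List.mem_toFinset.mp hm
    exact ⟨⟨card_pos.mp (by rw [hc m hm']; norm_num), m, hm', Subset.refl _⟩, hc m hm'⟩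

lemma pure_gen {L : List ℕ} (h : okCells L = true) : Pure 3 (gen L) := by
  intro ρ hρ
  obtain ⟨-, m, hm, hs⟩ := mem_gen.mp hρ
  refine ⟨dec m, ?_, hs⟩
  rw [cells_gen h]
  exact mem_image_of_mem _ (List.mem_toFinset.mpr hm)

noncomputable def undec (σ : Finset ℕ) : ℕ := Function.invFun dec σ

lemma undec_dec (m : ℕ) : undec (dec m) = m := Function.leftInverse_invFun dec_injective m

lemma adj_iff {L : List ℕ} (h : okCells L = true) {m n : ℕ} (hm : m ∈ L) :
    (dec m ∩ dec n).card = 3 ↔ adjN m n = true := by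
  simp only [okCells, List.all_eq_true, Bool.and_eq_true, decide_eq_true_eq, beq_iff_eq] at h
  rw [← dec_and, card_dec, adjN, beq_iff_eq]
  have h1 := (h m hm).1
  have h2 : m &&& n ≤ m := Nat.and_le_left
  omega

/-- the certificate from the tables -/
noncomputable def mkCert (L : List ℕ) (T P : List (ℕ × ℕ × ℕ)) (e a b c : ℕ)
    (h1 : okCells L = true) (h2 : okPM L = true) (h3 : okFlat L T P e = true)
    (h4 : okE L e a b c = true) (h5 : okTab T = true) (h6 : okTab P = true) :
    Cert 3 (cells 3 (gen L)) (Equiv.Perm (Fin 3)) where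
  g σ τ := code (look T (undec σ) (undec τ))
  e := dec e
  pot ρ σ := code (look P (undec ρ) (undec σ))
  cA := dec a
  cB := dec b
  cC := dec c
  pm := by
    intro σ hσ τ hτ υ hυ hcap hsub
    rw [cells_gen h1, mem_image] at hσ hτ hυ
    obtain ⟨m, hm, rfl⟩ := hσ
    obtain ⟨n, hn, rfl⟩ := hτ
    obtain ⟨k, hk, rfl⟩ := hυ
    rw [List.mem_toFinset] at hm hn hk
    rw [adj_iff h1 hm] at hcap
    rw [← dec_and, dec_subset_iff] at hsub
    simp only [okPM, List.all_eq_true, Bool.or_eq_true, Bool.not_eq_true', beq_iff_eq,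
      beq_eq_false_iff_ne] at h2
    rcases h2 m hm n hn with h | h
    · rw [hcap] at h; exact absurd h (by decide)
    · rcases h k hk with h | h
      · exact absurd hsub h
      · rcases h with h | h
        · exact Or.inl (by rw [h])
        · exact Or.inr (by rw [h])
  inv := by
    intro σ hσ τ hτ hcap
    rw [cells_gen h1, mem_image] at hσ hτ
    obtain ⟨m, hm, rfl⟩ := hσ
    obtain ⟨n, hn, rfl⟩ := hτ
    rw [List.mem_toFinset] at hm hn
    rw [adj_iff h1 hm] at hcap
    simp only [okFlat, List.all_eq_true, Bool.or_eq_true, Bool.not_eq_true', beq_iff_eq,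
      Bool.and_eq_true] at h3
    rcases h3 m hm n hn with h | ⟨h, -⟩
    · rw [hcap] at h; exact absurd h (by decide)
    · rw [undec_dec, undec_dec, h]
      simp only [okTab, List.all_eq_true, decide_eq_true_eq] at h5
      exact code_inv _ (look_lt h5 _ _)
  flat := by
    intro σ hσ τ hτ hcap ρ hρ hρc hρe
    have hρ' : ∃ i ∈ σ ∩ τ, ρ = (σ ∩ τ).erase i := by
      have hlt : ρ ⊂ σ ∩ τ := ⟨hρ, fun h => by
        have := card_le_card h
        omega⟩
      obtain ⟨i, hi, hiρ⟩ := exists_of_ssubset hlt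
      refine ⟨i, hi, Finset.eq_of_subset_of_card_le ?_ ?_⟩
      · intro j hj
        exact mem_erase.mpr ⟨fun h => hiρ (h ▸ hj), hρ hj⟩
      · rw [card_erase_of_mem hi, hcap]; omega
    obtain ⟨i, hi, rfl⟩ := hρ'
    rw [cells_gen h1, mem_image] at hσ hτ
    obtain ⟨m, hm, rfl⟩ := hσ
    obtain ⟨n, hn, rfl⟩ := hτ
    rw [List.mem_toFinset] at hm hn
    have hcap' := hcap
    rw [adj_iff h1 hm] at hcap
    have hit : (m &&& n).testBit i = true := by
      rw [← dec_and] at hi
      exact mem_dec.mp hi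
    have hlt : m &&& n < 2 ^ 16 := by
      have h1' := h1
      simp only [okCells, List.all_eq_true, Bool.and_eq_true, decide_eq_true_eq,
        beq_iff_eq] at h1'
      have h2 : m &&& n ≤ m := Nat.and_le_left
      have := (h1' m hm).1
      omega
    have hib : i ∈ bits (m &&& n) := by
      rw [← dec_and, dec_eq_bits hlt, List.mem_toFinset] at hi
      exact hi
    simp only [okFlat, List.all_eq_true, Bool.or_eq_true, Bool.not_eq_true', beq_iff_eq,
      Bool.and_eq_true] at h3
    rcases h3 m hm n hn with h | ⟨-, h⟩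
    · rw [hcap] at h; exact absurd h (by decide)
    · rw [← dec_and, dec_erase hit] at hρe ⊢
      rcases h i hib with h | h
      · exact absurd (by rw [h]) hρe
      · rw [undec_dec, undec_dec, undec_dec, h]
        simp only [okTab, List.all_eq_true, decide_eq_true_eq] at h6
        rw [code_mul _ (invN_lt _ (look_lt h6 _ _)) _ (look_lt h6 _ _),
          code_inv _ (look_lt h6 _ _)]
  he := by
    intro σ hσ hes
    rw [cells_gen h1, mem_image] at hσ
    obtain ⟨m, hm, rfl⟩ := hσ
    rw [List.mem_toFinset] at hm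
    rw [dec_subset_iff] at hes
    simp only [okE, List.all_eq_true, Bool.or_eq_true, Bool.not_eq_true', beq_iff_eq,
      beq_eq_false_iff_ne] at h4
    rcases h4 m hm with h | (h | h) | h
    · exact absurd hes h
    · exact Or.inl (by rw [h])
    · exact Or.inr (Or.inl (by rw [h]))
    · exact Or.inr (Or.inr (by rw [h]))

/-- walks of masks -/
def walkN (L : List ℕ) : List ℕ → Bool
  | [] => true
  | [x] => L.contains x
  | x :: y :: l => L.contains x && (adjN x y && walkN L (y :: l))

def holN (T : List (ℕ × ℕ × ℕ)) : List ℕ → ℕ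
  | [] => 0
  | [_] => 0
  | x :: y :: l => mulN (look T x y) (holN T (y :: l))

lemma isWalk_of_walkN {L : List ℕ} (h : okCells L = true) : ∀ l : List ℕ, walkN L l = true →
    IsWalk 3 (cells 3 (gen L)) (l.map dec) := by
  have hm : ∀ x, x ∈ L → dec x ∈ cells 3 (gen L) := by
    intro x hx
    rw [cells_gen h]
    exact mem_image_of_mem _ (List.mem_toFinset.mpr hx)
  intro l
  induction l with
  | nil => intro _; trivial
  | cons x l ih =>
    cases l with
    | nil =>
      intro hw
      rw [walkN, List.contains_iff_mem] at hw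
      exact hm x hw
    | cons y l =>
      intro hw
      rw [walkN, Bool.and_eq_true, Bool.and_eq_true, List.contains_iff_mem] at hw
      exact ⟨hm x hw.1, (adj_iff h hw.1).mpr hw.2.1, ih hw.2.2⟩

lemma hol_eq {T : List (ℕ × ℕ × ℕ)} (hT : ∀ x ∈ T, x.2.2 < 6)
    (g : Finset ℕ → Finset ℕ → Equiv.Perm (Fin 3))
    (hg : ∀ a b, g (dec a) (dec b) = code (look T a b)) :
    ∀ l : List ℕ, holN T l < 6 ∧ hol g (l.map dec) = code (holN T l) := by
  intro l
  induction l with
  | nil => exact ⟨by simp [holN], rfl⟩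
  | cons x l ih =>
    cases l with
    | nil => exact ⟨by simp [holN], rfl⟩
    | cons y l =>
      refine ⟨mulN_lt _ (look_lt hT _ _) _ ih.1, ?_⟩
      have h1 : hol g ((x :: y :: l).map dec) = g (dec x) (dec y) * hol g ((y :: l).map dec) :=
        rfl
      rw [h1, ih.2, hg]
      exact (code_mul _ (look_lt hT _ _) _ ih.1).symm

theorem not_isLC_gen {L : List ℕ} {T P : List (ℕ × ℕ × ℕ)} {e a b c : ℕ} {x : ℕ}
    {l₁ l₂ : List ℕ}
    (h1 : okCells L = true) (h2 : okPM L = true) (h3 : okFlat L T P e = true)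
    (h4 : okE L e a b c = true) (h5 : okTab T = true) (h6 : okTab P = true)
    (h7 : walkN L (x :: (l₁ ++ [x])) = true) (h8 : walkN L (x :: (l₂ ++ [x])) = true)
    (h9 : mulN (holN T (x :: (l₁ ++ [x]))) (holN T (x :: (l₂ ++ [x]))) ≠
      mulN (holN T (x :: (l₂ ++ [x]))) (holN T (x :: (l₁ ++ [x])))) : ¬ IsLC 3 (gen L) := by
  rintro ⟨-, E, hA, hfin⟩
  have h5' : ∀ x ∈ T, x.2.2 < 6 := by
    simpa only [okTab, List.all_eq_true, decide_eq_true_eq] using h5
  have hw1 := isWalk_of_walkN h1 _ h7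
  have hw2 := isWalk_of_walkN h1 _ h8
  have m1 : (x :: (l₁ ++ [x])).map dec = dec x :: (l₁.map dec ++ [dec x]) := by simp
  have m2 : (x :: (l₂ ++ [x])).map dec = dec x :: (l₂.map dec ++ [dec x]) := by simp
  let crt := mkCert L T P e a b c h1 h2 h3 h4 h5 h6
  have hg : ∀ a b, crt.g (dec a) (dec b) = code (look T a b) := by
    intro a b
    change code (look T (undec (dec a)) (undec (dec b))) = _
    rw [undec_dec, undec_dec]
  obtain ⟨p1, q1⟩ := hol_eq h5' crt.g hg (x :: (l₁ ++ [x]))
  obtain ⟨p2, q2⟩ := hol_eq h5' crt.g hg (x :: (l₂ ++ [x]))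
  rw [m1] at hw1 q1
  rw [m2] at hw2 q2
  refine not_assembled crt _ _ _ hw1 hw2 ?_ hA ?_
  · rw [q1, q2, ← code_mul _ p1 _ p2, ← code_mul _ p2 _ p1]
    have hinj : ∀ a < 6, ∀ b < 6, code a = code b → a = b := by decide
    intro h
    exact h9 (hinj _ (mulN_lt _ p1 _ p2) _ (mulN_lt _ p2 _ p1) h)
  · intro σ hσ τ hτ hcap _
    refine hfin σ hσ τ hτ _ (Subset.refl _) ?_
    rw [← card_pos, hcap]; norm_num

end Pool.Agent.Work.MP_9638d9_co
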