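import Pool.Agent.Work.MP_9638d9_co.Topo

namespace Pool.Agent.Work.MP_9638d9_co

open Finset

universe u
variable {V : Type u} [DecidableEq V]

/-- the cone over `C` with apex `v` -/
def cone (v : V) (C : Finset (Finset V)) : Finset (Finset V) :=
  insert {v} (C ∪ C.image (insert v))

lemma mem_cone {v : V} {C : Finset (Finset V)} {f : Finset V} :
    f ∈ cone v C ↔ f = {v} ∨ f ∈ C ∨ ∃ σ ∈ C, insert v σ = f := by
  simp [cone]

lemma isComplex_cone {v : V} {C : Finset (Finset V)} (hC : IsComplex C) :
    IsComplex (cone v C) := by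
  refine ⟨fun σ hσ => ?_, fun σ hσ τ hτ hne => ?_⟩
  · rcases mem_cone.mp hσ with rfl | h | ⟨σ, -, rfl⟩
    · exact singleton_nonempty v
    · exact hC.1 _ h
    · exact insert_nonempty v σ
  · have key : ∀ σ : Finset V, σ ∈ C → ∀ τ ⊆ insert v σ, τ.Nonempty → τ ∈ cone v C := by
      intro σ hσ τ hτ hne
      by_cases hv : v ∈ τ
      · by_cases he : (τ.erase v).Nonempty
        · refine mem_cone.mpr (Or.inr (Or.inr ⟨τ.erase v, hC.2 σ hσ _ ?_ he, insert_erase hv⟩))
          intro w hw
          rw [mem_erase] at hw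
          exact (mem_insert.mp (hτ hw.2)).resolve_left hw.1
        · rw [not_nonempty_iff_eq_empty] at he
          refine mem_cone.mpr (Or.inl ?_)
          rw [← insert_erase hv, he]; rfl
      · refine mem_cone.mpr (Or.inr (Or.inl (hC.2 σ hσ _ ?_ hne)))
        intro w hw
        exact (mem_insert.mp (hτ hw)).resolve_left fun h => hv (h ▸ hw)
    rcases mem_cone.mp hσ with rfl | h | ⟨σ, h, rfl⟩
    · rcases Finset.subset_singleton_iff.mp hτ with rfl | rfl
      · simp at hne
      · exact mem_cone.mpr (Or.inl rfl)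
    · exact key σ h τ (hτ.trans (subset_insert v σ)) hne
    · exact key σ h τ hτ hne

/-- the solid cone -/
def solid (d : ℕ) : Set (EuclideanSpace ℝ (Fin d) × ℝ) :=
  {z | 0 ≤ z.2 ∧ ‖z.1‖ ≤ 1 - z.2}

lemma solid_homeo (d : ℕ) : Nonempty (solid d ≃ₜ
    (Metric.closedBall (0 : EuclideanSpace ℝ (Fin (d+1))) 1 :
      Set (EuclideanSpace ℝ (Fin (d+1))))) := by
  have hcl : IsClosed (solid d) := by
    have h1 : IsClosed {z : EuclideanSpace ℝ (Fin d) × ℝ | 0 ≤ z.2} :=
      isClosed_le continuous_const continuous_snd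
    have h2 : IsClosed {z : EuclideanSpace ℝ (Fin d) × ℝ | ‖z.1‖ ≤ 1 - z.2} :=
      isClosed_le (continuous_norm.comp continuous_fst) (continuous_const.sub continuous_snd)
    exact h1.inter h2
  apply convexBody_homeo
  · rw [Module.finrank_prod, finrank_euclideanSpace_fin, Module.finrank_self]
  · rintro ⟨y, s⟩ ⟨h1, h2⟩ ⟨y', s'⟩ ⟨h1', h2'⟩ a b ha hb hab
    dsimp at h1 h2 h1' h2'
    refine ⟨?_, ?_⟩
    · simp only [Prod.snd_add, Prod.smul_snd, smul_eq_mul]
      positivity
    · simp only [Prod.fst_add, Prod.smul_fst, Prod.snd_add, Prod.smul_snd, smul_eq_mul]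
      calc ‖a • y + b • y'‖ ≤ ‖a • y‖ + ‖b • y'‖ := norm_add_le _ _
        _ = a * ‖y‖ + b * ‖y'‖ := by
            rw [norm_smul, norm_smul, Real.norm_of_nonneg ha, Real.norm_of_nonneg hb]
        _ ≤ a * (1 - s) + b * (1 - s') := by gcongr
        _ = 1 - (a * s + b * s') := by linear_combination hab
  · refine Metric.isCompact_of_isClosed_isBounded hcl ?_
    refine (Metric.isBounded_closedBall (x := (0 : EuclideanSpace ℝ (Fin d) × ℝ))
      (r := 1)).subset ?_
    rintro ⟨y, s⟩ ⟨h1, h2⟩
    dsimp at h1 h2
    rw [mem_closedBall_zero_iff, Prod.norm_def]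
    have := norm_nonneg y
    refine max_le ?_ ?_
    · dsimp; linarith
    · dsimp; rw [abs_of_nonneg h1]; linarith
  · have ho : IsOpen {z : EuclideanSpace ℝ (Fin d) × ℝ | 0 < z.2 ∧ ‖z.1‖ < 1 - z.2} := by
      have h1 : IsOpen {z : EuclideanSpace ℝ (Fin d) × ℝ | 0 < z.2} :=
        isOpen_lt continuous_const continuous_snd
      have h2 : IsOpen {z : EuclideanSpace ℝ (Fin d) × ℝ | ‖z.1‖ < 1 - z.2} :=
        isOpen_lt (continuous_norm.comp continuous_fst) (continuous_const.sub continuous_snd)
      exact h1.inter h2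
    have hsub : {z : EuclideanSpace ℝ (Fin d) × ℝ | 0 < z.2 ∧ ‖z.1‖ < 1 - z.2} ⊆ solid d :=
      fun z hz => ⟨hz.1.le, hz.2.le⟩
    refine ⟨((0 : EuclideanSpace ℝ (Fin d)), (1/2 : ℝ)), interior_maximal hsub ho ?_⟩
    constructor <;> norm_num

/-- two continuous surjections from a compact space to Hausdorff spaces with the same fibres -/
lemma homeo_of_fibers {X Y Z : Type*} [TopologicalSpace X] [TopologicalSpace Y]
    [TopologicalSpace Z] [CompactSpace X] [T2Space Y] [T2Space Z] (p : X → Y) (q : X → Z)
    (hp : Continuous p) (hq : Continuous q) (hp' : Function.Surjective p)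
    (hq' : Function.Surjective q) (h : ∀ a b, p a = p b ↔ q a = q b) : Nonempty (Y ≃ₜ Z) := by
  have hP : Topology.IsQuotientMap (⟨p, hp⟩ : C(X, Y)) :=
    Topology.IsQuotientMap.of_surjective_continuous hp' hp
  have hQ : Topology.IsQuotientMap (⟨q, hq⟩ : C(X, Z)) :=
    Topology.IsQuotientMap.of_surjective_continuous hq' hq
  have hs : Setoid.ker (⟨p, hp⟩ : C(X, Y)) = Setoid.ker (⟨q, hq⟩ : C(X, Z)) := by
    ext a b
    exact h a b
  have e1 := hP.homeomorph
  rw [hs] at e1
  exact ⟨e1.symm.trans hQ.homeomorph⟩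

/-- the cone over a ball is a ball -/
theorem isBall_cone {d : ℕ} {v : V} {C : Finset (Finset V)} (hv : ∀ σ ∈ C, v ∉ σ)
    (h : IsBall d C) : IsBall (d + 1) (cone v C) := by
  obtain ⟨hC, ⟨h⟩⟩ := h
  refine ⟨isComplex_cone hC, ?_⟩
  obtain ⟨e⟩ := solid_homeo d
  have hCv : ∀ x : Realization C, x.1 v = 0 := by
    rintro ⟨x, -, σ, hσ, hs, -⟩
    exact hs v (hv σ hσ)
  -- the parametrisation of the cone
  have hmem : ∀ (x : Realization C) (s : ℝ), 0 ≤ s → s ≤ 1 →
      (fun w => if w = v then s else (1 - s) * x.1 w) ∈ Realization (cone v C) := by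
    rintro ⟨x, h0, σ, hσ, hs, hsum⟩ s hs0 hs1
    refine ⟨fun w => ?_, insert v σ, mem_cone.mpr (Or.inr (Or.inr ⟨σ, hσ, rfl⟩)),
      fun w hw => ?_, ?_⟩
    · dsimp only
      split_ifs
      · exact hs0
      · exact mul_nonneg (by linarith) (h0 w)
    · rw [mem_insert, not_or] at hw
      simp [hw.1, hs w hw.2]
    · rw [Finset.sum_insert (hv σ hσ)]
      have : ∑ w ∈ σ, (if w = v then s else (1 - s) * x w) = ∑ w ∈ σ, (1 - s) * x w := by
        apply Finset.sum_congr rfl
        intro w hw
        have : w ≠ v := fun h => hv σ hσ (h ▸ hw)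
        simp [this]
      dsimp only
      rw [this, ← Finset.mul_sum, hsum]
      simp
  let X := (Metric.closedBall (0 : EuclideanSpace ℝ (Fin d)) 1 : Set _) × (Set.Icc (0:ℝ) 1)
  haveI : CompactSpace (Metric.closedBall (0 : EuclideanSpace ℝ (Fin d)) 1 : Set _) :=
    isCompact_iff_compactSpace.mp (isCompact_closedBall _ _)
  let p : X → Realization (cone v C) := fun a =>
    ⟨fun w => if w = v then a.2.1 else (1 - a.2.1) * (h.symm a.1).1 w,
      hmem _ _ a.2.2.1 a.2.2.2⟩
  let q : X → solid d := fun a => ⟨((1 - a.2.1) • a.1.1, a.2.1), by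
    refine ⟨a.2.2.1, ?_⟩
    dsimp only
    rw [norm_smul, Real.norm_of_nonneg (by linarith [a.2.2.2])]
    have h1 : ‖a.1.1‖ ≤ 1 := mem_closedBall_zero_iff.mp a.1.2
    have h2 : 0 ≤ 1 - a.2.1 := by linarith [a.2.2.2]
    nlinarith⟩
  have hp : Continuous p := by
    refine Continuous.subtype_mk (continuous_pi fun w => ?_) _
    by_cases hw : w = v
    · simp only [hw, if_true]
      exact continuous_subtype_val.comp continuous_snd
    · simp only [hw, if_false]
      refine (continuous_const.sub (continuous_subtype_val.comp continuous_snd)).mul ?_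
      exact (continuous_apply w).comp (continuous_subtype_val.comp
        (h.symm.continuous.comp continuous_fst))
  have hq : Continuous q := by
    refine Continuous.subtype_mk ?_ _
    refine Continuous.prodMk ?_ (continuous_subtype_val.comp continuous_snd)
    exact (continuous_const.sub (continuous_subtype_val.comp continuous_snd)).smul
      (continuous_subtype_val.comp continuous_fst)
  have y0 : (Metric.closedBall (0 : EuclideanSpace ℝ (Fin d)) 1 : Set _) := ⟨0, by simp⟩
  have hp' : Function.Surjective p := by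
    rintro ⟨x, h0, f, hf, hs, hsum⟩
    -- reduce to f = insert v σ
    obtain ⟨σ, hσ, hs, hsum⟩ : ∃ σ ∈ C, (∀ w, w ∉ insert v σ → x w = 0) ∧
        x v + ∑ w ∈ σ, x w = 1 := by
      rcases mem_cone.mp hf with rfl | h | ⟨σ, h, rfl⟩
      · obtain ⟨x', -, σ, hσ, -, -⟩ := h.symm y0
        refine ⟨σ, hσ, fun w hw => hs w ?_, ?_⟩
        · rw [mem_insert, not_or] at hw; simp [hw.1]
        · rw [sum_singleton] at hsum
          rw [hsum, Finset.sum_eq_zero, add_zero]
          intro w hw
          apply hs
          rw [mem_singleton]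
          exact fun h => hv σ hσ (h ▸ hw)
      · refine ⟨f, h, fun w hw => hs w ?_, ?_⟩
        · rw [mem_insert, not_or] at hw; exact hw.2
        · rw [hs v (hv f h), zero_add, hsum]
      · refine ⟨σ, h, hs, ?_⟩
        rw [Finset.sum_insert (hv σ h)] at hsum
        exact hsum
    have hsn : 0 ≤ ∑ w ∈ σ, x w := Finset.sum_nonneg fun w _ => h0 w
    have hv1 : x v ≤ 1 := by linarith
    by_cases h1 : x v = 1
    · refine ⟨(y0, ⟨x v, h0 v, hv1⟩), Subtype.ext (funext fun w => ?_)⟩
      dsimp only [p]
      split_ifs with hw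
      · rw [hw]
      · rw [h1, sub_self, zero_mul]
        by_cases hwσ : w ∈ σ
        · have : ∑ w ∈ σ, x w = 0 := by linarith
          rw [Finset.sum_eq_zero_iff_of_nonneg (fun w _ => h0 w)] at this
          exact (this w hwσ).symm
        · exact (hs w (by simp [hw, hwσ])).symm
    · have hpos : 0 < 1 - x v := lt_of_le_of_ne (by linarith) (fun h => h1 (by linarith))
      have hx' : (fun w => if w = v then 0 else x w / (1 - x v)) ∈ Realization C := by
        refine ⟨fun w => ?_, σ, hσ, fun w hw => ?_, ?_⟩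
        · dsimp only
          split_ifs
          · exact le_rfl
          · exact div_nonneg (h0 w) hpos.le
        · dsimp only
          split_ifs with hwv
          · rfl
          · rw [hs w (by simp [hwv, hw]), zero_div]
        · have : ∑ w ∈ σ, (if w = v then 0 else x w / (1 - x v)) =
              ∑ w ∈ σ, x w / (1 - x v) := by
            apply Finset.sum_congr rfl
            intro w hw
            have : w ≠ v := fun h => hv σ hσ (h ▸ hw)
            simp [this]
          rw [this, ← Finset.sum_div, div_eq_one_iff_eq hpos.ne']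
          linarith
      refine ⟨(h ⟨_, hx'⟩, ⟨x v, h0 v, hv1⟩), Subtype.ext (funext fun w => ?_)⟩
      dsimp only [p]
      rw [Homeomorph.symm_apply_apply]
      split_ifs with hw
      · rw [hw]
      · dsimp only
        rw [if_neg hw, mul_div_cancel₀ _ hpos.ne']
  have hq' : Function.Surjective q := by
    rintro ⟨⟨z, s⟩, h1, h2⟩
    dsimp only at h1 h2
    have hz := norm_nonneg z
    have hs1 : s ≤ 1 := by linarith
    by_cases hs : s = 1
    · refine ⟨(y0, ⟨s, h1, hs1⟩), Subtype.ext ?_⟩
      dsimp only [q]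
      have : z = 0 := by
        rw [← norm_le_zero_iff]; linarith
      rw [this, hs, sub_self, zero_smul]
    · have hpos : 0 < 1 - s := lt_of_le_of_ne (by linarith) (fun h => hs (by linarith))
      refine ⟨(⟨(1 - s)⁻¹ • z, ?_⟩, ⟨s, h1, hs1⟩), Subtype.ext ?_⟩
      · rw [mem_closedBall_zero_iff, norm_smul, norm_inv, Real.norm_of_nonneg hpos.le,
          inv_mul_le_iff₀ hpos]
        linarith
      · dsimp only [q]
        rw [smul_inv_smul₀ hpos.ne']
  have hfib : ∀ a b, p a = p b ↔ q a = q b := by
    rintro ⟨y, s⟩ ⟨y', s'⟩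
    constructor
    · intro hab
      have hab' := congrArg Subtype.val hab
      have hs : s.1 = s'.1 := by
        have := congrFun hab' v
        simpa [p] using this
      by_cases h1 : s.1 = 1
      · apply Subtype.ext
        simp only [q]
        rw [← hs, h1, sub_self, zero_smul, zero_smul]
      · have hne : 1 - s.1 ≠ 0 := fun h => h1 (by linarith)
        have hyy : h.symm y = h.symm y' := by
          apply Subtype.ext
          funext w
          by_cases hw : w = v
          · rw [hw, hCv, hCv]
          · have := congrFun hab' w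
            simp only [p, hw, if_false] at this
            rw [← hs] at this
            exact mul_left_cancel₀ hne this
        have hy : y = y' := h.symm.injective hyy
        have hs' : s = s' := Subtype.ext hs
        rw [hy, hs']
    · intro hab
      have hab' := congrArg Subtype.val hab
      have hs : s.1 = s'.1 := by
        have := congrArg Prod.snd hab'
        simpa [q] using this
      have hz := congrArg Prod.fst hab'
      simp only [q] at hz
      rw [← hs] at hz
      by_cases h1 : s.1 = 1
      · apply Subtype.ext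
        funext w
        simp only [p]
        rw [← hs, h1, sub_self, zero_mul, zero_mul]
      · have hne : 1 - s.1 ≠ 0 := fun h => h1 (by linarith)
        have hy : y = y' := Subtype.ext (smul_right_injective _ hne hz)
        have hs' : s = s' := Subtype.ext hs
        rw [hy, hs']
  obtain ⟨e'⟩ := homeo_of_fibers p q hp hq hp' hq' hfib
  exact ⟨e'.trans e⟩

/-- a point is a 0-ball -/
theorem isBall_point (v : V) : IsBall 0 ({{v}} : Finset (Finset V)) := by
  refine ⟨⟨fun σ hσ => ?_, fun σ hσ τ hτ hne => ?_⟩, ?_⟩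
  · rw [mem_singleton] at hσ; subst hσ; exact singleton_nonempty v
  · rw [mem_singleton] at hσ ⊢; subst hσ
    rcases Finset.subset_singleton_iff.mp hτ with rfl | rfl
    · simp at hne
    · rfl
  · have hu : ∀ x ∈ Realization ({{v}} : Finset (Finset V)), x = Pi.single v 1 := by
      rintro x ⟨-, σ, hσ, hs, hsum⟩
      rw [mem_singleton] at hσ; subst hσ
      funext w
      by_cases hw : w = v
      · subst hw; simpa using hsum
      · rw [hs w (by simp [hw])]; simp [hw]
    have hm : Pi.single v (1:ℝ) ∈ Realization ({{v}} : Finset (Finset V)) := by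
      refine ⟨fun w => ?_, {v}, by simp, fun w hw => ?_, by simp⟩
      · by_cases hw : w = v
        · subst hw; simp
        · simp [hw]
      · have : w ≠ v := by simpa using hw
        simp [this]
    haveI : Unique (Realization ({{v}} : Finset (Finset V))) :=
      ⟨⟨⟨_, hm⟩⟩, fun x => Subtype.ext (hu x.1 x.2)⟩
    haveI : Unique (Metric.closedBall (0 : EuclideanSpace ℝ (Fin 0)) 1 :
        Set (EuclideanSpace ℝ (Fin 0))) :=
      ⟨⟨⟨0, by simp⟩⟩, fun x => Subtype.ext (Subsingleton.elim _ _)⟩
    exact ⟨Homeomorph.homeomorphOfUnique _ _⟩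

end Pool.Agent.Work.MP_9638d9_co
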