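import Pool.Agent.Work.MP_9638d9_co.ConeBall

namespace Pool.Agent.Work.MP_9638d9_co

open Finset

universe u
variable {V : Type u} [DecidableEq V]

lemma isComplex_link {C : Finset (Finset V)} (hC : IsComplex C) (u : V) :
    IsComplex (link u C) := by
  refine ⟨fun σ hσ => hC.1 σ (mem_filter.mp hσ).1, fun σ hσ τ hτ hne => ?_⟩
  rw [link, mem_filter] at hσ ⊢
  refine ⟨hC.2 σ hσ.1 τ hτ hne, fun h => hσ.2.1 (hτ h), hC.2 _ hσ.2.2 _ ?_ (insert_nonempty _ _)⟩
  exact insert_subset_insert _ hτ

lemma isComplex_del {C : Finset (Finset V)} (hC : IsComplex C) (u : V) :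
    IsComplex (del u C) := by
  refine ⟨fun σ hσ => hC.1 σ (mem_filter.mp hσ).1, fun σ hσ τ hτ hne => ?_⟩
  rw [del, mem_filter] at hσ ⊢
  exact ⟨hC.2 σ hσ.1 τ hτ hne, fun h => hσ.2 (hτ h)⟩

lemma link_cone {v u : V} {C : Finset (Finset V)} (hv : ∀ σ ∈ C, v ∉ σ) (hu : {u} ∈ C) :
    link u (cone v C) = cone v (link u C) := by
  have huv : u ≠ v := by
    intro h; subst h
    exact hv _ hu (mem_singleton_self u)
  ext f
  rw [link, mem_filter, mem_cone, mem_cone, mem_cone]
  simp only [link, mem_filter]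
  constructor
  · rintro ⟨rfl | h | ⟨σ, hσ, rfl⟩, hf, h'⟩
    · exact Or.inl rfl
    · right; left
      refine ⟨h, hf, ?_⟩
      rcases h' with h' | h' | ⟨σ, hσ, h'⟩
      · exfalso
        have : u ∈ ({v} : Finset V) := h' ▸ mem_insert_self u f
        exact huv (mem_singleton.mp this)
      · exact h'
      · exfalso
        have : v ∈ insert u f := h' ▸ mem_insert_self v σ
        rcases mem_insert.mp this with h1 | h1
        · exact huv h1.symm
        · exact hv f h h1
    · right; right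
      refine ⟨σ, ⟨hσ, fun h => hf (mem_insert_of_mem h), ?_⟩, rfl⟩
      rcases h' with h' | h' | ⟨σ', hσ', h'⟩
      · exfalso
        have : u ∈ ({v} : Finset V) := h' ▸ mem_insert_self u _
        exact huv (mem_singleton.mp this)
      · exact absurd (mem_insert_of_mem (mem_insert_self v σ)) (hv _ h')
      · have h1 : (insert v σ').erase v = σ' := erase_insert (hv σ' hσ')
        have h2 : (insert u (insert v σ)).erase v = insert u σ := by
          rw [insert_comm, erase_insert]
          rw [mem_insert, not_or]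
          exact ⟨fun h => huv h.symm, hv σ hσ⟩
        rw [← h2, ← h', h1]
        exact hσ'
  · rintro (rfl | ⟨h, hf, h'⟩ | ⟨σ, ⟨hσ, h1, h2⟩, rfl⟩)
    · refine ⟨Or.inl rfl, by simpa using huv, Or.inr (Or.inr ⟨{u}, hu, ?_⟩)⟩
      ext w; simp [or_comm]
    · exact ⟨Or.inr (Or.inl h), hf, Or.inr (Or.inl h')⟩
    · refine ⟨Or.inr (Or.inr ⟨σ, hσ, rfl⟩), ?_, Or.inr (Or.inr ⟨_, h2, insert_comm _ _ _⟩)⟩
      rw [mem_insert, not_or]
      exact ⟨huv, h1⟩

lemma del_cone {v u : V} {C : Finset (Finset V)} (hv : ∀ σ ∈ C, v ∉ σ) (hu : {u} ∈ C) :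
    del u (cone v C) = cone v (del u C) := by
  have huv : u ≠ v := by
    intro h; subst h
    exact hv _ hu (mem_singleton_self u)
  ext f
  rw [del, mem_filter, mem_cone, mem_cone]
  simp only [del, mem_filter]
  constructor
  · rintro ⟨rfl | h | ⟨σ, hσ, rfl⟩, hf⟩
    · exact Or.inl rfl
    · exact Or.inr (Or.inl ⟨h, hf⟩)
    · exact Or.inr (Or.inr ⟨σ, ⟨hσ, fun h => hf (mem_insert_of_mem h)⟩, rfl⟩)
  · rintro (rfl | ⟨h, hf⟩ | ⟨σ, ⟨hσ, h1⟩, rfl⟩)
    · exact ⟨Or.inl rfl, by simpa using huv⟩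
    · exact ⟨Or.inr (Or.inl h), hf⟩
    · refine ⟨Or.inr (Or.inr ⟨σ, hσ, rfl⟩), ?_⟩
      rw [mem_insert, not_or]
      exact ⟨huv, h1⟩

/-- cones are non-evasive -/
theorem nonEvasive_cone (v : V) : ∀ (n : ℕ) (C : Finset (Finset V)), C.card ≤ n → IsComplex C →
    (∀ σ ∈ C, v ∉ σ) → NonEvasive (cone v C) := by
  intro n
  induction n with
  | zero =>
    intro C hn hC hv
    have : C = ∅ := card_eq_zero.mp (by omega)
    subst this
    have : cone v (∅ : Finset (Finset V)) = {{v}} := by
      ext f; simp [mem_cone]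
    rw [this]
    exact NonEvasive.point v
  | succ n ih =>
    intro C hn hC hv
    by_cases hemp : C = ∅
    · exact ih C (by simp [hemp]) hC hv
    · obtain ⟨σ, hσ⟩ := nonempty_iff_ne_empty.mpr hemp
      obtain ⟨u, hu⟩ := hC.1 σ hσ
      have huC : {u} ∈ C := hC.2 σ hσ {u} (singleton_subset_iff.mpr hu) (singleton_nonempty u)
      have hl : (link u C).card < C.card := by
        apply card_lt_card
        refine ⟨filter_subset _ _, fun h => ?_⟩
        have := h huC
        simp [link] at this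
      have hd : (del u C).card < C.card := by
        apply card_lt_card
        refine ⟨filter_subset _ _, fun h => ?_⟩
        have := h huC
        simp [del] at this
      refine NonEvasive.step _ u ?_ ?_ ?_
      · exact mem_cone.mpr (Or.inr (Or.inl huC))
      · rw [link_cone hv huC]
        exact ih _ (by omega) (isComplex_link hC u) fun σ hσ => hv σ (mem_filter.mp hσ).1
      · rw [del_cone hv huC]
        exact ih _ (by omega) (isComplex_del hC u) fun σ hσ => hv σ (mem_filter.mp hσ).1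

/-! ### Local constructibility of a cone -/

lemma tree_mem {d : ℕ} {S : Finset (Finset V)} {E : Finset (Finset V × Finset V)}
    (h : Tree d S E) : ∀ a b, (a, b) ∈ E → a ∈ S ∧ b ∈ S := by
  induction h with
  | single σ _ => intro a b h; simp at h
  | attach S E σ τ _ hσ hτ _ _ _ ih =>
    intro a b hab
    rcases mem_insert.mp hab with h | h
    · rw [Prod.mk.injEq] at h
      rw [h.1, h.2]
      exact ⟨mem_insert_of_mem hσ, mem_insert_self _ _⟩
    · exact ⟨mem_insert_of_mem (ih a b h).1, mem_insert_of_mem (ih a b h).2⟩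

lemma assembled_mem {d : ℕ} {S : Finset (Finset V)} {E : Finset (Finset V × Finset V)}
    (h : Assembled d S E) : ∀ a b, (a, b) ∈ E → a ∈ S ∧ b ∈ S := by
  induction h with
  | tree E h => exact tree_mem h
  | glue E σ τ ρ _ hσ hτ _ _ _ _ _ _ ih =>
    intro a b hab
    rcases mem_insert.mp hab with h | h
    · rw [Prod.mk.injEq] at h
      rw [h.1, h.2]
      exact ⟨hσ, hτ⟩
    · exact ih a b h

omit [DecidableEq V] in
lemma Joined.symm {E : Finset (Finset V × Finset V)} {a b : Finset V} (h : Joined E a b) :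
    Joined E b a := Or.symm h

omit [DecidableEq V] in
lemma Joined.mono {E E' : Finset (Finset V × Finset V)} (hE : E ⊆ E') {a b : Finset V}
    (h : Joined E a b) : Joined E' a b := h.imp (fun h => hE h) (fun h => hE h)

lemma Same.trans {E : Finset (Finset V × Finset V)} {ρ a b c : Finset V} (h1 : Same E ρ a b)
    (h2 : Same E ρ b c) : Same E ρ a c := by
  induction h2 with
  | refl => exact h1
  | step τ υ _ hj hs ih => exact Same.step _ τ υ ih hj hs

lemma Same.single {E : Finset (Finset V × Finset V)} {ρ a b : Finset V} (h1 : Joined E a b)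
    (h2 : ρ ⊆ a ∩ b) : Same E ρ a b := Same.step _ a b (Same.refl a) h1 h2

lemma Same.symm {E : Finset (Finset V × Finset V)} {ρ a b : Finset V} (h1 : Same E ρ a b) :
    Same E ρ b a := by
  induction h1 with
  | refl => exact Same.refl _
  | step τ υ _ hj hs ih =>
    exact (Same.single hj.symm (by rwa [inter_comm])).trans ih

lemma Same.mono {E E' : Finset (Finset V × Finset V)} (hE : E ⊆ E') {ρ ρ' a b : Finset V}
    (hρ : ρ' ⊆ ρ) (h : Same E ρ a b) : Same E' ρ' a b := by
  induction h with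
  | refl => exact Same.refl _
  | step τ υ _ hj hs ih => exact Same.step _ τ υ ih (hj.mono hE) (hρ.trans hs)

/-- the image of the glueing relation under erasing the apex -/
def eraseE (v : V) (E : Finset (Finset V × Finset V)) : Finset (Finset V × Finset V) :=
  E.image (fun p => (p.1.erase v, p.2.erase v))

lemma joined_eraseE {v : V} {E : Finset (Finset V × Finset V)} {a b : Finset V}
    (h : Joined E a b) : Joined (eraseE v E) (a.erase v) (b.erase v) := by
  rcases h with h | h
  · exact Or.inl (mem_image.mpr ⟨(a, b), h, rfl⟩)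
  · exact Or.inr (mem_image.mpr ⟨(b, a), h, rfl⟩)

lemma exists_of_joined_eraseE {v : V} {E : Finset (Finset V × Finset V)} {x y : Finset V}
    (h : Joined (eraseE v E) x y) : ∃ a b, Joined E a b ∧ a.erase v = x ∧ b.erase v = y := by
  rcases h with h | h
  · obtain ⟨⟨a, b⟩, hab, h⟩ := mem_image.mp h
    rw [Prod.mk.injEq] at h
    exact ⟨a, b, Or.inl hab, h.1, h.2⟩
  · obtain ⟨⟨a, b⟩, hab, h⟩ := mem_image.mp h
    rw [Prod.mk.injEq] at h
    exact ⟨b, a, Or.inr hab, h.2, h.1⟩

lemma same_eraseE {v : V} {E : Finset (Finset V × Finset V)} {ρ a b : Finset V}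
    (h : Same E ρ a b) : Same (eraseE v E) (ρ.erase v) (a.erase v) (b.erase v) := by
  induction h with
  | refl => exact Same.refl _
  | step τ υ _ hj hs ih =>
    refine Same.step _ _ _ ih (joined_eraseE hj) ?_
    intro w hw
    rw [mem_erase] at hw
    have := hs hw.2
    rw [mem_inter] at this
    rw [mem_inter, mem_erase, mem_erase]
    exact ⟨⟨hw.1, this.1⟩, hw.1, this.2⟩

lemma erase_inj' {v : V} {a b : Finset V} (ha : v ∈ a) (hb : v ∈ b)
    (h : a.erase v = b.erase v) : a = b := by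
  rw [← insert_erase ha, h, insert_erase hb]

lemma inter_erase_erase (v : V) (a b : Finset V) :
    a.erase v ∩ b.erase v = (a ∩ b).erase v := by
  ext w; simp only [mem_inter, mem_erase]; tauto

lemma onBoundary_eraseE {v : V} {E : Finset (Finset V × Finset V)}
    (hE : ∀ a b, (a, b) ∈ E → v ∈ a ∧ v ∈ b) {σ τ : Finset V} (hσ : v ∈ σ) (hτ : v ∈ τ)
    (h : OnBoundary E σ (σ ∩ τ)) :
    OnBoundary (eraseE v E) (σ.erase v) (σ.erase v ∩ τ.erase v) := by
  intro y hy heq
  obtain ⟨a, b, hab, ha, rfl⟩ := exists_of_joined_eraseE hy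
  have hva : v ∈ a ∧ v ∈ b := by
    rcases hab with h | h
    · exact hE _ _ h
    · exact (hE _ _ h).symm
  have hσa : a = σ := erase_inj' hva.1 hσ ha
  subst hσa
  refine h b hab ?_
  rw [inter_erase_erase, inter_erase_erase] at heq
  exact erase_inj' (mem_inter.mpr ⟨hσ, hva.2⟩) (mem_inter.mpr ⟨hσ, hτ⟩) heq

lemma card_inter_erase {v : V} {d : ℕ} {σ τ : Finset V} (hσ : v ∈ σ) (hτ : v ∈ τ)
    (h : (σ ∩ τ).card = d + 1) : (σ.erase v ∩ τ.erase v).card = d := by
  rw [inter_erase_erase, card_erase_of_mem (mem_inter.mpr ⟨hσ, hτ⟩), h]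
  rfl

lemma tree_erase {v : V} {d : ℕ} {S : Finset (Finset V)} {E : Finset (Finset V × Finset V)}
    (h : Tree (d + 1) S E) (hS : ∀ σ ∈ S, v ∈ σ) :
    Tree d (S.image (fun σ => σ.erase v)) (eraseE v E) := by
  induction h with
  | single σ hσ =>
    have hv := hS σ (mem_singleton_self σ)
    have := Tree.single (d := d) (σ.erase v) (by rw [card_erase_of_mem hv, hσ]; rfl)
    simpa [eraseE] using this
  | attach S E σ τ hT hσ hτ hc hcap hb ih =>
    have hvσ := hS σ (mem_insert_of_mem hσ)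
    have hvτ := hS τ (mem_insert_self _ _)
    have hS' : ∀ σ ∈ S, v ∈ σ := fun a ha => hS a (mem_insert_of_mem ha)
    have h1 := ih hS'
    have hE : ∀ a b, (a, b) ∈ E → v ∈ a ∧ v ∈ b := fun a b hab =>
      ⟨hS' a (tree_mem hT a b hab).1, hS' b (tree_mem hT a b hab).2⟩
    have h2 := Tree.attach (d := d) _ _ (σ.erase v) (τ.erase v) h1
      (mem_image_of_mem _ hσ) (by
        intro h
        obtain ⟨a, ha, h'⟩ := mem_image.mp h
        exact hτ (erase_inj' (hS' a ha) hvτ h' ▸ ha)) (by rw [card_erase_of_mem hvτ, hc]; rfl)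
      (card_inter_erase hvσ hvτ hcap) (onBoundary_eraseE hE hvσ hvτ hb)
    rw [image_insert]
    have : eraseE v (insert (σ, τ) E) = insert (σ.erase v, τ.erase v) (eraseE v E) := by
      rw [eraseE, image_insert]; rfl
    rw [this]
    exact h2

lemma assembled_erase {v : V} {d : ℕ} (hd : 1 ≤ d) {S : Finset (Finset V)}
    {E : Finset (Finset V × Finset V)}
    (h : Assembled (d + 1) S E) (hS : ∀ σ ∈ S, v ∈ σ) :
    Assembled d (S.image (fun σ => σ.erase v)) (eraseE v E) := by
  induction h with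
  | tree E hT => exact Assembled.tree _ (tree_erase hT hS)
  | glue E σ τ ρ hA hσ hτ hcap hb hb' hρ hρc hsame ih =>
    have hvσ := hS σ hσ
    have hvτ := hS τ hτ
    have hE : ∀ a b, (a, b) ∈ E → v ∈ a ∧ v ∈ b := fun a b hab =>
      ⟨hS a (assembled_mem hA a b hab).1, hS b (assembled_mem hA a b hab).2⟩
    have hb1 := onBoundary_eraseE hE hvσ hvτ hb
    have hb2 : OnBoundary (eraseE v E) (τ.erase v) (σ.erase v ∩ τ.erase v) := by
      rw [inter_comm]
      exact onBoundary_eraseE hE hvτ hvσ (by rwa [inter_comm])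
    have : eraseE v (insert (σ, τ) E) = insert (σ.erase v, τ.erase v) (eraseE v E) := by
      rw [eraseE, image_insert]; rfl
    rw [this]
    have hsm := same_eraseE (v := v) hsame
    have hρ1 : ρ.erase v ⊆ σ.erase v ∩ τ.erase v := by
      rw [inter_erase_erase]
      exact erase_subset_erase v hρ
    by_cases hvρ : v ∈ ρ
    · refine Assembled.glue _ _ _ (ρ.erase v) ih (mem_image_of_mem _ hσ) (mem_image_of_mem _ hτ)
        (card_inter_erase hvσ hvτ hcap) hb1 hb2 hρ1 ?_ hsm
      rw [card_erase_of_mem hvρ]; omega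
    · obtain ⟨ρ', hρ', hc'⟩ := exists_subset_card_eq (show d - 1 ≤ ρ.card by omega)
      rw [erase_eq_of_notMem hvρ] at hρ1 hsm
      refine Assembled.glue _ _ _ ρ' ih (mem_image_of_mem _ hσ) (mem_image_of_mem _ hτ)
        (card_inter_erase hvσ hvτ hcap) hb1 hb2 (hρ'.trans hρ1) (by omega)
        (hsm.mono (Subset.refl _) hρ')

lemma cells_cone {v : V} {d : ℕ} {C : Finset (Finset V)} (hv : ∀ σ ∈ C, v ∉ σ)
    (hP : Pure (d + 1) (cone v C)) :
    cells (d + 1) (cone v C) = (cells d C).image (insert v) := by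
  ext f
  rw [cells, mem_filter, mem_cone, mem_image]
  simp only [cells, mem_filter]
  constructor
  · rintro ⟨rfl | h | ⟨σ, hσ, rfl⟩, hc⟩
    · simp at hc
    · exfalso
      obtain ⟨g, hg, hfg⟩ := hP (insert v f) (mem_cone.mpr (Or.inr (Or.inr ⟨f, h, rfl⟩)))
      have h1 := card_le_card hfg
      rw [card_insert_of_notMem (hv f h), hc, (mem_filter.mp hg).2] at h1
      omega
    · rw [card_insert_of_notMem (hv σ hσ)] at hc
      exact ⟨σ, ⟨hσ, by omega⟩, rfl⟩
  · rintro ⟨σ, ⟨hσ, hc⟩, rfl⟩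
    refine ⟨Or.inr (Or.inr ⟨σ, hσ, rfl⟩), ?_⟩
    rw [card_insert_of_notMem (hv σ hσ), hc]

/-- if the cone over `C` is LC then so is `C` -/
theorem isLC_of_cone {v : V} {d : ℕ} (hd : 1 ≤ d) {C : Finset (Finset V)}
    (hv : ∀ σ ∈ C, v ∉ σ) (h : IsLC (d + 1) (cone v C)) : IsLC d C := by
  obtain ⟨hP, E, hA, hfin⟩ := h
  have hcells := cells_cone hv hP
  have himg : (cells (d + 1) (cone v C)).image (fun σ => σ.erase v) = cells d C := by
    rw [hcells, image_image]
    have : ∀ σ ∈ cells d C, ((fun σ : Finset V => σ.erase v) ∘ insert v) σ = id σ := by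
      intro σ hσ
      exact erase_insert (hv σ (mem_filter.mp hσ).1)
    rw [image_congr this, image_id]
  have hS : ∀ σ ∈ cells (d + 1) (cone v C), v ∈ σ := by
    intro σ hσ
    rw [hcells, mem_image] at hσ
    obtain ⟨a, -, rfl⟩ := hσ
    exact mem_insert_self v a
  refine ⟨fun ρ hρ => ?_, eraseE v E, ?_, fun σ hσ τ hτ ρ hρ hne => ?_⟩
  · obtain ⟨g, hg, hρg⟩ := hP ρ (mem_cone.mpr (Or.inr (Or.inl hρ)))
    refine ⟨g.erase v, ?_, fun w hw => mem_erase.mpr ⟨?_, hρg hw⟩⟩
    · rw [← himg]
      exact mem_image_of_mem _ hg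
    · intro h; exact hv ρ hρ (h ▸ hw)
  · rw [← himg]
    exact assembled_erase hd hA hS
  · have hσ' : insert v σ ∈ cells (d + 1) (cone v C) := by
      rw [hcells]; exact mem_image_of_mem _ hσ
    have hτ' : insert v τ ∈ cells (d + 1) (cone v C) := by
      rw [hcells]; exact mem_image_of_mem _ hτ
    have h1 := same_eraseE (v := v) (hfin _ hσ' _ hτ' (insert v ρ) (by
      rw [← insert_inter_distrib]
      exact insert_subset_insert v hρ) (insert_nonempty _ _))
    have hvσ : v ∉ σ := hv σ (mem_filter.mp hσ).1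
    have hvτ : v ∉ τ := hv τ (mem_filter.mp hτ).1
    have hvρ : v ∉ ρ := fun h => hvσ (mem_inter.mp (hρ h)).1
    rwa [erase_insert hvσ, erase_insert hvτ, erase_insert hvρ] at h1

end Pool.Agent.Work.MP_9638d9_co
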