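import Pool.Agent.Work.MP_9638d9_co.Bridge

namespace Pool.Agent.Work.MP_9638d9_co

open Finset

universe u
variable {V : Type u} [DecidableEq V]

lemma exists_step {α : Type*} {R : α → α → Prop} {S : α → Prop} {a b : α}
    (h : Relation.ReflTransGen R a b) (ha : S a) (hb : ¬ S b) : ∃ x y, R x y ∧ S x ∧ ¬ S y := by
  induction h with
  | refl => exact absurd ha hb
  | @tail b c _ hbc ih =>
    by_cases hb' : S b
    · exact ⟨b, c, hbc, hb', hb⟩
    · exact ih hb'

/-- faces between `ρ` and `t` -/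
lemma card_mid {C : Finset (Finset V)} (hC : IsComplex C) {t ρ : Finset V} {k : ℕ} (ht : t ∈ C)
    (hρ : ρ ⊆ t) (hk : ρ.card = k) :
    ((cells k C).filter (fun F => ρ ⊆ F ∧ F ⊆ t)).card = t.card - k := by
  have h1 : (cells k C).filter (fun F => ρ ⊆ F ∧ F ⊆ t) = (t \ ρ).image (fun y => insert y ρ) := by
    ext F
    rw [mem_filter, mem_image, mem_cells]
    constructor
    · rintro ⟨⟨_, hF⟩, h1, h2⟩
      have hd : (F \ ρ).card = 1 := by
        rw [card_sdiff_of_subset h1]; omega
      obtain ⟨y, hy⟩ := card_eq_one.mp hd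
      have hyF : y ∈ F \ ρ := by rw [hy]; exact mem_singleton_self y
      rw [mem_sdiff] at hyF
      refine ⟨y, mem_sdiff.mpr ⟨h2 hyF.1, hyF.2⟩, ?_⟩
      rw [← union_sdiff_of_subset h1, hy, union_comm]
      rfl
    · rintro ⟨y, hy, rfl⟩
      rw [mem_sdiff] at hy
      have hs : insert y ρ ⊆ t := insert_subset hy.1 hρ
      exact ⟨⟨hC.2 t ht _ hs (insert_nonempty _ _), by rw [card_insert_of_notMem hy.2, hk]⟩,
        subset_insert _ _, hs⟩
  rw [h1, card_image_of_injOn, card_sdiff_of_subset hρ, hk]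
  intro a ha b hb hab
  rw [mem_coe, mem_sdiff] at ha hb
  have : a ∈ insert b ρ := by
    have : a ∈ insert a ρ := mem_insert_self a ρ
    simp only at hab
    rwa [hab] at this
  rcases mem_insert.mp this with h | h
  · exact h
  · exact absurd h ha.2

section
variable {C : Finset (Finset V)} (hM : Mfd C)
include hM

lemma Mfd.deg_pos {F : Finset V} (hF : F ∈ C) : 1 ≤ deg 3 C F := by
  obtain ⟨t, ht, hs⟩ := hM.pure F hF
  exact card_pos.mpr ⟨t, mem_filter.mpr ⟨ht, hs⟩⟩

lemma Mfd.deg_cases {F : Finset V} (hF : F ∈ cells 2 C) : deg 3 C F = 1 ∨ deg 3 C F = 2 := by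
  have h1 := hM.deg_pos (mem_cells.mp hF).1
  have h2 := hM.deg_le F hF
  omega

/-- boundary triangles at an edge: none or exactly two -/
lemma Mfd.edge_bd {v x : V} (hvx : ({v, x} : Finset V) ∈ C) (hne : v ≠ x) :
    ((cells 2 C).filter (fun F => ({v, x} : Finset V) ⊆ F ∧ deg 3 C F = 1)).card = 0 ∨
    ((cells 2 C).filter (fun F => ({v, x} : Finset V) ⊆ F ∧ deg 3 C F = 1)).card = 2 := by
  set ρ : Finset V := {v, x} with hρ
  have hρc : ρ.card = 2 := card_pair hne
  obtain ⟨A, hA⟩ : ∃ A, A = (cells 3 C).filter (fun t => ρ ⊆ t) := ⟨_, rfl⟩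
  obtain ⟨B, hB⟩ : ∃ B, B = (cells 2 C).filter (fun F => ρ ⊆ F) := ⟨_, rfl⟩
  -- double counting
  have hdc : ∑ t ∈ A, (B.filter (fun F => F ⊆ t)).card = ∑ F ∈ B, (A.filter (fun t => F ⊆ t)).card :=
    sum_card_bipartiteAbove_eq_sum_card_bipartiteBelow (s := A) (t := B)
      (fun (t F : Finset V) => F ⊆ t)
  have h1 : ∀ t ∈ A, (B.filter (fun F => F ⊆ t)).card = 2 := by
    intro t ht
    rw [hA, mem_filter] at ht
    have := card_mid hM.cx (mem_cells.mp ht.1).1 ht.2 hρc
    rw [(mem_cells.mp ht.1).2] at this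
    rw [hB, filter_filter]
    exact this
  have h2 : ∀ F ∈ B, (A.filter (fun t => F ⊆ t)).card = deg 3 C F := by
    intro F hF
    rw [hB, mem_filter] at hF
    rw [hA, filter_filter, deg]
    congr 1
    ext t
    rw [mem_filter, mem_filter]
    exact ⟨fun h => ⟨h.1, h.2.2⟩, fun h => ⟨h.1, hF.2.trans h.2, h.2⟩⟩
  rw [sum_congr rfl h1, sum_congr rfl h2, sum_const, smul_eq_mul] at hdc
  have h3 : ∑ F ∈ B, deg 3 C F + (B.filter (fun F => deg 3 C F = 1)).card = 2 * B.card := by
    rw [card_filter, ← sum_add_distrib, mul_comm, ← smul_eq_mul, ← sum_const]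
    apply sum_congr rfl
    intro F hF
    rw [hB, mem_filter] at hF
    rcases hM.deg_cases hF.1 with h | h <;> simp [h]
  -- growth
  have hgrow : ∀ k, 1 ≤ k → k ≤ A.card → ∃ S ⊆ A, S.card = k ∧
      (B.filter (fun F => ∃ t ∈ S, F ⊆ t)).card ≤ k + 1 := by
    intro k
    induction k with
    | zero => intro h; omega
    | succ k ih =>
      intro _ hk
      by_cases hk0 : k = 0
      · subst hk0
        obtain ⟨t, ht⟩ := card_pos.mp (show 0 < A.card by omega)
        refine ⟨{t}, singleton_subset_iff.mpr ht, card_singleton t, ?_⟩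
        have : B.filter (fun F => ∃ t' ∈ ({t} : Finset (Finset V)), F ⊆ t') =
            B.filter (fun F => F ⊆ t) := by
          ext F; simp
        rw [this, h1 t ht]
      · obtain ⟨S, hSA, hSc, hSf⟩ := ih (by omega) (by omega)
        obtain ⟨σ, hσ⟩ := card_pos.mp (show 0 < S.card by omega)
        obtain ⟨τ, hτA, hτS⟩ : ∃ τ ∈ A, τ ∉ S := by
          by_contra hcon
          push Not at hcon
          have := card_le_card (show A ⊆ S from hcon)
          omega
        have hσA := hSA hσ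
        rw [hA, mem_filter] at hσA hτA
        obtain ⟨a, b, ⟨ha, hb, hab, habc⟩, haS, hbS⟩ :=
          exists_step (S := fun t => t ∈ S) (hM.connE v x hvx hne σ hσA.1 τ hτA.1 hσA.2 hτA.2)
            hσ hτS
        have hbA : b ∈ A := by
          rw [hA, mem_filter]
          exact ⟨hb, hab.trans inter_subset_right⟩
        refine ⟨insert b S, insert_subset hbA hSA, by rw [card_insert_of_notMem hbS, hSc], ?_⟩
        have hsub : B.filter (fun F => ∃ t ∈ insert b S, F ⊆ t) ⊆
            B.filter (fun F => ∃ t ∈ S, F ⊆ t) ∪ (B.filter (fun F => F ⊆ b)).erase (a ∩ b) := by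
          intro F hF
          rw [mem_filter] at hF
          obtain ⟨hFB, t, ht, hFt⟩ := hF
          rw [mem_union, mem_filter, mem_erase, mem_filter]
          rcases mem_insert.mp ht with rfl | ht
          · by_cases hFa : F = a ∩ t
            · left
              exact ⟨hFB, a, haS, hFa ▸ inter_subset_left⟩
            · exact Or.inr ⟨hFa, hFB, hFt⟩
          · exact Or.inl ⟨hFB, t, ht, hFt⟩
        have hmem : a ∩ b ∈ B.filter (fun F => F ⊆ b) := by
          rw [mem_filter, hB, mem_filter, mem_cells]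
          refine ⟨⟨⟨hM.cx.2 a (mem_cells.mp ha).1 _ inter_subset_left ?_, habc⟩, hab⟩,
            inter_subset_right⟩
          exact card_pos.mp (by omega)
        have := card_le_card hsub
        have h4 := card_union_le (B.filter (fun F => ∃ t ∈ S, F ⊆ t))
          ((B.filter (fun F => F ⊆ b)).erase (a ∩ b))
        rw [card_erase_of_mem hmem, h1 b hbA] at h4
        omega
  have hApos : 1 ≤ A.card := by
    have := hM.deg_pos hvx
    rw [hA]
    exact this
  have hBA : B.card ≤ A.card + 1 := by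
    obtain ⟨S, hSA, hSc, hSf⟩ := hgrow A.card hApos le_rfl
    have hSA' : S = A := Finset.eq_of_subset_of_card_le hSA (by omega)
    rw [hSA'] at hSf
    have : B.filter (fun F => ∃ t ∈ A, F ⊆ t) = B := by
      rw [filter_eq_self]
      intro F hF
      rw [hB, mem_filter] at hF
      obtain ⟨t, ht, hs⟩ := hM.pure F (mem_cells.mp hF.1).1
      exact ⟨t, by rw [hA, mem_filter]; exact ⟨ht, hF.2.trans hs⟩, hs⟩
    rwa [this] at hSf
  have hBf : (cells 2 C).filter (fun F => ρ ⊆ F ∧ deg 3 C F = 1) =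
      B.filter (fun F => deg 3 C F = 1) := by
    rw [hB, filter_filter]
  rw [hBf]
  have hdc' : A.card * 2 = ∑ F ∈ B, deg 3 C F := hdc
  omega

/-- an edge all of whose triangles are interior -/
def IntEdge (C : Finset (Finset V)) (e : Finset V) : Prop :=
  ∀ F ∈ cells 2 C, e ⊆ F → deg 3 C F = 2

open Classical in
/-- relative Euler count at a vertex in the boundary -/
lemma Mfd.euler_disc {v : V} (hv : {v} ∈ C)
    (hbd : ∃ F ∈ cells 2 C, v ∈ F ∧ deg 3 C F = 1) :
    ((cells 3 C).filter (fun t => v ∈ t)).card +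
      ((cells 1 C).filter (fun e => v ∈ e ∧ IntEdge C e)).card =
    ((cells 2 C).filter (fun F => v ∈ F ∧ deg 3 C F = 2)).card + 1 := by
  rcases hM.euler v hv with ⟨h1, -⟩ | ⟨-, h1⟩
  · obtain ⟨F, hF, hvF, hd⟩ := hbd
    rw [h1 F hF hvF] at hd
    omega
  set B := (cells 2 C).filter (fun F => v ∈ F) with hB
  set P := (cells 1 C).filter (fun e => v ∈ e) with hP
  have hB2 : (cells 2 C).filter (fun F => v ∈ F ∧ deg 3 C F = 2) =
      B.filter (fun F => ¬ deg 3 C F = 1) := by
    rw [hB, filter_filter]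
    apply filter_congr
    intro F hF
    have := hM.deg_cases hF
    constructor
    · rintro ⟨h, h'⟩; exact ⟨h, by omega⟩
    · rintro ⟨h, h'⟩; exact ⟨h, by omega⟩
  have hP2 : (cells 1 C).filter (fun e => v ∈ e ∧ IntEdge C e) = P.filter (fun e => IntEdge C e) := by
    rw [hP, filter_filter]
  rw [hB2, hP2]
  have hBs := card_filter_add_card_filter_not (s := B) (fun F => deg 3 C F = 1)
  have hPs := card_filter_add_card_filter_not (s := P) (fun e => IntEdge C e)
  set Bbd := B.filter (fun F => deg 3 C F = 1) with hBbd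
  set Pbd := P.filter (fun e => ¬ IntEdge C e) with hPbd
  have hdc : ∑ e ∈ Pbd, (Bbd.filter (fun F => e ⊆ F)).card =
      ∑ F ∈ Bbd, (Pbd.filter (fun e => e ⊆ F)).card :=
    sum_card_bipartiteAbove_eq_sum_card_bipartiteBelow (s := Pbd) (t := Bbd)
      (fun (e F : Finset V) => e ⊆ F)
  have e1 : ∀ e ∈ Pbd, (Bbd.filter (fun F => e ⊆ F)).card = 2 := by
    intro e he
    rw [hPbd, mem_filter, hP, mem_filter] at he
    obtain ⟨⟨hec, hve⟩, hni⟩ := he
    obtain ⟨heC, hecard⟩ := mem_cells.mp hec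
    obtain ⟨x, hx⟩ := card_eq_one.mp (show (e.erase v).card = 1 by
      rw [card_erase_of_mem hve, hecard])
    have hxe : x ∈ e.erase v := by rw [hx]; exact mem_singleton_self x
    have hvx : v ≠ x := fun h => (mem_erase.mp hxe).1 h.symm
    have hee : e = {v, x} := by rw [← insert_erase hve, hx]
    have h0 : (Bbd.filter (fun F => e ⊆ F)) =
        (cells 2 C).filter (fun F => ({v, x} : Finset V) ⊆ F ∧ deg 3 C F = 1) := by
      ext F
      rw [hBbd, hB, mem_filter, mem_filter, mem_filter, mem_filter, hee]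
      constructor
      · rintro ⟨⟨⟨a, b⟩, c⟩, d⟩; exact ⟨a, d, c⟩
      · rintro ⟨a, d, c⟩; exact ⟨⟨⟨a, d (by simp)⟩, c⟩, d⟩
    rw [h0]
    rcases hM.edge_bd (hee ▸ heC) hvx with h | h
    · exfalso
      apply hni
      intro F hF heF
      rcases hM.deg_cases hF with hd | hd
      · rw [card_eq_zero] at h
        have : F ∈ (∅ : Finset (Finset V)) := by
          rw [← h, mem_filter]
          exact ⟨hF, hee ▸ heF, hd⟩
        simp at this
      · exact hd
    · exact h
  have e2 : ∀ F ∈ Bbd, (Pbd.filter (fun e => e ⊆ F)).card = 2 := by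
    intro F hF
    rw [hBbd, mem_filter, hB, mem_filter] at hF
    obtain ⟨⟨hFc, hvF⟩, hd⟩ := hF
    obtain ⟨hFC, hFcard⟩ := mem_cells.mp hFc
    have h0 : Pbd.filter (fun e => e ⊆ F) =
        (cells 1 C).filter (fun e => {v} ⊆ e ∧ e ⊆ F) := by
      ext e
      rw [hPbd, hP, mem_filter, mem_filter, mem_filter, mem_filter, singleton_subset_iff]
      constructor
      · rintro ⟨⟨⟨a, b⟩, c⟩, d⟩; exact ⟨a, b, d⟩
      · rintro ⟨a, b, d⟩
        exact ⟨⟨⟨a, b⟩, fun hI => by rw [hI F hFc d] at hd; omega⟩, d⟩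
    rw [h0, card_mid hM.cx hFC (singleton_subset_iff.mpr hvF) (card_singleton v), hFcard]
  rw [sum_congr rfl e1, sum_congr rfl e2, sum_const, sum_const, smul_eq_mul, smul_eq_mul] at hdc
  omega

open Classical in
lemma Mfd.euler_sphere {v : V} (hv : {v} ∈ C)
    (hcl : ∀ F ∈ cells 2 C, v ∈ F → deg 3 C F = 2) :
    ((cells 3 C).filter (fun t => v ∈ t)).card +
      ((cells 1 C).filter (fun e => v ∈ e ∧ IntEdge C e)).card =
    ((cells 2 C).filter (fun F => v ∈ F ∧ deg 3 C F = 2)).card + 2 := by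
  rcases hM.euler v hv with ⟨-, h1⟩ | ⟨h1, -⟩
  · have hB2 : (cells 2 C).filter (fun F => v ∈ F ∧ deg 3 C F = 2) =
        (cells 2 C).filter (fun F => v ∈ F) := by
      apply filter_congr
      intro F hF
      exact ⟨fun h => h.1, fun h => ⟨h, hcl F hF h⟩⟩
    have hP2 : (cells 1 C).filter (fun e => v ∈ e ∧ IntEdge C e) =
        (cells 1 C).filter (fun e => v ∈ e) := by
      apply filter_congr
      intro e _
      exact ⟨fun h => h.1, fun h => ⟨h, fun F hF heF => hcl F hF (heF h)⟩⟩
    rw [hB2, hP2]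
    omega
  · obtain ⟨F, hF, hvF, hd⟩ := h1
    rw [hcl F hF hvF] at hd
    omega

end

end Pool.Agent.Work.MP_9638d9_co
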