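import Pool.Agent.Work.MP_9638d9_co.CertMask

namespace Pool.Agent.Work.MP_9638d9_co

/-- the 36 tetrahedra of a 3-ball with 12 vertices and a knotted spanning edge -/
def ballL : List ℕ := [
    102, 113, 114, 108, 149, 150, 177, 178, 267, 269, 332, 394, 456, 609, 616, 705, 712,
    1045, 1035, 1105, 1162, 1186, 1283, 1285, 1314, 2061, 2086, 2092, 2181, 2182, 2241, 2338,
    2434, 2496, 3081, 3137]

/-- nontrivial transitions -/
def tabT : List (ℕ × ℕ × ℕ) := [
    (149,2181,1), (150,2182,1), (267,1035,2), (267,1283,3), (394,1162,2), (394,2434,3),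
    (1045,1285,1), (1035,267,2), (1035,3081,2), (1162,394,2), (1283,267,4), (1283,1285,4),
    (1285,1045,1), (1285,1283,3), (2181,149,1), (2181,2241,4), (2182,150,1), (2241,2181,3),
    (2434,394,4), (2434,2496,4), (2496,2434,3), (3081,1035,2), (3081,3137,4), (3137,3081,3)]

/-- nontrivial potentials -/
def tabP : List (ℕ × ℕ × ℕ) := [
    (5,149,1), (5,1045,1), (6,150,1), (9,1035,2), (10,1035,2), (10,1162,2), (129,705,2),
    (129,2181,1), (129,2241,2), (130,394,2), (130,2182,1), (130,2434,1), (132,2181,1),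
    (132,2182,1), (136,1162,2), (257,1283,3), (258,267,4), (258,394,4), (384,2434,3),
    (1025,1035,5), (1025,1283,5), (1025,1285,1), (1025,3081,3), (1028,1285,1), (1032,3081,2),
    (1280,1285,4), (2049,2241,4), (2049,3137,4), (2176,2241,4), (2176,2496,4), (2304,2496,4),
    (3072,3137,4)]

/-- a sequence of flips reducing the ball to one tetrahedron -/
def moves : List (ℕ × ℕ × ℕ) := [
    (32,4096,12), (2048,32,5), (16,2048,11), (132,2080,5), (2048,16,4), (8,2048,11),
    (128,8,3), (16,128,7), (2048,16,4), (32,2048,11), (4096,32,5), (1024,4096,12),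
    (32,1024,10), (2048,32,5), (4096,2048,11), (4,4096,12), (8,4,2), (3,2320,4), (18,2308,2),
    (2050,1284,2), (257,6160,4), (258,1060,2), (64,8,3), (4,64,6), (66,1184,5), (64,4,2),
    (34,5248,7), (128,64,6), (32,128,7), (8,32,5), (256,8,3), (17,6272,7), (1,256,8),
    (544,272,4), (128,1,0), (2048,128,7), (1,2048,11), (16,1,0), (68,3328,8), (256,16,4),
    (2052,24,3), (16,256,8), (36,265,0), (2,4192,5), (4352,2240,6), (4096,2,1), (128,16,4),
    (2050,65,0), (2048,128,7), (272,224,5), (1026,97,0), (1,2048,11), (64,1,0), (257,1184,5),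
    (1024,64,6), (2048,1024,10), (384,104,3), (1024,2048,11), (2,9,0), (288,2120,3),
    (12,272,4), (256,2,1), (2048,256,8), (65,416,5), (10,336,4), (24,65,0), (8,1024,10),
    (96,1408,7), (1152,96,5), (129,304,4), (96,1152,7), (258,528,4), (1152,96,5), (256,8,3),
    (512,10,1), (18,76,2), (1,1040,4), (68,18,1), (64,1,0), (8,64,6), (128,8,3), (32,1032,3),
    (4,32,5), (1024,4,2), (2,33,0), (4,2,1), (32,4,2), (8,32,5), (64,8,3), (10,49,0),
    (32,10,1), (16,6,1)]

theorem run_moves : run moves ballL = some [15] := by decide +kernel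

theorem ball_isBall : IsBall 3 (gen ballL) :=
  isBall_gen moves (by decide +kernel) run_moves

theorem ball_pure : Pure 3 (gen ballL) := pure_gen (by decide +kernel)

theorem ball_not_isLC : ¬ IsLC 3 (gen ballL) :=
  not_isLC_gen (T := tabT) (P := tabP) (e := 3) (a := 267) (b := 1035) (c := 1283) (x := 267)
    (l₁ := [394, 2434, 2182, 2181, 2061, 269]) (l₂ := [1035, 1283])
    (by decide +kernel) (by decide +kernel) (by decide +kernel) (by decide +kernel)
    (by decide +kernel) (by decide +kernel) (by decide +kernel) (by decide +kernel)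
    (by decide +kernel)

theorem ball_vertices : ∀ m ∈ ballL, m < 2 ^ 12 := by decide +kernel

end Pool.Agent.Work.MP_9638d9_co
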