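import Mathlib

/-!
Definitions for the problem on non-evasive balls and local constructibility.
Complexes are finite abstract simplicial complexes, given by the finite set of their
nonempty faces.
-/

namespace Pool.Agent.Work.MP_9638d9_co

open Finset

universe u

variable {V : Type u} [DecidableEq V]

/-- `C` is a finite simplicial complex, given by its nonempty faces: every face is nonempty and
every nonempty subset of a face is a face. -/
def IsComplex (C : Finset (Finset V)) : Prop :=
  (∀ σ ∈ C, σ.Nonempty) ∧ ∀ σ ∈ C, ∀ τ : Finset V, τ ⊆ σ → τ.Nonempty → τ ∈ C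

/-- The geometric realization of `C`: all systems of barycentric coordinates (nonnegative, with
sum one) supported on a face of `C`, as a subspace of the product space `V → ℝ`. -/
def Realization (C : Finset (Finset V)) : Set (V → ℝ) :=
  {x | (∀ v, 0 ≤ x v) ∧ ∃ σ ∈ C, (∀ v, v ∉ σ → x v = 0) ∧ ∑ v ∈ σ, x v = 1}

/-- `C` is a simplicial `d`-ball: a simplicial complex whose geometric realization is
homeomorphic to the closed unit ball of Euclidean `d`-space. -/
def IsBall (d : ℕ) (C : Finset (Finset V)) : Prop :=
  IsComplex C ∧
    Nonempty (Realization C ≃ₜ
      (Metric.closedBall (0 : EuclideanSpace ℝ (Fin d)) 1 : Set (EuclideanSpace ℝ (Fin d))))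

/-- The link of the vertex `v`: all nonempty `σ` not containing `v` such that `σ ∪ {v}` is a
face. -/
def link (v : V) (C : Finset (Finset V)) : Finset (Finset V) :=
  C.filter (fun σ => v ∉ σ ∧ insert v σ ∈ C)

/-- The deletion of the vertex `v`: all faces not containing `v`. -/
def del (v : V) (C : Finset (Finset V)) : Finset (Finset V) :=
  C.filter (fun σ => v ∉ σ)

/-- Non-evasive complexes: a single vertex, or a complex having a vertex whose link and deletion
are both non-evasive. (The empty complex is not non-evasive, so the second clause only applies
to complexes with at least two vertices.) -/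
inductive NonEvasive : Finset (Finset V) → Prop
  | point (v : V) : NonEvasive {{v}}
  | step (C : Finset (Finset V)) (v : V) :
      {v} ∈ C → NonEvasive (link v C) → NonEvasive (del v C) → NonEvasive C

/-- The `d`-dimensional faces (with `d + 1` vertices). -/
def cells (d : ℕ) (C : Finset (Finset V)) : Finset (Finset V) :=
  C.filter (fun σ => σ.card = d + 1)

/-- `C` is pure `d`-dimensional: every face lies in a `d`-dimensional face, and no face has
larger dimension. -/
def Pure (d : ℕ) (C : Finset (Finset V)) : Prop :=
  (∀ ρ ∈ C, ∃ σ ∈ cells d C, ρ ⊆ σ)

/-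
A partially assembled complex is recorded by the set `S` of its `d`-simplices (each written with
the vertex labels of the final complex) and the set `E` of the pairs `(σ, τ)` of `d`-simplices
that have been glued along their common `(d-1)`-face `σ ∩ τ`.
-/

/-- `σ` and `τ` have been glued directly to each other. -/
def Joined (E : Finset (Finset V × Finset V)) (σ τ : Finset V) : Prop :=
  (σ, τ) ∈ E ∨ (τ, σ) ∈ E

/-- The copy of `ρ` in `σ` and the copy of `ρ` in `τ` are the same face of the partially
assembled complex: they are linked by a chain of direct gluings along faces containing `ρ`. -/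
inductive Same (E : Finset (Finset V × Finset V)) (ρ : Finset V) : Finset V → Finset V → Prop
  | refl (σ : Finset V) : Same E ρ σ σ
  | step (σ τ υ : Finset V) : Same E ρ σ τ → Joined E τ υ → ρ ⊆ τ ∩ υ → Same E ρ σ υ

/-- The face `F` of the `d`-simplex `σ` lies in the boundary: it has not been glued to another
`d`-simplex. -/
def OnBoundary (E : Finset (Finset V × Finset V)) (σ F : Finset V) : Prop :=
  ∀ τ, Joined E σ τ → σ ∩ τ ≠ F

/-- Trees of `d`-simplices: start from one `d`-simplex and repeatedly attach a new `d`-simplex
`τ` along exactly one `(d-1)`-face of the boundary. -/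
inductive Tree (d : ℕ) : Finset (Finset V) → Finset (Finset V × Finset V) → Prop
  | single (σ : Finset V) : σ.card = d + 1 → Tree d {σ} ∅
  | attach (S : Finset (Finset V)) (E : Finset (Finset V × Finset V)) (σ τ : Finset V) :
      Tree d S E → σ ∈ S → τ ∉ S → τ.card = d + 1 → (σ ∩ τ).card = d →
      OnBoundary E σ (σ ∩ τ) → Tree d (insert τ S) (insert (σ, τ) E)

/-- Complexes with set of `d`-simplices `S` obtained from a tree of `d`-simplices by local
gluings: two `(d-1)`-faces of the boundary (the copies of `σ ∩ τ` in `σ` and in `τ`) which share
a `(d-2)`-face `ρ` are identified. The intermediate complexes need not be simplicial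
complexes. -/
inductive Assembled (d : ℕ) (S : Finset (Finset V)) : Finset (Finset V × Finset V) → Prop
  | tree (E : Finset (Finset V × Finset V)) : Tree d S E → Assembled d S E
  | glue (E : Finset (Finset V × Finset V)) (σ τ ρ : Finset V) :
      Assembled d S E → σ ∈ S → τ ∈ S → (σ ∩ τ).card = d →
      OnBoundary E σ (σ ∩ τ) → OnBoundary E τ (σ ∩ τ) →
      ρ ⊆ σ ∩ τ → ρ.card + 1 = d → Same E ρ σ τ → Assembled d S (insert (σ, τ) E)

/-- `C` is a locally constructible (LC) pure `d`-dimensional complex: some sequence of local
gluings starting from a tree of `d`-simplices ends with the complex `C`, that is, at the end the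
copies of every face `ρ` of `C` in the various `d`-simplices containing it have become one
face. -/
def IsLC (d : ℕ) (C : Finset (Finset V)) : Prop :=
  Pure d C ∧ ∃ E, Assembled d (cells d C) E ∧
    ∀ σ ∈ cells d C, ∀ τ ∈ cells d C, ∀ ρ : Finset V, ρ ⊆ σ ∩ τ → ρ.Nonempty → Same E ρ σ τ

end Pool.Agent.Work.MP_9638d9_co
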