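import Pool.Agent.Work.MP_9638d9_co.TreeStage

namespace Pool.Agent.Work.MP_9638d9_co

open Finset

universe u
variable {V : Type u} [DecidableEq V]

open Classical in
/-- a nonempty set of remaining triangles with top vertex `v` has a free interior edge -/
theorem exists_leaf {C : Finset (Finset V)} (hM : Mfd C) {v : V}
    (R : Finset (Finset V)) (hR : R.Nonempty)
    (hR1 : ∀ F ∈ R, F ∈ cells 2 C ∧ v ∈ F)
    (hac : ∀ γ : Finset V → ZMod 2, (∀ F, γ F ≠ 0 → F ∈ R) →
      (∀ e ∈ cells 1 C, v ∈ e → IntEdge C e →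
        ∑ F ∈ (cells 2 C).filter (fun F => e ⊆ F), γ F = 0) → ∀ F, γ F = 0) :
    ∃ e ∈ cells 1 C, v ∈ e ∧ IntEdge C e ∧ (R.filter (fun F => e ⊆ F)).card = 1 := by
  by_contra hcon
  push Not at hcon
  obtain ⟨W, hW⟩ : ∃ W, W = (cells 1 C).filter
    (fun e => v ∈ e ∧ IntEdge C e ∧ ∃ F ∈ R, e ⊆ F) := ⟨_, rfl⟩
  have hWmem : ∀ e, e ∈ W ↔ e ∈ cells 1 C ∧ v ∈ e ∧ IntEdge C e ∧ ∃ F ∈ R, e ⊆ F := by
    intro e; rw [hW, mem_filter]
  have hW2 : ∀ e ∈ W, 2 ≤ (R.filter (fun F => e ⊆ F)).card := by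
    intro e he
    obtain ⟨h1, h2, h3, F, hF, heF⟩ := (hWmem e).mp he
    have h4 := hcon e h1 h2 h3
    have h5 : 0 < (R.filter (fun F => e ⊆ F)).card :=
      card_pos.mpr ⟨F, mem_filter.mpr ⟨hF, heF⟩⟩
    omega
  -- sums over the star of an edge
  have hsum : ∀ (γ : Finset V → ZMod 2), (∀ F, γ F ≠ 0 → F ∈ R) → ∀ e : Finset V,
      ∑ F ∈ (cells 2 C).filter (fun F => e ⊆ F), γ F =
        ∑ F ∈ R.filter (fun F => e ⊆ F), γ F := by
    intro γ hγ e
    symm
    apply sum_subset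
    · intro F hF
      rw [mem_filter] at hF ⊢
      exact ⟨(hR1 F hF.1).1, hF.2⟩
    · intro F hF hF'
      by_contra hne
      rw [mem_filter] at hF
      exact hF' (mem_filter.mpr ⟨hγ F hne, hF.2⟩)
  have hzero : ∀ (γ : Finset V → ZMod 2), (∀ F, γ F ≠ 0 → F ∈ R) →
      (∀ e ∈ W, ∑ F ∈ R.filter (fun F => e ⊆ F), γ F = 0) → ∀ F, γ F = 0 := by
    intro γ hγ hs
    apply hac γ hγ
    intro e he hve hI
    rw [hsum γ hγ e]
    by_cases heW : e ∈ W
    · exact hs e heW
    · apply sum_eq_zero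
      intro F hF
      rw [mem_filter] at hF
      exact absurd ((hWmem e).mpr ⟨he, hve, hI, F, hF⟩) heW
  -- |R| ≤ |W|
  have hle : R.card ≤ W.card := by
    let L : (R → ZMod 2) →ₗ[ZMod 2] (W → ZMod 2) :=
      Matrix.mulVecLin (fun (e : W) (F : R) => if e.1 ⊆ F.1 then (1 : ZMod 2) else 0)
    have hinj : Function.Injective L := by
      rw [← LinearMap.ker_eq_bot, LinearMap.ker_eq_bot']
      intro g hg
      have h1 := hzero (fun F => if h : F ∈ R then g ⟨F, h⟩ else 0) (by
        intro F hF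
        by_contra hcon
        rw [dif_neg hcon] at hF
        exact hF rfl) (by
        intro e he
        have h2 := congrFun hg ⟨e, he⟩
        rw [Pi.zero_apply] at h2
        rw [← h2]
        simp only [L, Matrix.mulVecLin_apply, Matrix.mulVec, dotProduct]
        rw [sum_filter, ← Finset.sum_coe_sort R]
        apply sum_congr rfl
        intro F _
        by_cases h3 : e ⊆ F.1
        · simp [h3]
        · simp [h3])
      funext ⟨F, hF⟩
      have h2 := h1 F
      rw [dif_pos hF] at h2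
      exact h2
    have := LinearMap.finrank_le_finrank_of_injective hinj
    rwa [Module.finrank_fintype_fun_eq_card, Module.finrank_fintype_fun_eq_card,
      Fintype.card_coe, Fintype.card_coe] at this
  have hdc : ∑ e ∈ W, (R.filter (fun F => e ⊆ F)).card =
      ∑ F ∈ R, (W.filter (fun e => e ⊆ F)).card :=
    sum_card_bipartiteAbove_eq_sum_card_bipartiteBelow (s := W) (t := R)
      (fun (e F : Finset V) => e ⊆ F)
  have hup : ∑ F ∈ R, (W.filter (fun e => e ⊆ F)).card ≤ R.card * 2 := by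
    rw [← smul_eq_mul, ← sum_const]
    apply sum_le_sum
    intro F hF
    obtain ⟨hF1, hvF⟩ := hR1 F hF
    have h1 := card_mid hM.cx (mem_cells.mp hF1).1 (singleton_subset_iff.mpr hvF)
      (card_singleton v)
    rw [(mem_cells.mp hF1).2] at h1
    have h2 : (W.filter (fun e => e ⊆ F)) ⊆
        (cells 1 C).filter (fun e => {v} ⊆ e ∧ e ⊆ F) := by
      intro e he
      rw [mem_filter] at he
      obtain ⟨h3, h4, -⟩ := (hWmem e).mp he.1
      exact mem_filter.mpr ⟨h3, singleton_subset_iff.mpr h4, he.2⟩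
    have h3 := card_le_card h2
    omega
  have heq : ∀ e ∈ W, (R.filter (fun F => e ⊆ F)).card = 2 := by
    by_contra hne
    push Not at hne
    obtain ⟨e₀, he₀, hne⟩ := hne
    have h1 : ∑ e ∈ W, 2 < ∑ e ∈ W, (R.filter (fun F => e ⊆ F)).card :=
      sum_lt_sum hW2 ⟨e₀, he₀, by have := hW2 e₀ he₀; omega⟩
    rw [sum_const, smul_eq_mul] at h1
    omega
  have h1 := hzero (fun F => if F ∈ R then 1 else 0) (by
    intro F hF
    by_contra hcon
    rw [if_neg hcon] at hF
    exact hF rfl) (by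
    intro e he
    have h2 : ∑ F ∈ R.filter (fun F => e ⊆ F), (if F ∈ R then (1 : ZMod 2) else 0) =
        ∑ F ∈ R.filter (fun F => e ⊆ F), (1 : ZMod 2) := by
      apply sum_congr rfl
      intro F hF
      rw [if_pos (mem_filter.mp hF).1]
    rw [h2, sum_const, heq e he]
    decide)
  obtain ⟨F, hF⟩ := hR
  have h2 := h1 F
  rw [if_pos hF] at h2
  exact absurd h2 (by decide)

open Classical in
/-- if all triangles at the interior edge `ρ` but `σ ∩ τ` have been glued, the two copies of `ρ`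
coincide -/
theorem same_of_glued {C : Finset (Finset V)} (hM : Mfd C)
    {E : Finset (Finset V × Finset V)} {ρ σ τ : Finset V} (hρ : ρ.card = 2)
    (hσ : σ ∈ cells 3 C) (hτ : τ ∈ cells 3 C) (hc : (σ ∩ τ).card = 3) (hρst : ρ ⊆ σ ∩ τ)
    (hg : ∀ F ∈ cells 2 C, ρ ⊆ F → F ≠ σ ∩ τ → ∃ a b, Joined E a b ∧ a ∈ cells 3 C ∧
      b ∈ cells 3 C ∧ (a ∩ b).card = 3 ∧ a ∩ b = F) : Same E ρ σ τ := by
  by_contra hcon
  obtain ⟨hF0, hd0, hne, hfil⟩ := hM.adj hσ hτ hc
  obtain ⟨A, hA⟩ : ∃ A, A = (cells 3 C).filter (fun t => ρ ⊆ t ∧ Same E ρ σ t) := ⟨_, rfl⟩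
  have hAm : ∀ t, t ∈ A ↔ t ∈ cells 3 C ∧ ρ ⊆ t ∧ Same E ρ σ t := by
    intro t; rw [hA, mem_filter]
  obtain ⟨B, hB⟩ : ∃ B, B = (cells 2 C).filter (fun F => ρ ⊆ F ∧ F ≠ σ ∩ τ) := ⟨_, rfl⟩
  have hBm : ∀ F, F ∈ B ↔ F ∈ cells 2 C ∧ ρ ⊆ F ∧ F ≠ σ ∩ τ := by
    intro t; rw [hB, mem_filter]
  have hdc : ∑ t ∈ A, (B.filter (fun F => F ⊆ t)).card =
      ∑ F ∈ B, (A.filter (fun t => F ⊆ t)).card :=
    sum_card_bipartiteAbove_eq_sum_card_bipartiteBelow (s := A) (t := B)
      (fun (t F : Finset V) => F ⊆ t)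
  have hσA : σ ∈ A := (hAm σ).mpr ⟨hσ, hρst.trans inter_subset_left, Same.refl σ⟩
  have hτA : τ ∉ A := fun h => hcon ((hAm τ).mp h).2.2
  have h1 : ∀ t ∈ A, (B.filter (fun F => F ⊆ t)).card = if t = σ then 1 else 2 := by
    intro t ht
    obtain ⟨ht1, ht2, -⟩ := (hAm t).mp ht
    have h2 := card_mid hM.cx (mem_cells.mp ht1).1 ht2 hρ
    rw [(mem_cells.mp ht1).2] at h2
    split_ifs with hts
    · subst hts
      have h3 : B.filter (fun F => F ⊆ t) =
          ((cells 2 C).filter (fun F => ρ ⊆ F ∧ F ⊆ t)).erase (t ∩ τ) := by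
        ext F
        rw [mem_filter, hBm, mem_erase, mem_filter]
        tauto
      rw [h3, card_erase_of_mem, h2]
      exact mem_filter.mpr ⟨hF0, hρst, inter_subset_left⟩
    · have h3 : B.filter (fun F => F ⊆ t) =
          (cells 2 C).filter (fun F => ρ ⊆ F ∧ F ⊆ t) := by
        ext F
        rw [mem_filter, hBm, mem_filter]
        constructor
        · rintro ⟨⟨a, b, -⟩, c⟩; exact ⟨a, b, c⟩
        · rintro ⟨a, b, c⟩
          refine ⟨⟨a, b, ?_⟩, c⟩
          rintro rfl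
          have : t ∈ (cells 3 C).filter (fun t => σ ∩ τ ⊆ t) := mem_filter.mpr ⟨ht1, c⟩
          rw [hfil, mem_insert, mem_singleton] at this
          rcases this with h | h
          · exact hts h
          · exact hτA (h ▸ ht)
      rw [h3, h2]
  have h2 : ∀ F ∈ B, Even (A.filter (fun t => F ⊆ t)).card := by
    intro F hF
    obtain ⟨hF1, hF2, hF3⟩ := (hBm F).mp hF
    obtain ⟨a, b, hj, ha, hb, hab, rfl⟩ := hg F hF1 hF2 hF3
    obtain ⟨-, -, hab', hfil'⟩ := hM.adj ha hb hab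
    have haA : a ∈ A ↔ b ∈ A := by
      rw [hAm, hAm]
      constructor
      · rintro ⟨-, -, h⟩
        exact ⟨hb, hF2.trans inter_subset_right, Same.step _ a b h hj hF2⟩
      · rintro ⟨-, -, h⟩
        exact ⟨ha, hF2.trans inter_subset_left, Same.step _ b a h hj.symm
          (by rwa [inter_comm])⟩
    have h3 : A.filter (fun t => a ∩ b ⊆ t) = if a ∈ A then {a, b} else ∅ := by
      ext t
      rw [mem_filter]
      split_ifs with h
      · rw [← hfil', mem_filter]
        constructor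
        · rintro ⟨h1, h2⟩; exact ⟨((hAm t).mp h1).1, h2⟩
        · rintro ⟨h1, h2⟩
          refine ⟨?_, h2⟩
          have : t ∈ (cells 3 C).filter (fun t => a ∩ b ⊆ t) := mem_filter.mpr ⟨h1, h2⟩
          rw [hfil', mem_insert, mem_singleton] at this
          rcases this with rfl | rfl
          · exact h
          · exact haA.mp h
      · constructor
        · rintro ⟨h1, h2⟩
          exfalso
          have : t ∈ (cells 3 C).filter (fun t => a ∩ b ⊆ t) :=
            mem_filter.mpr ⟨((hAm t).mp h1).1, h2⟩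
          rw [hfil', mem_insert, mem_singleton] at this
          rcases this with rfl | rfl
          · exact h h1
          · exact h (haA.mpr h1)
        · intro h1; simp at h1
    rw [h3]
    split_ifs
    · rw [card_pair hab']; exact ⟨1, rfl⟩
    · simp
  have h3 : Even (∑ F ∈ B, (A.filter (fun t => F ⊆ t)).card) := Finset.even_sum _ h2
  rw [← hdc, sum_congr rfl h1, ← Finset.add_sum_erase A _ hσA, if_pos rfl] at h3
  have h4 : ∑ t ∈ A.erase σ, (if t = σ then 1 else 2) = (A.erase σ).card * 2 := by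
    rw [← smul_eq_mul, ← sum_const]
    apply sum_congr rfl
    intro t ht
    rw [if_neg (mem_erase.mp ht).1]
  rw [h4] at h3
  obtain ⟨k, hk⟩ := h3
  omega

open Classical in
/-- the interior triangles which have not been glued -/
noncomputable def unglued (C : Finset (Finset V)) (E : Finset (Finset V × Finset V)) :
    Finset (Finset V) :=
  (cells 2 C).filter (fun F => deg 3 C F = 2 ∧ ∀ σ τ, Joined E σ τ → σ ∩ τ ≠ F)

lemma mem_unglued {C : Finset (Finset V)} {E : Finset (Finset V × Finset V)} {F : Finset V} :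
    F ∈ unglued C E ↔ F ∈ cells 2 C ∧ deg 3 C F = 2 ∧ ∀ σ τ, Joined E σ τ → σ ∩ τ ≠ F := by
  classical
  unfold unglued
  exact mem_filter

theorem glue_all {C : Finset (Finset V)} (hM : Mfd C) {r : V → ℕ} (hr : GoodOrder C r)
    {E₀ : Finset (Finset V × Finset V)} {root : Finset V} {l : V}
    (hT : Tree 3 (cells 3 C) E₀) (hl : {l} ∈ C) (hlr : l ∈ root)
    (hroot : root ∈ cells 3 C)
    (hlmax : ∀ w, {w} ∈ C → r w ≤ r l) (hP : TreeProp r root (cells 3 C) E₀) :
    ∀ (k : ℕ) (E : Finset (Finset V × Finset V)), (unglued C E).card ≤ k →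
      Assembled 3 (cells 3 C) E → E₀ ⊆ E →
      ∃ E', Assembled 3 (cells 3 C) E' ∧ unglued C E' = ∅ := by
  intro k
  induction k with
  | zero =>
    intro E hk hA _
    exact ⟨E, hA, card_eq_zero.mp (by omega)⟩
  | succ k ih =>
    intro E hk hA hE
    by_cases hemp : unglued C E = ∅
    · exact ⟨E, hA, hemp⟩
    have hum : ∀ F, F ∈ unglued C E ↔ F ∈ cells 2 C ∧ deg 3 C F = 2 ∧
        ∀ σ τ, Joined E σ τ → σ ∩ τ ≠ F := fun F => mem_unglued
    obtain ⟨F₁, hF₁⟩ := nonempty_iff_ne_empty.mpr hemp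
    obtain ⟨u₁, hu₁⟩ := card_pos.mp (show 0 < F₁.card by
      rw [(mem_cells.mp ((hum F₁).mp hF₁).1).2]; norm_num)
    obtain ⟨v, hv, hvmax⟩ := exists_max_image ((unglued C E).biUnion id) r
      ⟨u₁, mem_biUnion.mpr ⟨_, hF₁, hu₁⟩⟩
    obtain ⟨F₂, hF₂, hvF₂⟩ := mem_biUnion.mp hv
    simp only [id] at hvF₂
    have hvC : {v} ∈ C := vertex_mem hM.cx (mem_cells.mp ((hum F₂).mp hF₂).1).1 hvF₂
    obtain ⟨e, he, hve, hI, hcard⟩ := exists_leaf hM (v := v)
      ((unglued C E).filter (fun F => v ∈ F)) ⟨F₂, mem_filter.mpr ⟨hF₂, hvF₂⟩⟩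
      (fun F hF => ⟨((hum F).mp (mem_filter.mp hF).1).1, (mem_filter.mp hF).2⟩)
      (fun γ hγ hγ2 => acyclic hM hr hT hl hlr hroot hlmax hP hvC γ (by
        intro F hF
        have h1 := mem_filter.mp (hγ F hF)
        obtain ⟨h2, h3, h4⟩ := (hum F).mp h1.1
        exact ⟨h2, h1.2, fun w hw => hvmax w (mem_biUnion.mpr ⟨F, h1.1, hw⟩), h3,
          fun σ τ hj => h4 σ τ (hj.mono hE)⟩) hγ2)
    obtain ⟨F₀, hF₀⟩ := card_eq_one.mp hcard
    have hF₀m : F₀ ∈ ((unglued C E).filter (fun F => v ∈ F)).filter (fun F => e ⊆ F) := by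
      rw [hF₀]; exact mem_singleton_self _
    rw [mem_filter, mem_filter] at hF₀m
    obtain ⟨⟨hF₀u, hvF₀⟩, heF₀⟩ := hF₀m
    obtain ⟨hF₀c, hF₀d, hF₀g⟩ := (hum F₀).mp hF₀u
    obtain ⟨σ, τ, hσ, hτ, hst, hcap, hfil⟩ := pair_of_deg_two hF₀c hF₀d
    have hc3 : (σ ∩ τ).card = 3 := by rw [← hcap]; exact (mem_cells.mp hF₀c).2
    have hsame : Same E e σ τ := by
      apply same_of_glued hM (mem_cells.mp he).2 hσ hτ hc3 (hcap ▸ heF₀)
      intro F hF heF hne
      by_contra hcon
      have hFu : F ∈ unglued C E := by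
        rw [hum]
        refine ⟨hF, hI F hF heF, fun a b hj heq => hcon ?_⟩
        obtain ⟨ha, hb, hab⟩ := assembled_adj hA a b hj
        exact ⟨a, b, hj, ha, hb, hab, heq⟩
      have : F ∈ ((unglued C E).filter (fun F => v ∈ F)).filter (fun F => e ⊆ F) := by
        rw [mem_filter, mem_filter]
        exact ⟨⟨hFu, heF hve⟩, heF⟩
      rw [hF₀, mem_singleton] at this
      exact hne (this.trans hcap)
    have hA' := Assembled.glue E σ τ e hA hσ hτ hc3 (fun υ hυ => hcap ▸ hF₀g σ υ hυ)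
      (fun υ hυ => hcap ▸ hF₀g τ υ hυ) (hcap ▸ heF₀) (by rw [(mem_cells.mp he).2]) hsame
    refine ih _ ?_ hA' (hE.trans (subset_insert _ _))
    have hlt : (unglued C (insert (σ, τ) E)).card < (unglued C E).card := by
      apply card_lt_card
      rw [ssubset_iff_of_subset]
      · refine ⟨F₀, hF₀u, fun h => ?_⟩
        rw [mem_unglued] at h
        exact h.2.2 σ τ (Or.inl (mem_insert_self _ _)) hcap.symm
      · intro F hF
        rw [mem_unglued] at hF
        rw [hum]
        exact ⟨hF.1, hF.2.1, fun a b hj => hF.2.2 a b (hj.mono (subset_insert _ _))⟩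
    omega

/-- a non-evasive triangulated 3-manifold is locally constructible -/
theorem isLC_of_nonEvasive {C : Finset (Finset V)} (hC : IsManifold3 C) (hN : NonEvasive C) :
    IsLC 3 C := by
  have hM := hC.mfd
  obtain ⟨r, hr⟩ := exists_goodOrder hN hM.cx
  obtain ⟨E₀, root, l, hT, hl, hlr, hroot, hlmax, hP⟩ :=
    exists_tree hM hr (nonEvasive_conn hN hM.cx).1
  obtain ⟨E, hA, hun⟩ := glue_all hM hr hT hl hlr hroot hlmax hP _ E₀ le_rfl
    (Assembled.tree _ hT) (Subset.refl _)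
  refine ⟨hM.pure, E, hA, fun σ hσ τ hτ ρ hρ hne => ?_⟩
  -- adjacent cells are joined
  have hj : ∀ a ∈ cells 3 C, ∀ b ∈ cells 3 C, (a ∩ b).card = 3 → Joined E a b := by
    intro a ha b hb hab
    obtain ⟨h1, h2, h3, h4⟩ := hM.adj ha hb hab
    by_contra hcon
    have : a ∩ b ∈ unglued C E := by
      rw [mem_unglued]
      refine ⟨h1, h2, fun s t hst heq => hcon ?_⟩
      obtain ⟨hs, ht, hst'⟩ := assembled_adj hA s t hst
      obtain ⟨-, -, h5, h6⟩ := hM.adj hs ht hst'
      rw [heq, h4] at h6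
      have hs' : s ∈ ({a, b} : Finset (Finset V)) := by rw [h6]; simp
      have ht' : t ∈ ({a, b} : Finset (Finset V)) := by rw [h6]; simp
      rw [mem_insert, mem_singleton] at hs' ht'
      rcases hs' with rfl | rfl <;> rcases ht' with rfl | rfl
      · exact absurd rfl h5
      · exact hst
      · exact hst.symm
      · exact absurd rfl h5
    rw [hun] at this
    simp at this
  have hchain : ChainConnected 3 C ρ → Same E ρ σ τ := by
    intro hcc
    have h1 := hcc σ hσ τ hτ (hρ.trans inter_subset_left) (hρ.trans inter_subset_right)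
    induction h1 with
    | refl => exact Same.refl σ
    | tail _ h ih =>
      obtain ⟨ha, hb, hab, hc⟩ := h
      exact Same.step _ _ _ (ih ha (hab.trans inter_subset_left |> fun h => by
        exact subset_inter (hρ.trans inter_subset_left) h)) (hj _ ha _ hb hc) hab
  by_cases hst : σ = τ
  · rw [hst]; exact Same.refl τ
  have hle : (σ ∩ τ).card ≤ 3 := by
    by_contra hcon
    push Not at hcon
    have h4 : σ ∩ τ = σ := Finset.eq_of_subset_of_card_le inter_subset_left (by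
      rw [(mem_cells.mp hσ).2]; omega)
    have h5 : σ ∩ τ = τ := Finset.eq_of_subset_of_card_le inter_subset_right (by
      rw [(mem_cells.mp hτ).2]; omega)
    exact hst (h4.symm.trans h5)
  have hρ3 := card_le_card hρ
  have hρC : ρ ∈ C := hM.cx.2 σ (mem_cells.mp hσ).1 ρ (hρ.trans inter_subset_left) hne
  have hpos := card_pos.mpr hne
  rcases (by omega : ρ.card = 1 ∨ ρ.card = 2 ∨ ρ.card = 3) with h | h | h
  · obtain ⟨x, rfl⟩ := card_eq_one.mp h
    exact hchain (hM.connV x hρC)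
  · obtain ⟨x, y, hxy, rfl⟩ := card_eq_two.mp h
    exact hchain (hM.connE x y hρC hxy)
  · exact Same.single (hj σ hσ τ hτ (by omega)) hρ

end Pool.Agent.Work.MP_9638d9_co
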