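import Pool.Agent.Work.MP_9638d9_co.Count

namespace Pool.Agent.Work.MP_9638d9_co

open Finset

universe u
variable {V : Type u} [DecidableEq V]

/-- exactness from an Euler count -/
theorem exact_of_euler {A B P : Type*} [Fintype A] [Fintype B] [Fintype P] [DecidableEq A]
    [DecidableEq B] [DecidableEq P] [Nonempty A]
    (m : Matrix B A (ZMod 2)) (n : Matrix P B (ZMod 2)) (hnm : n * m = 0)
    (hm : ∀ X : A → ZMod 2, m.mulVec X = 0 → ∀ a a', X a = X a')
    (hn : ∀ f : P → ZMod 2, n.transpose.mulVec f = 0 → f = 0)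
    (hc : Fintype.card A + Fintype.card P = Fintype.card B + 1) (γ : B → ZMod 2)
    (hγ : n.mulVec γ = 0) : ∃ X : A → ZMod 2, m.mulVec X = γ := by
  have hle : LinearMap.range m.mulVecLin ≤ LinearMap.ker n.mulVecLin := by
    rintro _ ⟨X, rfl⟩
    rw [LinearMap.mem_ker, Matrix.mulVecLin_apply, Matrix.mulVecLin_apply, Matrix.mulVec_mulVec,
      hnm, Matrix.zero_mulVec]
  have h1 : Module.finrank (ZMod 2) (LinearMap.ker m.mulVecLin) ≤ 1 := by
    have hs : LinearMap.ker m.mulVecLin ≤ Submodule.span (ZMod 2) {(fun _ => 1 : A → ZMod 2)} := by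
      intro X hX
      rw [LinearMap.mem_ker, Matrix.mulVecLin_apply] at hX
      have := hm X hX
      obtain ⟨a₀⟩ := ‹Nonempty A›
      rw [Submodule.mem_span_singleton]
      refine ⟨X a₀, ?_⟩
      funext a
      simp [this a a₀]
    refine (Submodule.finrank_mono hs).trans ?_
    exact (finrank_span_le_card _).trans (by simp)
  have h2 := LinearMap.finrank_range_add_finrank_ker m.mulVecLin
  have h3 := LinearMap.finrank_range_add_finrank_ker n.mulVecLin
  rw [Module.finrank_fintype_fun_eq_card] at h2 h3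
  have h4 : Module.finrank (ZMod 2) (LinearMap.range n.mulVecLin) = Fintype.card P := by
    change n.rank = _
    rw [← Matrix.rank_transpose]
    have hinj : LinearMap.ker n.transpose.mulVecLin = ⊥ := by
      rw [LinearMap.ker_eq_bot']
      intro f hf
      exact hn f (by rwa [Matrix.mulVecLin_apply] at hf)
    have h5 := LinearMap.finrank_range_add_finrank_ker n.transpose.mulVecLin
    rw [hinj, finrank_bot, add_zero, Module.finrank_fintype_fun_eq_card] at h5
    exact h5
  have heq : LinearMap.range m.mulVecLin = LinearMap.ker n.mulVecLin := by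
    apply Submodule.eq_of_le_of_finrank_le hle
    omega
  have hmem : γ ∈ LinearMap.ker n.mulVecLin := by
    rw [LinearMap.mem_ker, Matrix.mulVecLin_apply]; exact hγ
  rw [← heq] at hmem
  obtain ⟨X, hX⟩ := hmem
  exact ⟨X, by rw [← hX, Matrix.mulVecLin_apply]⟩

/-- for adjacent tetrahedra the common triangle has degree two and lies in no third one -/
lemma Mfd.adj {C : Finset (Finset V)} (hM : Mfd C) {σ τ : Finset V} (hσ : σ ∈ cells 3 C)
    (hτ : τ ∈ cells 3 C) (hc : (σ ∩ τ).card = 3) :
    σ ∩ τ ∈ cells 2 C ∧ deg 3 C (σ ∩ τ) = 2 ∧ σ ≠ τ ∧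
      (cells 3 C).filter (fun t => σ ∩ τ ⊆ t) = {σ, τ} := by
  have hne : σ ≠ τ := by
    intro h
    subst h
    rw [inter_self, (mem_cells.mp hσ).2] at hc
    omega
  have hF : σ ∩ τ ∈ cells 2 C := by
    rw [mem_cells]
    exact ⟨hM.cx.2 σ (mem_cells.mp hσ).1 _ inter_subset_left (card_pos.mp (by omega)), hc⟩
  have hsub : ({σ, τ} : Finset (Finset V)) ⊆ (cells 3 C).filter (fun t => σ ∩ τ ⊆ t) := by
    intro t ht
    rw [mem_insert, mem_singleton] at ht
    rw [mem_filter]
    rcases ht with rfl | rfl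
    · exact ⟨hσ, inter_subset_left⟩
    · exact ⟨hτ, inter_subset_right⟩
  have hle := hM.deg_le _ hF
  have heq : ({σ, τ} : Finset (Finset V)) = (cells 3 C).filter (fun t => σ ∩ τ ⊆ t) := by
    apply Finset.eq_of_subset_of_card_le hsub
    rw [card_pair hne]
    exact hle
  refine ⟨hF, ?_, hne, heq.symm⟩
  rw [deg, ← heq, card_pair hne]

open Classical in
/-- every relative mod 2 cycle in the star of a vertex bounds -/
theorem Mfd.bounds {C : Finset (Finset V)} (hM : Mfd C) {v : V} (hv : {v} ∈ C)
    (γ : Finset V → ZMod 2)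
    (hγ : ∀ e ∈ cells 1 C, v ∈ e → IntEdge C e →
      ∑ F ∈ (cells 2 C).filter (fun F => e ⊆ F), γ F = 0) :
    ∃ X : Finset V → ZMod 2, ∀ σ ∈ cells 3 C, ∀ τ ∈ cells 3 C, (σ ∩ τ).card = 3 → v ∈ σ ∩ τ →
      X σ + X τ = γ (σ ∩ τ) := by
  obtain ⟨t₀, ht₀, hvt₀⟩ := hM.pure {v} hv
  rw [singleton_subset_iff] at hvt₀
  -- the base vertex, and the counting
  obtain ⟨PS, x₀, hPS, hx₀v, hx₀, hx₀P, hcount⟩ : ∃ (PS : Finset (Finset V)) (x₀ : V),
      (∀ e ∈ PS, e ∈ cells 1 C ∧ v ∈ e ∧ IntEdge C e) ∧ x₀ ≠ v ∧ ({v, x₀} : Finset V) ∈ C ∧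
      ({v, x₀} : Finset V) ∉ PS ∧
      ((cells 3 C).filter (fun t => v ∈ t)).card + PS.card =
        ((cells 2 C).filter (fun F => v ∈ F ∧ deg 3 C F = 2)).card + 1 := by
    by_cases hbd : ∃ F ∈ cells 2 C, v ∈ F ∧ deg 3 C F = 1
    · have h1 := hM.euler_disc hv hbd
      obtain ⟨F, hF, hvF, hd⟩ := hbd
      obtain ⟨hFC, hFc⟩ := mem_cells.mp hF
      obtain ⟨x, hx⟩ := card_pos.mp (show 0 < (F.erase v).card by
        rw [card_erase_of_mem hvF, hFc]; norm_num)
      rw [mem_erase] at hx
      have hsub : ({v, x} : Finset V) ⊆ F := by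
        intro w hw
        rw [mem_insert, mem_singleton] at hw
        rcases hw with rfl | rfl
        · exact hvF
        · exact hx.2
      refine ⟨_, x, fun e he => ?_, hx.1, hM.cx.2 F hFC _ hsub (insert_nonempty _ _), ?_, h1⟩
      · rw [mem_filter] at he; exact ⟨he.1, he.2⟩
      · intro h
        rw [mem_filter] at h
        have := h.2.2 F hF hsub
        omega
    · have hcl : ∀ F ∈ cells 2 C, v ∈ F → deg 3 C F = 2 := by
        intro F hF hvF
        rcases hM.deg_cases hF with h | h
        · exact absurd ⟨F, hF, hvF, h⟩ hbd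
        · exact h
      have h1 := hM.euler_sphere hv hcl
      obtain ⟨x, hx⟩ := card_pos.mp (show 0 < (t₀.erase v).card by
        rw [card_erase_of_mem hvt₀, (mem_cells.mp ht₀).2]; norm_num)
      rw [mem_erase] at hx
      have hsub : ({v, x} : Finset V) ⊆ t₀ := by
        intro w hw
        rw [mem_insert, mem_singleton] at hw
        rcases hw with rfl | rfl
        · exact hvt₀
        · exact hx.2
      have heC : ({v, x} : Finset V) ∈ C :=
        hM.cx.2 t₀ (mem_cells.mp ht₀).1 _ hsub (insert_nonempty _ _)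
      have he1 : ({v, x} : Finset V) ∈ cells 1 C :=
        mem_cells.mpr ⟨heC, card_pair (Ne.symm hx.1)⟩
      have hmem : ({v, x} : Finset V) ∈
          (cells 1 C).filter (fun e => v ∈ e ∧ IntEdge C e) := by
        rw [mem_filter]
        exact ⟨he1, by simp, fun F hF heF => hcl F hF (heF (by simp))⟩
      refine ⟨((cells 1 C).filter (fun e => v ∈ e ∧ IntEdge C e)).erase {v, x}, x,
        fun e he => ?_, hx.1, heC, notMem_erase _ _, ?_⟩
      · have := mem_of_mem_erase he
        rw [mem_filter] at this; exact ⟨this.1, this.2⟩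
      · rw [card_erase_of_mem hmem]
        have := card_pos.mpr ⟨_, hmem⟩
        omega
  obtain ⟨AS, hAS⟩ : ∃ AS, AS = (cells 3 C).filter (fun t => v ∈ t) := ⟨_, rfl⟩
  obtain ⟨BS, hBS⟩ : ∃ BS, BS = (cells 2 C).filter (fun F => v ∈ F ∧ deg 3 C F = 2) := ⟨_, rfl⟩
  rw [← hAS, ← hBS] at hcount
  have ht₀A : t₀ ∈ AS := by rw [hAS, mem_filter]; exact ⟨ht₀, hvt₀⟩
  let m : Matrix BS AS (ZMod 2) := fun b a => if b.1 ⊆ a.1 then 1 else 0
  let n : Matrix PS BS (ZMod 2) := fun p b => if p.1 ⊆ b.1 then 1 else 0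
  have : Nonempty AS := ⟨⟨t₀, ht₀A⟩⟩
  -- chain connectivity of the star
  have hchain := hM.connV v hv
  have hAmem : ∀ t, t ∈ AS ↔ t ∈ cells 3 C ∧ v ∈ t := by
    intro t; rw [hAS, mem_filter]
  have hnm : n * m = 0 := by
    ext ⟨p, hp⟩ ⟨a, ha⟩
    rw [Matrix.mul_apply, Matrix.zero_apply]
    have hp' := hPS p hp
    rw [hAS, mem_filter] at ha
    have h1 : ∑ b : BS, n ⟨p, hp⟩ b * m b ⟨a, hAS ▸ mem_filter.mpr ha⟩ =
        ∑ b ∈ BS, (if p ⊆ b ∧ b ⊆ a then (1 : ZMod 2) else 0) := by
      rw [← Finset.sum_coe_sort BS]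
      apply sum_congr rfl
      intro b _
      simp only [n, m]
      by_cases h1 : p ⊆ b.1 <;> by_cases h2 : b.1 ⊆ a <;> simp [h1, h2]
    rw [h1, ← sum_filter, sum_const, nsmul_eq_mul, mul_one]
    by_cases hpa : p ⊆ a
    · have h2 : BS.filter (fun b => p ⊆ b ∧ b ⊆ a) =
          (cells 2 C).filter (fun b => p ⊆ b ∧ b ⊆ a) := by
        ext b
        rw [hBS, mem_filter, mem_filter, mem_filter]
        constructor
        · rintro ⟨⟨h1, -⟩, h2⟩; exact ⟨h1, h2⟩
        · rintro ⟨h1, h2⟩
          exact ⟨⟨h1, h2.1 hp'.2.1, hp'.2.2 b h1 h2.1⟩, h2⟩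
      rw [h2, card_mid hM.cx (mem_cells.mp ha.1).1 hpa (mem_cells.mp hp'.1).2,
        (mem_cells.mp ha.1).2]
      decide
    · have h2 : BS.filter (fun b => p ⊆ b ∧ b ⊆ a) = ∅ := by
        rw [filter_eq_empty_iff]
        rintro b _ ⟨h1, h2⟩
        exact hpa (h1.trans h2)
      rw [h2]; simp
  -- adjacent tetrahedra at v
  have hadjB : ∀ a b, a ∈ cells 3 C → b ∈ cells 3 C → {v} ⊆ a ∩ b → (a ∩ b).card = 3 →
      a ∩ b ∈ BS := by
    intro a b ha hb hvab hc
    obtain ⟨h1, h2, -, -⟩ := hM.adj ha hb hc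
    rw [hBS, mem_filter]
    exact ⟨h1, hvab (mem_singleton_self v), h2⟩
  have hmX : ∀ (X : AS → ZMod 2) (a b : Finset V) (ha : a ∈ cells 3 C) (hb : b ∈ cells 3 C)
      (hva : v ∈ a) (hvb : v ∈ b) (hc : (a ∩ b).card = 3),
      m.mulVec X ⟨a ∩ b, hadjB a b ha hb (by
        rw [singleton_subset_iff, mem_inter]; exact ⟨hva, hvb⟩) hc⟩ =
      X ⟨a, by rw [hAS, mem_filter]; exact ⟨ha, hva⟩⟩ +
        X ⟨b, by rw [hAS, mem_filter]; exact ⟨hb, hvb⟩⟩ := by
    intro X a b ha hb hva hvb hc
    obtain ⟨h1, h2, hne, h4⟩ := hM.adj ha hb hc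
    have haA : a ∈ AS := by rw [hAS, mem_filter]; exact ⟨ha, hva⟩
    have hbA : b ∈ AS := by rw [hAS, mem_filter]; exact ⟨hb, hvb⟩
    simp only [Matrix.mulVec, dotProduct, m]
    rw [show (∑ x : AS, (if a ∩ b ⊆ x.1 then (1 : ZMod 2) else 0) * X x) =
      ∑ x : AS, (if a ∩ b ⊆ x.1 then X x else 0) by
        apply sum_congr rfl; intro x _; split_ifs <;> simp]
    rw [← sum_filter]
    have h5 : (univ : Finset AS).filter (fun x => a ∩ b ⊆ x.1) = {⟨a, haA⟩, ⟨b, hbA⟩} := by
      ext x
      rw [mem_filter, mem_insert, mem_singleton]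
      constructor
      · rintro ⟨-, hx⟩
        have hxA := (hAmem x.1).mp x.2
        have : x.1 ∈ (cells 3 C).filter (fun t => a ∩ b ⊆ t) := mem_filter.mpr ⟨hxA.1, hx⟩
        rw [h4, mem_insert, mem_singleton] at this
        rcases this with h | h
        · exact Or.inl (Subtype.ext h)
        · exact Or.inr (Subtype.ext h)
      · rintro (rfl | rfl)
        · exact ⟨mem_univ _, inter_subset_left⟩
        · exact ⟨mem_univ _, inter_subset_right⟩
    rw [h5, sum_pair]
    intro h
    exact hne (congrArg Subtype.val h)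
  have z2 : ∀ x y : ZMod 2, x + y = 0 → x = y := by decide
  have hm : ∀ X : AS → ZMod 2, m.mulVec X = 0 → ∀ a a', X a = X a' := by
    intro X hX a a'
    by_contra hcon
    have haA := (hAmem a.1).mp a.2
    have haA' := (hAmem a'.1).mp a'.2
    obtain ⟨x, y, ⟨hx, hy, hxy, hc⟩, h1, h2⟩ := exists_step
      (S := fun t => ∃ h : t ∈ AS, X ⟨t, h⟩ = X a)
      (hchain a.1 haA.1 a'.1 haA'.1 (singleton_subset_iff.mpr haA.2)
        (singleton_subset_iff.mpr haA'.2)) ⟨a.2, rfl⟩ (by
          rintro ⟨h, h'⟩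
          exact hcon h'.symm)
    have hvxy := singleton_subset_iff.mp hxy
    rw [mem_inter] at hvxy
    have h3 := hmX X x y hx hy hvxy.1 hvxy.2 hc
    rw [hX] at h3
    obtain ⟨h4, h5⟩ := h1
    apply h2
    refine ⟨(hAmem y).mpr ⟨hy, hvxy.2⟩, ?_⟩
    rw [← h5]
    exact (z2 _ _ h3.symm).symm
  have hn : ∀ f : PS → ZMod 2, n.transpose.mulVec f = 0 → f = 0 := by
    intro f hf
    let g : V → ZMod 2 := fun x => if h : ({v, x} : Finset V) ∈ PS then f ⟨_, h⟩ else 0
    -- g is constant along triangles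
    have hg : ∀ x y, x ≠ v → y ≠ v → x ≠ y → ({v, x, y} : Finset V) ∈ C → g x = g y := by
      intro x y hxv hyv hxy hC3
      by_cases hP : ({v, x} : Finset V) ∈ PS ∨ ({v, y} : Finset V) ∈ PS
      · have hFc : ({v, x, y} : Finset V) ∈ cells 2 C := by
          rw [mem_cells]
          refine ⟨hC3, ?_⟩
          rw [card_insert_of_notMem, card_pair hxy]
          simp [hxv.symm, hyv.symm]
        have hFB : ({v, x, y} : Finset V) ∈ BS := by
          rw [hBS, mem_filter]
          refine ⟨hFc, by simp, ?_⟩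
          rcases hP with h | h
          · exact (hPS _ h).2.2 _ hFc (by
              intro w hw; rw [mem_insert, mem_singleton] at hw
              rcases hw with rfl | rfl <;> simp)
          · exact (hPS _ h).2.2 _ hFc (by
              intro w hw; rw [mem_insert, mem_singleton] at hw
              rcases hw with rfl | rfl <;> simp)
        have h1 := congrFun hf ⟨_, hFB⟩
        simp only [Matrix.mulVec, dotProduct, Matrix.transpose_apply, n, Pi.zero_apply] at h1
        rw [show (∑ p : PS, (if p.1 ⊆ ({v, x, y} : Finset V) then (1 : ZMod 2) else 0) * f p) =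
          ∑ p : PS, ((if p.1 = {v, x} then f p else 0) + (if p.1 = {v, y} then f p else 0)) by
            apply sum_congr rfl
            intro p _
            obtain ⟨p, hp⟩ := p
            have hp' := hPS p hp
            obtain ⟨hpC, hpc⟩ := mem_cells.mp hp'.1
            obtain ⟨z, hz⟩ := card_eq_one.mp (show (p.erase v).card = 1 by
              rw [card_erase_of_mem hp'.2.1, hpc])
            have hpz : p = {v, z} := by rw [← insert_erase hp'.2.1, hz]
            have hzv : z ≠ v := by
              have : z ∈ p.erase v := by rw [hz]; exact mem_singleton_self z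
              exact (mem_erase.mp this).1
            have hiff : ∀ w, w ≠ v → (p = {v, w} ↔ z = w) := by
              intro w hw
              rw [hpz]
              constructor
              · intro h
                have : z ∈ ({v, w} : Finset V) := by rw [← h]; simp
                rw [mem_insert, mem_singleton] at this
                exact this.resolve_left hzv
              · rintro rfl; rfl
            have hsubiff : p ⊆ {v, x, y} ↔ z = x ∨ z = y := by
              rw [hpz]
              constructor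
              · intro h
                have : z ∈ ({v, x, y} : Finset V) := h (by simp)
                simp only [mem_insert, mem_singleton] at this
                exact this.resolve_left hzv
              · intro h w hw
                rw [mem_insert, mem_singleton] at hw
                rcases hw with rfl | rfl
                · simp
                · rcases h with rfl | rfl <;> simp
            dsimp only
            by_cases h1 : z = x
            · have h2 : ¬ z = y := fun h => hxy (h1.symm.trans h)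
              rw [if_pos (hsubiff.mpr (Or.inl h1)), if_pos ((hiff x hxv).mpr h1),
                if_neg (fun h => h2 ((hiff y hyv).mp h))]
              ring
            · by_cases h2 : z = y
              · rw [if_pos (hsubiff.mpr (Or.inr h2)), if_neg (fun h => h1 ((hiff x hxv).mp h)),
                  if_pos ((hiff y hyv).mpr h2)]
                ring
              · rw [if_neg (fun h => (hsubiff.mp h).elim h1 h2),
                  if_neg (fun h => h1 ((hiff x hxv).mp h)),
                  if_neg (fun h => h2 ((hiff y hyv).mp h))]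
                ring] at h1
        rw [sum_add_distrib] at h1
        have hgx : ∀ w, (∑ p : PS, (if p.1 = {v, w} then f p else 0)) = g w := by
          intro w
          simp only [g]
          split_ifs with hw
          · rw [sum_eq_single (⟨{v, w}, hw⟩ : PS)]
            · simp
            · intro b _ hb
              rw [if_neg]
              intro h
              exact hb (Subtype.ext h)
            · intro h; exact absurd (mem_univ _) h
          · apply sum_eq_zero
            intro p _
            rw [if_neg]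
            intro h
            exact hw (h ▸ p.2)
        rw [hgx, hgx] at h1
        exact z2 _ _ h1
      · rw [not_or] at hP
        simp only [g]
        rw [dif_neg hP.1, dif_neg hP.2]
    -- g vanishes on all vertices of the star
    have hgt : ∀ t ∈ cells 3 C, v ∈ t → ∀ x ∈ t, ∀ y ∈ t, x ≠ v → y ≠ v → g x = g y := by
      intro t ht hvt x hx y hy hxv hyv
      by_cases hxy : x = y
      · rw [hxy]
      · apply hg x y hxv hyv hxy
        refine hM.cx.2 t (mem_cells.mp ht).1 _ ?_ (insert_nonempty _ _)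
        intro w hw
        simp only [mem_insert, mem_singleton] at hw
        rcases hw with rfl | rfl | rfl
        · exact hvt
        · exact hx
        · exact hy
    have hg0 : g x₀ = 0 := by
      simp only [g]
      rw [dif_neg hx₀P]
    obtain ⟨t₁, ht₁, hs₁⟩ := hM.pure _ hx₀
    have hvt₁ : v ∈ t₁ := hs₁ (by simp)
    have hxt₁ : x₀ ∈ t₁ := hs₁ (by simp)
    have hall : ∀ t ∈ cells 3 C, v ∈ t → ∀ x ∈ t, x ≠ v → g x = 0 := by
      intro t ht hvt
      by_contra hcon
      obtain ⟨a, b, ⟨ha, hb, hab, hc⟩, h1, h2⟩ := exists_step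
        (S := fun t => ∀ x ∈ t, x ≠ v → g x = 0)
        (hchain t₁ ht₁ t ht (singleton_subset_iff.mpr hvt₁) (singleton_subset_iff.mpr hvt))
        (fun x hx hxv => by rw [hgt t₁ ht₁ hvt₁ x hx x₀ hxt₁ hxv hx₀v, hg0]) hcon
      apply h2
      intro x hx hxv
      have hvab := singleton_subset_iff.mp hab
      obtain ⟨y, hy⟩ := card_pos.mp (show 0 < ((a ∩ b).erase v).card by
        rw [card_erase_of_mem hvab, hc]; norm_num)
      rw [mem_erase, mem_inter] at hy
      rw [hgt b hb (mem_inter.mp hvab).2 x hx y hy.2.2 hxv hy.1]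
      exact h1 y hy.2.1 hy.1
    funext ⟨p, hp⟩
    have hp' := hPS p hp
    obtain ⟨hpC, hpc⟩ := mem_cells.mp hp'.1
    obtain ⟨z, hz⟩ := card_eq_one.mp (show (p.erase v).card = 1 by
      rw [card_erase_of_mem hp'.2.1, hpc])
    have hpz : p = {v, z} := by rw [← insert_erase hp'.2.1, hz]
    have hzp : z ∈ p.erase v := by rw [hz]; exact mem_singleton_self z
    rw [mem_erase] at hzp
    obtain ⟨t, ht, hs⟩ := hM.pure p hpC
    have h1 := hall t ht (hs hp'.2.1) z (hs hzp.2) hzp.1
    simp only [g] at h1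
    rw [dif_pos (hpz ▸ hp)] at h1
    rw [Pi.zero_apply, ← h1]
    congr 1
    exact Subtype.ext hpz
  have hc : Fintype.card AS + Fintype.card PS = Fintype.card BS + 1 := by
    rw [Fintype.card_coe, Fintype.card_coe, Fintype.card_coe]; exact hcount
  obtain ⟨X, hX⟩ := exact_of_euler m n hnm hm hn hc (fun b => γ b.1) (by
    funext ⟨p, hp⟩
    have hp' := hPS p hp
    rw [Pi.zero_apply, ← hγ p hp'.1 hp'.2.1 hp'.2.2]
    simp only [Matrix.mulVec, dotProduct, n]
    rw [show (∑ b : BS, (if p ⊆ b.1 then (1 : ZMod 2) else 0) * γ b.1) =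
      ∑ b : BS, (if p ⊆ b.1 then γ b.1 else 0) by
        apply sum_congr rfl; intro x _; split_ifs <;> simp]
    rw [Finset.sum_coe_sort BS (fun b => if p ⊆ b then γ b else 0), ← sum_filter]
    apply sum_congr _ (fun _ _ => rfl)
    ext F
    rw [hBS, mem_filter, mem_filter, mem_filter]
    constructor
    · rintro ⟨⟨h1, -⟩, h2⟩; exact ⟨h1, h2⟩
    · rintro ⟨h1, h2⟩; exact ⟨⟨h1, h2 hp'.2.1, hp'.2.2 F h1 h2⟩, h2⟩)
  refine ⟨fun t => if h : t ∈ AS then X ⟨t, h⟩ else 0, fun σ hσ τ hτ hc hvστ => ?_⟩
  rw [mem_inter] at hvστ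
  have haA : σ ∈ AS := by rw [hAS, mem_filter]; exact ⟨hσ, hvστ.1⟩
  have hbA : τ ∈ AS := by rw [hAS, mem_filter]; exact ⟨hτ, hvστ.2⟩
  dsimp only
  rw [dif_pos haA, dif_pos hbA, ← hmX X σ τ hσ hτ hvστ.1 hvστ.2 hc, hX]

end Pool.Agent.Work.MP_9638d9_co
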