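import Pool.Agent.Work.MP_9638d9_co.Defs

/-!
Definitions of triangulated 2-spheres, 2-discs and 3-manifolds.
-/

namespace Pool.Agent.Work.MP_9638d9_co

open Finset

universe u

variable {V : Type u} [DecidableEq V]

/-- Any two `d`-cells containing `ρ` are joined by a chain of `d`-cells containing `ρ`,
consecutive ones meeting in a `(d-1)`-face that contains `ρ`. -/
def ChainConnected (d : ℕ) (C : Finset (Finset V)) (ρ : Finset V) : Prop :=
  ∀ σ ∈ cells d C, ∀ τ ∈ cells d C, ρ ⊆ σ → ρ ⊆ τ →
    Relation.ReflTransGen
      (fun a b => a ∈ cells d C ∧ b ∈ cells d C ∧ ρ ⊆ a ∩ b ∧ (a ∩ b).card = d) σ τ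

/-- The number of `d`-cells containing the face `F`. -/
def deg (d : ℕ) (C : Finset (Finset V)) (F : Finset V) : ℕ :=
  ((cells d C).filter (fun t => F ⊆ t)).card

/-- `D` triangulates a connected compact surface, possibly with boundary: `D` is a pure
2-dimensional complex, every edge is in at most two triangles, any two triangles are joined by a
chain of triangles sharing edges, and the same holds for the triangles at any given vertex (so the
link of a vertex is a path or a cycle). -/
def IsSurface (D : Finset (Finset V)) : Prop :=
  IsComplex D ∧ Pure 2 D ∧ (∀ e ∈ cells 1 D, deg 2 D e ≤ 2) ∧ ChainConnected 2 D ∅ ∧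
    ∀ x, {x} ∈ D → ChainConnected 2 D {x}

/-- The Euler characteristic of a complex of dimension at most 2. -/
def euler (D : Finset (Finset V)) : ℤ :=
  (cells 0 D).card - (cells 1 D).card + (cells 2 D).card

/-- `D` triangulates the 2-sphere: a connected closed surface with Euler characteristic 2. -/
def IsSphere (D : Finset (Finset V)) : Prop :=
  IsSurface D ∧ (∀ e ∈ cells 1 D, deg 2 D e = 2) ∧ euler D = 2

/-- `D` triangulates the 2-disc: a connected surface with nonempty boundary (some edge lies in
only one triangle) and Euler characteristic 1. -/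
def IsDisc (D : Finset (Finset V)) : Prop :=
  IsSurface D ∧ (∃ e ∈ cells 1 D, deg 2 D e = 1) ∧ euler D = 1

/-- `C` triangulates a compact 3-manifold, possibly with boundary: `C` is a pure 3-dimensional
complex in which the link of every vertex is a 2-sphere or a 2-disc. -/
def IsManifold3 (C : Finset (Finset V)) : Prop :=
  IsComplex C ∧ Pure 3 C ∧ ∀ v, {v} ∈ C → IsSphere (link v C) ∨ IsDisc (link v C)

end Pool.Agent.Work.MP_9638d9_co
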