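import Pool.Agent.Work.MP_9638d9_co.Defs

namespace Pool.Agent.Work.MP_9638d9_co

open Finset

universe u
variable {V : Type u} [DecidableEq V]

/-- realization of a family of (closed) simplices -/
def Real (P : Set (Finset V)) : Set (V → ℝ) :=
  {x | (∀ v, 0 ≤ x v) ∧ ∃ σ ∈ P, (∀ v, v ∉ σ → x v = 0) ∧ ∑ v ∈ σ, x v = 1}

/-- the stellar subdivision of a family of simplices at `σ` with new vertex `b` -/
def St (P : Set (Finset V)) (σ : Finset V) (b : V) : Set (Finset V) :=
  {f | (f ∈ P ∧ ¬ σ ⊆ f) ∨ ∃ f' ∈ P, σ ⊆ f' ∧ ∃ s ∈ σ, f = insert b (f'.erase s)}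

/-- the map from the subdivision -/
noncomputable def bump (σ : Finset V) (b : V) (x : V → ℝ) : V → ℝ :=
  fun v => if v = b then 0 else x v + (if v ∈ σ then x b / σ.card else 0)

noncomputable def mn (σ : Finset V) (hσ : σ.Nonempty) (y : V → ℝ) : ℝ := σ.inf' hσ y

/-- the inverse map -/
noncomputable def unbump (σ : Finset V) (hσ : σ.Nonempty) (b : V) (y : V → ℝ) : V → ℝ :=
  fun v => if v = b then σ.card * mn σ hσ y else y v - (if v ∈ σ then mn σ hσ y else 0)

omit [DecidableEq V] in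
lemma mn_le {σ : Finset V} (hσ : σ.Nonempty) (y : V → ℝ) {v : V} (hv : v ∈ σ) :
    mn σ hσ y ≤ y v := Finset.inf'_le _ hv

omit [DecidableEq V] in
lemma exists_mn {σ : Finset V} (hσ : σ.Nonempty) (y : V → ℝ) : ∃ s ∈ σ, mn σ hσ y = y s := by
  obtain ⟨s, hs, h⟩ := Finset.exists_mem_eq_inf' hσ y
  exact ⟨s, hs, h⟩

omit [DecidableEq V] in
lemma mn_nonneg {σ : Finset V} (hσ : σ.Nonempty) (y : V → ℝ) (hy : ∀ v, 0 ≤ y v) :
    0 ≤ mn σ hσ y := by
  obtain ⟨s, _, h⟩ := exists_mn hσ y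
  rw [h]; exact hy s

omit [DecidableEq V] in
lemma mn_eq_zero {σ : Finset V} (hσ : σ.Nonempty) (y : V → ℝ) (hy : ∀ v, 0 ≤ y v) {s : V}
    (hs : s ∈ σ) (h : y s = 0) : mn σ hσ y = 0 :=
  le_antisymm (h ▸ mn_le hσ y hs) (mn_nonneg hσ y hy)

omit [DecidableEq V] in
lemma continuous_mn {σ : Finset V} (hσ : σ.Nonempty) : Continuous (mn σ hσ) := by
  unfold mn
  have : (fun y : V → ℝ => σ.inf' hσ y) = fun y => σ.inf' hσ (fun v => y v) := rfl
  exact Continuous.finset_inf'_apply hσ (fun i _ => continuous_apply i)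

lemma continuous_bump (σ : Finset V) (b : V) : Continuous (bump σ b) := by
  refine continuous_pi fun v => ?_
  unfold bump
  by_cases hv : v = b
  · simp [hv, continuous_const]
  · by_cases hs : v ∈ σ
    · simp only [hv, if_false, hs, if_true]
      exact (continuous_apply v).add ((continuous_apply b).div_const _)
    · simp only [hv, if_false, hs, add_zero]
      exact continuous_apply v

lemma continuous_unbump (σ : Finset V) (hσ : σ.Nonempty) (b : V) :
    Continuous (unbump σ hσ b) := by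
  refine continuous_pi fun v => ?_
  unfold unbump
  by_cases hv : v = b
  · simp only [hv, if_true]
    exact continuous_const.mul (continuous_mn hσ)
  · by_cases hs : v ∈ σ
    · simp only [hv, if_false, hs, if_true]
      exact (continuous_apply v).sub (continuous_mn hσ)
    · simp only [hv, if_false, hs, sub_zero]
      exact continuous_apply v

lemma unbump_zero {σ : Finset V} (hσ : σ.Nonempty) {b : V} {y : V → ℝ}
    (h : mn σ hσ y = 0) (hb : y b = 0) : unbump σ hσ b y = y := by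
  funext v
  unfold unbump
  rw [h]
  by_cases hv : v = b
  · subst hv; simp [hb]
  · simp [hv]

lemma bump_zero {σ : Finset V} {b : V} {x : V → ℝ} (hb : x b = 0) : bump σ b x = x := by
  funext v
  unfold bump
  rw [hb]
  by_cases hv : v = b
  · subst hv; simp [hb]
  · simp [hv]

lemma bump_mem {P : Set (Finset V)} {σ : Finset V} (hσ : σ.Nonempty) {b : V} (hbσ : b ∉ σ)
    (hbP : ∀ f ∈ P, b ∉ f) {x : V → ℝ} (hx : x ∈ Real (St P σ b)) : bump σ b x ∈ Real P := by
  obtain ⟨h0, f, hf, hs, hsum⟩ := hx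
  rcases hf with ⟨hfP, hfσ⟩ | ⟨f', hf', hσf', s, hsσ, rfl⟩
  · have hxb : x b = 0 := hs b (hbP f hfP)
    rw [bump_zero hxb]
    exact ⟨h0, f, hfP, hs, hsum⟩
  · have hbf' : b ∉ f' := hbP f' hf'
    have hsf' : s ∈ f' := hσf' hsσ
    have hsb : s ≠ b := fun h => hbσ (h ▸ hsσ)
    have hxs : x s = 0 := hs s (by simp [hsb])
    refine ⟨fun v => ?_, f', hf', fun v hv => ?_, ?_⟩
    · unfold bump
      split_ifs
      · exact le_rfl
      · have := h0 v; have := h0 b; positivity
      · simpa using h0 v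
    · unfold bump
      split_ifs with h1 h2
      · rfl
      · exact absurd (hσf' h2) hv
      · rw [add_zero]
        apply hs
        simp only [mem_insert, mem_erase, not_or, not_and]
        exact ⟨h1, fun _ => hv⟩
    · have e1 : ∑ v ∈ f', bump σ b x v = ∑ v ∈ f', (x v + (if v ∈ σ then x b / σ.card else 0)) := by
        apply Finset.sum_congr rfl
        intro v hv
        have : v ≠ b := fun h => hbf' (h ▸ hv)
        simp [bump, this]
      rw [e1, Finset.sum_add_distrib, Finset.sum_ite_mem, Finset.inter_eq_right.mpr hσf',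
        Finset.sum_const, nsmul_eq_mul]
      rw [Finset.sum_insert (by simp [hbf'])] at hsum
      have e2 : ∑ v ∈ f', x v = x s + ∑ v ∈ f'.erase s, x v :=
        (Finset.add_sum_erase f' x hsf').symm
      have hc : (σ.card : ℝ) ≠ 0 := by
        have := hσ.card_pos
        positivity
      rw [e2, hxs, mul_div_cancel₀ _ hc]
      linarith

lemma unbump_mem {P : Set (Finset V)} {σ : Finset V} (hσ : σ.Nonempty) {b : V} (hbσ : b ∉ σ)
    (hbP : ∀ f ∈ P, b ∉ f) {y : V → ℝ} (hy : y ∈ Real P) :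
    unbump σ hσ b y ∈ Real (St P σ b) := by
  obtain ⟨h0, f, hf, hs, hsum⟩ := hy
  have hyb : y b = 0 := hs b (hbP f hf)
  by_cases hσf : σ ⊆ f
  · obtain ⟨s, hsσ, hms⟩ := exists_mn hσ y
    have hsf := hσf hsσ
    have hbf := hbP f hf
    have hsb : s ≠ b := fun h => hbσ (h ▸ hsσ)
    refine ⟨fun v => ?_, insert b (f.erase s), Or.inr ⟨f, hf, hσf, s, hsσ, rfl⟩,
      fun v hv => ?_, ?_⟩
    · unfold unbump
      split_ifs with h1 h2
      · have := mn_nonneg hσ y h0; positivity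
      · have := mn_le hσ y h2; linarith
      · simpa using h0 v
    · simp only [mem_insert, mem_erase, not_or, not_and] at hv
      unfold unbump
      rw [if_neg hv.1]
      by_cases hvs : v = s
      · subst hvs; simp [hsσ, hms]
      · have hvf := hv.2 hvs
        have hvσ : v ∉ σ := fun h => hvf (hσf h)
        simp [hvσ, hs v hvf]
    · rw [Finset.sum_insert (by simp [hbf])]
      have e1 : ∑ v ∈ f.erase s, unbump σ hσ b y v =
          ∑ v ∈ f.erase s, (y v - (if v ∈ σ then mn σ hσ y else 0)) := by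
        apply Finset.sum_congr rfl
        intro v hv
        have : v ≠ b := fun h => hbf (h ▸ (Finset.mem_erase.mp hv).2)
        simp [unbump, this]
      rw [e1]
      have e3 : ∑ v ∈ f, (y v - (if v ∈ σ then mn σ hσ y else 0)) =
          (y s - (if s ∈ σ then mn σ hσ y else 0)) +
            ∑ v ∈ f.erase s, (y v - (if v ∈ σ then mn σ hσ y else 0)) :=
        (Finset.add_sum_erase f _ hsf).symm
      have e4 : ∑ v ∈ f, (y v - (if v ∈ σ then mn σ hσ y else 0)) = 1 - σ.card * mn σ hσ y := by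
        rw [Finset.sum_sub_distrib, hsum, Finset.sum_ite_mem, Finset.inter_eq_right.mpr hσf,
          Finset.sum_const, nsmul_eq_mul]
      rw [if_pos hsσ, hms, sub_self, zero_add] at e3
      rw [hms] at e4
      have e5 : unbump σ hσ b y b = σ.card * mn σ hσ y := by simp [unbump]
      rw [e5, hms]
      rw [e3] at e4
      rw [e4]; ring
  · obtain ⟨s, hsσ, hsf⟩ := Finset.not_subset.mp hσf
    rw [unbump_zero hσ (mn_eq_zero hσ y h0 hsσ (hs s hsf)) hyb]
    exact ⟨h0, f, Or.inl ⟨hf, hσf⟩, hs, hsum⟩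

lemma bump_unbump {P : Set (Finset V)} {σ : Finset V} (hσ : σ.Nonempty) {b : V} (hbσ : b ∉ σ)
    (hbP : ∀ f ∈ P, b ∉ f) {y : V → ℝ} (hy : y ∈ Real P) :
    bump σ b (unbump σ hσ b y) = y := by
  obtain ⟨h0, f, hf, hs, hsum⟩ := hy
  have hyb : y b = 0 := hs b (hbP f hf)
  have hc : (σ.card : ℝ) ≠ 0 := by
    have := hσ.card_pos
    positivity
  funext v
  unfold bump unbump
  by_cases hv : v = b
  · simp [hv, hyb]
  · by_cases hvσ : v ∈ σ
    · simp only [hv, if_false, hvσ, if_true]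
      rw [mul_div_cancel_left₀ _ hc]; ring
    · simp [hv, hvσ]

lemma unbump_bump {P : Set (Finset V)} {σ : Finset V} (hσ : σ.Nonempty) {b : V} (hbσ : b ∉ σ)
    (hbP : ∀ f ∈ P, b ∉ f) {x : V → ℝ} (hx : x ∈ Real (St P σ b)) :
    unbump σ hσ b (bump σ b x) = x := by
  have hy := bump_mem hσ hbσ hbP hx
  have hc : (σ.card : ℝ) ≠ 0 := by
    have := hσ.card_pos
    positivity
  obtain ⟨h0, f, hf, hs, hsum⟩ := hx
  rcases hf with ⟨hfP, hfσ⟩ | ⟨f', hf', hσf', s, hsσ, rfl⟩
  · have hxb : x b = 0 := hs b (hbP f hfP)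
    rw [bump_zero hxb]
    obtain ⟨s, hsσ, hsf⟩ := Finset.not_subset.mp hfσ
    exact unbump_zero hσ (mn_eq_zero hσ x h0 hsσ (hs s hsf)) hxb
  · have hbf' : b ∉ f' := hbP f' hf'
    have hsb : s ≠ b := fun h => hbσ (h ▸ hsσ)
    have hxs : x s = 0 := hs s (by simp [hsb])
    have hbv : ∀ v ∈ σ, bump σ b x v = x v + x b / σ.card := by
      intro v hv
      have : v ≠ b := fun h => hbσ (h ▸ hv)
      simp [bump, this, hv]
    have hm : mn σ hσ (bump σ b x) = x b / σ.card := by
      apply le_antisymm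
      · have := mn_le hσ (bump σ b x) hsσ
        rwa [hbv s hsσ, hxs, zero_add] at this
      · obtain ⟨t, htσ, ht⟩ := exists_mn hσ (bump σ b x)
        rw [ht, hbv t htσ]
        have := h0 t; linarith
    funext v
    unfold unbump
    rw [hm]
    by_cases hv : v = b
    · subst hv
      simp only [if_true]
      rw [mul_div_cancel₀ _ hc]
    · by_cases hvσ : v ∈ σ
      · simp only [hv, if_false, hvσ, if_true]
        rw [hbv v hvσ]; ring
      · simp [hv, hvσ, bump]

/-- a family and its stellar subdivision have homeomorphic realizations -/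
theorem stellar_homeo (P : Set (Finset V)) (σ : Finset V) (hσ : σ.Nonempty) (b : V)
    (hbσ : b ∉ σ) (hbP : ∀ f ∈ P, b ∉ f) : Nonempty (Real (St P σ b) ≃ₜ Real P) := by
  refine ⟨⟨⟨fun x => ⟨bump σ b x.1, bump_mem hσ hbσ hbP x.2⟩,
    fun y => ⟨unbump σ hσ b y.1, unbump_mem hσ hbσ hbP y.2⟩, fun x => ?_, fun y => ?_⟩, ?_, ?_⟩⟩
  · exact Subtype.ext (unbump_bump hσ hbσ hbP x.2)
  · exact Subtype.ext (bump_unbump hσ hbσ hbP y.2)
  · exact ((continuous_bump σ b).comp continuous_subtype_val).subtype_mk _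
  · exact ((continuous_unbump σ hσ b).comp continuous_subtype_val).subtype_mk _

/-- the family after a flip -/
def Flip (P : Set (Finset V)) (σ τ : Finset V) : Set (Finset V) :=
  {f | (f ∈ P ∧ ¬ σ ⊆ f) ∨ ∃ f' ∈ P, σ ⊆ f' ∧ ∃ s ∈ σ, f = (f' ∪ τ).erase s}

/-- generalized bistellar flips preserve the realization up to homeomorphism -/
theorem flip_homeo (P : Set (Finset V)) (σ τ : Finset V) (b : V) (hσ : σ.Nonempty)
    (hτ : τ.Nonempty) (hd : Disjoint σ τ) (hbσ : b ∉ σ) (hbτ : b ∉ τ) (hbP : ∀ f ∈ P, b ∉ f)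
    (h1 : ∀ f ∈ P, ¬ τ ⊆ f)
    (h2 : ∀ f ∈ P, σ ⊆ f → ∃ y ∈ τ, y ∉ f ∧ τ.erase y ⊆ f)
    (h3 : ∀ f ∈ P, σ ⊆ f → ∀ y ∈ τ, (f ∪ τ).erase y ∈ P) :
    Nonempty (Real P ≃ₜ Real (Flip P σ τ)) := by
  have hQb : ∀ f ∈ Flip P σ τ, b ∉ f := by
    rintro f (⟨hf, -⟩ | ⟨f', hf', -, s, hs, rfl⟩)
    · exact hbP f hf
    · simp only [mem_erase, mem_union, not_and, not_or]
      exact fun _ => ⟨hbP f' hf', hbτ⟩
  have key : St P σ b = St (Flip P σ τ) τ b := by
    ext f
    constructor
    · rintro (⟨hf, hσf⟩ | ⟨f', hf', hσf', s, hs, rfl⟩)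
      · exact Or.inl ⟨Or.inl ⟨hf, hσf⟩, h1 f hf⟩
      · obtain ⟨y, hy, hyf, hyf'⟩ := h2 f' hf' hσf'
        refine Or.inr ⟨(f' ∪ τ).erase s, Or.inr ⟨f', hf', hσf', s, hs, rfl⟩, ?_, y, hy, ?_⟩
        · intro t ht
          rw [mem_erase, mem_union]
          exact ⟨fun h => Finset.disjoint_left.mp hd hs (h ▸ ht), Or.inr ht⟩
        · ext v
          simp only [mem_insert, mem_erase, mem_union]
          constructor
          · rintro (h | ⟨h, h'⟩)
            · exact Or.inl h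
            · exact Or.inr ⟨fun hvy => hyf (hvy ▸ h'), h, Or.inl h'⟩
          · rintro (h | ⟨h, h', h'' | h''⟩)
            · exact Or.inl h
            · exact Or.inr ⟨h', h''⟩
            · exact Or.inr ⟨h', hyf' (mem_erase.mpr ⟨h, h''⟩)⟩
    · rintro (⟨hf | ⟨f', hf', hσf', s, hs, rfl⟩, hτf⟩ | ⟨f', hf' | ⟨f'', hf'', hσf'', s, hs, rfl⟩,
        hτf', y, hy, rfl⟩)
      · exact Or.inl hf
      · exfalso
        apply hτf
        intro t ht
        rw [mem_erase, mem_union]
        exact ⟨fun h => Finset.disjoint_left.mp hd hs (h ▸ ht), Or.inr ht⟩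
      · exact absurd hτf' (h1 f' hf'.1)
      · refine Or.inr ⟨(f'' ∪ τ).erase y, h3 f'' hf'' hσf'' y hy, ?_, s, hs, ?_⟩
        · intro t ht
          rw [mem_erase, mem_union]
          exact ⟨fun h => Finset.disjoint_left.mp hd ht (h ▸ hy), Or.inl (hσf'' ht)⟩
        · rw [Finset.erase_right_comm]
  obtain ⟨e1⟩ := stellar_homeo P σ hσ b hbσ hbP
  obtain ⟨e2⟩ := stellar_homeo (Flip P σ τ) τ hτ b hbτ hQb
  exact ⟨e1.symm.trans ((Homeomorph.setCongr (by rw [key])).trans e2)⟩

end Pool.Agent.Work.MP_9638d9_co
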