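import Pool.Agent.Work.MP_9638d9_co.NonLC
import Pool.Agent.Work.MP_9638d9_co.Stellar

namespace Pool.Agent.Work.MP_9638d9_co

open Finset

/-! ### Bit masks -/

/-- the finite set of the positions of the bits of `m` -/
def dec (m : ℕ) : Finset ℕ := (range m).filter (fun i => m.testBit i = true)

lemma mem_dec {m i : ℕ} : i ∈ dec m ↔ m.testBit i = true := by
  rw [dec, mem_filter, mem_range, and_iff_right_iff_imp]
  intro h
  exact lt_of_lt_of_le Nat.lt_two_pow_self (Nat.ge_two_pow_of_testBit h)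

lemma dec_injective : Function.Injective dec := by
  intro a b h
  apply Nat.eq_of_testBit_eq
  intro i
  have := Finset.ext_iff.mp h i
  rw [mem_dec, mem_dec] at this
  exact Bool.eq_iff_iff.mpr this

lemma dec_and (a b : ℕ) : dec (a &&& b) = dec a ∩ dec b := by
  ext i; simp [mem_dec, Nat.testBit_and]

lemma dec_or (a b : ℕ) : dec (a ||| b) = dec a ∪ dec b := by
  ext i; simp [mem_dec, Nat.testBit_or]

lemma dec_subset_iff {a b : ℕ} : dec a ⊆ dec b ↔ a &&& b = a := by
  rw [← Finset.inter_eq_left, ← dec_and]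
  exact dec_injective.eq_iff

lemma dec_erase {a i : ℕ} (h : a.testBit i = true) : (dec a).erase i = dec (a ^^^ 2 ^ i) := by
  ext j
  rw [mem_erase, mem_dec, mem_dec, Nat.testBit_xor, Nat.testBit_two_pow]
  by_cases hj : i = j
  · subst hj; simp [h]
  · simp [hj, Ne.symm hj]

lemma lt_of_mem_dec {m i : ℕ} (h : i ∈ dec m) : i < m := by
  rw [dec, mem_filter, mem_range] at h
  exact h.1

lemma dec_nonempty {m : ℕ} (h : m ≠ 0) : (dec m).Nonempty := by
  rw [nonempty_iff_ne_empty]
  intro he
  apply h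
  apply dec_injective
  rw [he]; rfl

/-- bits below 16 -/
def bits (m : ℕ) : List ℕ := (List.range 16).filter (fun i => m.testBit i)

lemma mem_bits {m i : ℕ} : i ∈ bits m ↔ i < 16 ∧ m.testBit i = true := by
  simp [bits]

lemma dec_eq_bits {m : ℕ} (h : m < 2 ^ 16) : dec m = (bits m).toFinset := by
  ext i
  rw [mem_dec, List.mem_toFinset, mem_bits]
  constructor
  · intro hi
    refine ⟨?_, hi⟩
    by_contra hc
    have h1 := Nat.ge_two_pow_of_testBit hi
    have h2 : 2 ^ 16 ≤ 2 ^ i := Nat.pow_le_pow_right (by norm_num) (by omega)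
    omega
  · exact fun h => h.2

lemma bits_nodup (m : ℕ) : (bits m).Nodup := List.nodup_range.filter _

lemma card_dec {m : ℕ} (h : m < 2 ^ 16) : (dec m).card = (bits m).length := by
  rw [dec_eq_bits h, List.toFinset_card_of_nodup (bits_nodup m)]

/-- the family of simplices given by a list of masks -/
def fam (L : List ℕ) : Set (Finset ℕ) := {σ | ∃ f ∈ L, dec f = σ}

/-- validity of a flip -/
def okFlip (L : List ℕ) (s t : ℕ) : Bool :=
  (s != 0) && (t != 0) && (s &&& t == 0) && (s < 65536) && (t < 65536) &&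
  L.all (fun f => (t &&& f != t) &&
    (!(s &&& f == s) ||
      ((bits t).any (fun y => !f.testBit y && ((t ^^^ 2 ^ y) &&& f == t ^^^ 2 ^ y)) &&
       (bits t).all (fun y => L.contains ((f ||| t) ^^^ 2 ^ y)))))

/-- the list after a flip; `y₀` is a bit of `t` -/
def flipL (L : List ℕ) (s t y₀ : ℕ) : List ℕ :=
  L.filter (fun f => !(s &&& f == s)) ++
    (L.filter (fun f => (s &&& f == s) && !f.testBit y₀)).flatMap
      (fun f => (bits s).map (fun i => (f ||| t) ^^^ 2 ^ i))

theorem flipL_sound {L : List ℕ} {s t y₀ : ℕ} (h : okFlip L s t = true)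
    (hy₀ : y₀ ∈ bits t) :
    Nonempty (Real (fam L) ≃ₜ Real (fam (flipL L s t y₀))) := by
  rw [okFlip] at h
  simp only [Bool.and_eq_true, bne_iff_ne, ne_eq, beq_iff_eq, decide_eq_true_eq,
    List.all_eq_true, Bool.or_eq_true, Bool.not_eq_true', List.any_eq_true, beq_eq_false_iff_ne,
    List.contains_iff_mem] at h
  obtain ⟨⟨⟨⟨⟨hs, ht⟩, hst⟩, hs16⟩, ht16⟩, hall⟩ := h
  have hdst : Disjoint (dec s) (dec t) := by
    rw [disjoint_iff_inter_eq_empty, ← dec_and, hst]; rfl
  have hy₀t : y₀ ∈ dec t := mem_dec.mpr (mem_bits.mp hy₀).2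
  -- a fresh vertex
  let b := L.sum + s + t
  have hb : ∀ f ∈ L, b ∉ dec f := by
    intro f hf h
    have h1 := lt_of_mem_dec h
    have h2 : f ≤ L.sum := List.single_le_sum (by simp) f hf
    omega
  have hbs : b ∉ dec s := fun h => by have := lt_of_mem_dec h; omega
  have hbt : b ∉ dec t := fun h => by have := lt_of_mem_dec h; omega
  have hset : fam (flipL L s t y₀) = Flip (fam L) (dec s) (dec t) := by
    ext σ
    simp only [fam, Set.mem_setOf_eq, flipL, Flip, List.mem_append, List.mem_filter,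
      List.mem_flatMap, List.mem_map, Bool.not_eq_true', beq_eq_false_iff_ne, ne_eq,
      Bool.and_eq_true, beq_iff_eq]
    constructor
    · rintro ⟨f, (⟨hf, hsf⟩ | ⟨f', ⟨hf', hsf', hyf'⟩, i, hi, rfl⟩), rfl⟩
      · left
        exact ⟨⟨f, hf, rfl⟩, by rwa [dec_subset_iff]⟩
      · right
        refine ⟨dec f', ⟨f', hf', rfl⟩, by rwa [dec_subset_iff], i, ?_, ?_⟩
        · exact mem_dec.mpr (mem_bits.mp hi).2
        · rw [← dec_or, dec_erase]
          rw [Nat.testBit_or]
          have : i ∈ dec f' := (dec_subset_iff.mpr hsf') (mem_dec.mpr (mem_bits.mp hi).2)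
          rw [mem_dec.mp this, Bool.true_or]
    · rintro (⟨⟨f, hf, rfl⟩, hsf⟩ | ⟨_, ⟨f, hf, rfl⟩, hsf, i, hi, rfl⟩)
      · exact ⟨f, Or.inl ⟨hf, by rwa [dec_subset_iff] at hsf⟩, rfl⟩
      · have hsf' : s &&& f = s := by rwa [dec_subset_iff] at hsf
        have hi' : s.testBit i = true := mem_dec.mp hi
        obtain ⟨-, h2⟩ := hall f hf
        rcases h2 with h2 | ⟨-, h3⟩
        · exact absurd hsf' h2
        · have h4 := h3 y₀ hy₀
          refine ⟨(((f ||| t) ^^^ 2 ^ y₀) ||| t) ^^^ 2 ^ i, Or.inr ⟨(f ||| t) ^^^ 2 ^ y₀,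
            ⟨h4, ?_, ?_⟩, i, ?_, rfl⟩, ?_⟩
          · rw [← dec_subset_iff, ← dec_erase (by
              rw [Nat.testBit_or, mem_dec.mp hy₀t, Bool.or_true]), dec_or]
            intro j hj
            rw [mem_erase, mem_union]
            refine ⟨fun h => ?_, Or.inl (hsf hj)⟩
            subst h
            exact Finset.disjoint_left.mp hdst hj hy₀t
          · rw [Nat.testBit_xor, Nat.testBit_or, mem_dec.mp hy₀t, Nat.testBit_two_pow_self]
            simp
          · rw [mem_bits]
            refine ⟨?_, hi'⟩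
            by_contra hc
            have h1 := Nat.ge_two_pow_of_testBit hi'
            have h2 : 2 ^ 16 ≤ 2 ^ i := Nat.pow_le_pow_right (by norm_num) (by omega)
            omega
          · have e1 : ((f ||| t) ^^^ 2 ^ y₀) ||| t = f ||| t := by
              apply dec_injective
              rw [dec_or, ← dec_erase (by
                rw [Nat.testBit_or, mem_dec.mp hy₀t, Bool.or_true]), dec_or]
              ext j
              simp only [mem_union, mem_erase]
              constructor
              · rintro (⟨-, h⟩ | h)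
                · exact h
                · exact Or.inr h
              · intro h
                by_cases hj : j = y₀
                · subst hj; exact Or.inr hy₀t
                · exact Or.inl ⟨hj, h⟩
            rw [e1, ← dec_or, dec_erase]
            rw [Nat.testBit_or]
            have : i ∈ dec f := hsf hi
            rw [mem_dec.mp this, Bool.true_or]
  rw [hset]
  apply flip_homeo (fam L) (dec s) (dec t) b (dec_nonempty hs) (dec_nonempty ht) hdst hbs hbt
  · rintro _ ⟨f, hf, rfl⟩
    exact hb f hf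
  · rintro _ ⟨f, hf, rfl⟩ hsub
    rw [dec_subset_iff] at hsub
    exact (hall f hf).1 hsub
  · rintro _ ⟨f, hf, rfl⟩ hsub
    rw [dec_subset_iff] at hsub
    rcases (hall f hf).2 with h2 | ⟨⟨y, hy, hyf, hyt⟩, -⟩
    · exact absurd hsub h2
    · have hy' := (mem_bits.mp hy).2
      refine ⟨y, mem_dec.mpr hy', ?_, ?_⟩
      · rw [mem_dec, hyf]; simp
      · rw [dec_erase hy', dec_subset_iff]
        exact hyt
  · rintro _ ⟨f, hf, rfl⟩ hsub y hy
    rw [dec_subset_iff] at hsub
    have hy1 : t.testBit y = true := mem_dec.mp hy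
    rcases (hall f hf).2 with h2 | ⟨-, h3⟩
    · exact absurd hsub h2
    · have hyb : y ∈ bits t := by
        rw [mem_bits]
        refine ⟨?_, hy1⟩
        by_contra hc
        have h1 := Nat.ge_two_pow_of_testBit hy1
        have h2 : 2 ^ 16 ≤ 2 ^ y := Nat.pow_le_pow_right (by norm_num) (by omega)
        omega
      refine ⟨_, h3 y hyb, ?_⟩
      rw [← dec_or, dec_erase]
      rw [Nat.testBit_or, hy1, Bool.or_true]

/-- perform a sequence of flips -/
def run : List (ℕ × ℕ × ℕ) → List ℕ → Option (List ℕ)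
  | [], L => some L
  | (s, t, y) :: ms, L =>
    bif okFlip L s t && (bits t).contains y then run ms (flipL L s t y) else none

theorem run_sound : ∀ (ms : List (ℕ × ℕ × ℕ)) (L M : List ℕ), run ms L = some M →
    Nonempty (Real (fam L) ≃ₜ Real (fam M)) := by
  intro ms
  induction ms with
  | nil =>
    intro L M h
    simp only [run, Option.some.injEq] at h
    subst h
    exact ⟨Homeomorph.refl _⟩
  | cons m ms ih =>
    intro L M h
    obtain ⟨s, t, y⟩ := m
    rw [run] at h
    cases hc : (okFlip L s t && (bits t).contains y) with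
    | false => rw [hc] at h; simp at h
    | true =>
      rw [hc, cond_true] at h
      rw [Bool.and_eq_true, List.contains_iff_mem] at hc
      obtain ⟨e1⟩ := flipL_sound hc.1 hc.2
      obtain ⟨e2⟩ := ih _ _ h
      exact ⟨e1.trans e2⟩

/-! ### The complex generated by a list of masks -/

/-- the complex generated by the simplices in the list -/
def gen (L : List ℕ) : Finset (Finset ℕ) :=
  (L.toFinset.biUnion (fun m => (dec m).powerset)).erase ∅

lemma mem_gen {L : List ℕ} {σ : Finset ℕ} : σ ∈ gen L ↔ σ.Nonempty ∧ ∃ m ∈ L, σ ⊆ dec m := by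
  simp [gen, nonempty_iff_ne_empty]

lemma isComplex_gen (L : List ℕ) : IsComplex (gen L) := by
  refine ⟨fun σ hσ => (mem_gen.mp hσ).1, fun σ hσ τ hτ hne => ?_⟩
  obtain ⟨-, m, hm, hs⟩ := mem_gen.mp hσ
  exact mem_gen.mpr ⟨hne, m, hm, hτ.trans hs⟩

lemma realization_eq {V : Type*} [DecidableEq V] {C : Finset (Finset V)} {P : Set (Finset V)}
    (h1 : ∀ σ ∈ P, σ ∈ C) (h2 : ∀ σ ∈ C, ∃ f ∈ P, σ ⊆ f) : Realization C = Real P := by
  ext x
  constructor
  · rintro ⟨h0, σ, hσ, hs, hsum⟩
    obtain ⟨f, hf, hsf⟩ := h2 σ hσ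
    refine ⟨h0, f, hf, fun v hv => hs v fun h => hv (hsf h), ?_⟩
    rw [← hsum]
    symm
    exact Finset.sum_subset hsf fun v _ hv => hs v hv
  · rintro ⟨h0, σ, hσ, hs, hsum⟩
    exact ⟨h0, σ, h1 σ hσ, hs, hsum⟩

lemma realization_gen {L : List ℕ} (h : ∀ m ∈ L, m ≠ 0) :
    Realization (gen L) = Real (fam L) := by
  apply realization_eq
  · rintro _ ⟨m, hm, rfl⟩
    exact mem_gen.mpr ⟨dec_nonempty (h m hm), m, hm, Subset.refl _⟩
  · intro σ hσ
    obtain ⟨-, m, hm, hs⟩ := mem_gen.mp hσ
    exact ⟨dec m, ⟨m, hm, rfl⟩, hs⟩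

lemma isBall_simplex : Nonempty (Real (fam [15]) ≃ₜ
    (Metric.closedBall (0 : EuclideanSpace ℝ (Fin 3)) 1 : Set (EuclideanSpace ℝ (Fin 3)))) := by
  have h0 := isBall_point (0 : ℕ)
  have h1 := isBall_cone (v := 1) (C := {{0}}) (by decide) h0
  have h2 := isBall_cone (v := 2) (C := cone 1 {{0}}) (by decide) h1
  have h3 := isBall_cone (v := 3) (C := cone 2 (cone 1 {{0}})) (by decide) h2
  obtain ⟨-, h⟩ := h3
  have : Realization (cone 3 (cone 2 (cone 1 {{(0:ℕ)}}))) = Real (fam [15]) := by
    apply realization_eq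
    · rintro _ ⟨m, hm, rfl⟩
      rw [List.mem_singleton] at hm
      subst hm
      decide
    · intro σ hσ
      refine ⟨dec 15, ⟨15, by simp, rfl⟩, ?_⟩
      revert σ
      decide
  rw [this] at h
  exact h

theorem isBall_gen {L : List ℕ} (ms : List (ℕ × ℕ × ℕ)) (h : ∀ m ∈ L, m ≠ 0)
    (hrun : run ms L = some [15]) : IsBall 3 (gen L) := by
  refine ⟨isComplex_gen L, ?_⟩
  obtain ⟨e1⟩ := run_sound ms L _ hrun
  obtain ⟨e2⟩ := isBall_simplex
  rw [realization_gen h]
  exact ⟨e1.trans e2⟩

end Pool.Agent.Work.MP_9638d9_co
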