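import Pool.Agent.Work.MP_9638d9_co.ConeComb

namespace Pool.Agent.Work.MP_9638d9_co

open Finset

universe u
variable {V : Type u} [DecidableEq V]

/-- A certificate that the complex with set of `d`-cells `S` is not LC: a flat connection with
values in a group `G`, off a codimension two face `e` contained in exactly three cells. -/
structure Cert (d : ℕ) (S : Finset (Finset V)) (G : Type) [Group G] where
  /-- the transition elements -/
  g : Finset V → Finset V → G
  /-- the exceptional codimension two face -/
  e : Finset V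
  /-- potentials -/
  pot : Finset V → Finset V → G
  cA : Finset V
  cB : Finset V
  cC : Finset V
  pm : ∀ σ ∈ S, ∀ τ ∈ S, ∀ υ ∈ S, (σ ∩ τ).card = d → σ ∩ τ ⊆ υ → υ = σ ∨ υ = τ
  inv : ∀ σ ∈ S, ∀ τ ∈ S, (σ ∩ τ).card = d → g τ σ = (g σ τ)⁻¹
  flat : ∀ σ ∈ S, ∀ τ ∈ S, (σ ∩ τ).card = d → ∀ ρ ⊆ σ ∩ τ, ρ.card + 1 = d → ρ ≠ e →
    g σ τ = (pot ρ σ)⁻¹ * pot ρ τ
  he : ∀ σ ∈ S, e ⊆ σ → σ = cA ∨ σ = cB ∨ σ = cC

/-- three-element case of the closing lemma -/
lemma closing3 {S : Finset (Finset V)} {E : Finset (Finset V × Finset V)} {e : Finset V}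
    (hES : ∀ a b, Joined E a b → a ∈ S ∧ b ∈ S) {x y z : Finset V}
    (he : ∀ σ ∈ S, e ⊆ σ → σ = x ∨ σ = y ∨ σ = z)
    (hxy : x ≠ y) (h : Same E e x y) (hn : ¬ Joined E x y) : Joined E x z ∧ Joined E z y := by
  -- follow the chain
  have key : ∀ w, Same E e x w → w = x ∨ (w = z ∧ Joined E x z) ∨
      (w = y ∧ Joined E x z ∧ Joined E z y) ∨ (Joined E x z ∧ Joined E z y) := by
    intro w hw
    induction hw with
    | refl => exact Or.inl rfl
    | step τ υ _ hj hs ih =>
      have hυ := he υ (hES _ _ hj).2 (hs.trans inter_subset_right)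
      rcases ih with rfl | ⟨rfl, h1⟩ | ⟨rfl, h1, h2⟩ | h1
      · rcases hυ with rfl | rfl | rfl
        · exact Or.inl rfl
        · exact absurd hj hn
        · exact Or.inr (Or.inl ⟨rfl, hj⟩)
      · rcases hυ with rfl | rfl | rfl
        · exact Or.inl rfl
        · exact Or.inr (Or.inr (Or.inr ⟨h1, hj⟩))
        · exact Or.inr (Or.inl ⟨rfl, h1⟩)
      · exact Or.inr (Or.inr (Or.inr ⟨h1, h2⟩))
      · exact Or.inr (Or.inr (Or.inr h1))
  rcases key y h with h1 | ⟨h1, h2⟩ | ⟨-, h2⟩ | h2
  · exact absurd h1.symm hxy
  · subst h1; exact absurd h2 hn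
  · exact h2
  · exact h2

/-- holonomy of a walk -/
def hol {G : Type} [Group G] (g : Finset V → Finset V → G) : List (Finset V) → G
  | [] => 1
  | [_] => 1
  | x :: y :: l => g x y * hol g (y :: l)

/-- walks in the dual graph -/
def IsWalk (d : ℕ) (S : Finset (Finset V)) : List (Finset V) → Prop
  | [] => True
  | [x] => x ∈ S
  | x :: y :: l => x ∈ S ∧ (x ∩ y).card = d ∧ IsWalk d S (y :: l)

lemma IsWalk.head_mem {d : ℕ} {S : Finset (Finset V)} {x : Finset V} {l : List (Finset V)}
    (h : IsWalk d S (x :: l)) : x ∈ S := by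
  cases l with
  | nil => exact h
  | cons y l => exact h.1

theorem not_assembled {d : ℕ} {S : Finset (Finset V)} {G : Type} [Group G]
    (c : Cert d S G) (l₁ l₂ : List (Finset V)) (x : Finset V)
    (h1 : IsWalk d S (x :: (l₁ ++ [x]))) (h2 : IsWalk d S (x :: (l₂ ++ [x])))
    (hne : hol c.g (x :: (l₁ ++ [x])) * hol c.g (x :: (l₂ ++ [x])) ≠
      hol c.g (x :: (l₂ ++ [x])) * hol c.g (x :: (l₁ ++ [x])))
    {E : Finset (Finset V × Finset V)} (hA : Assembled d S E)
    (hfin : ∀ σ ∈ S, ∀ τ ∈ S, (σ ∩ τ).card = d → σ ≠ τ → Same E (σ ∩ τ) σ τ) : False := by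
  have hcard : ∀ {E : Finset (Finset V × Finset V)}, Assembled d S E →
      ∀ a ∈ S, a.card = d + 1 := by
    have hT : ∀ {S : Finset (Finset V)} {E : Finset (Finset V × Finset V)}, Tree d S E →
        ∀ a ∈ S, a.card = d + 1 := by
      intro S E h
      induction h with
      | single σ h => intro a ha; rw [mem_singleton.mp ha]; exact h
      | attach S E σ τ _ _ _ hc _ _ ih =>
        intro a ha
        rcases mem_insert.mp ha with rfl | h
        · exact hc
        · exact ih a h
    intro E h
    induction h with
    | tree E h => exact hT h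
    | glue E σ τ ρ _ _ _ _ _ _ _ _ _ ih => exact ih
  have hS := hcard hA
  -- adjacency of joined pairs
  have hadj : ∀ {E : Finset (Finset V × Finset V)}, Assembled d S E →
      ∀ a b, Joined E a b → a ∈ S ∧ b ∈ S ∧ (a ∩ b).card = d := by
    have hT : ∀ {S : Finset (Finset V)} {E : Finset (Finset V × Finset V)}, Tree d S E →
        ∀ a b, (a, b) ∈ E → (a ∩ b).card = d := by
      intro S E h
      induction h with
      | single σ h => intro a b ha; simp at ha
      | attach S E σ τ _ _ _ hc hcap _ ih =>
        intro a b ha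
        rcases mem_insert.mp ha with h | h
        · rw [Prod.mk.injEq] at h; rw [h.1, h.2]; exact hcap
        · exact ih a b h
    intro E h
    have h' : ∀ a b, (a, b) ∈ E → (a ∩ b).card = d := by
      induction h with
      | tree E h => exact hT h
      | glue E σ τ ρ _ _ _ hcap _ _ _ _ _ ih =>
        intro a b ha
        rcases mem_insert.mp ha with h | h
        · rw [Prod.mk.injEq] at h; rw [h.1, h.2]; exact hcap
        · exact ih a b h
    intro a b hab
    rcases hab with hab | hab
    · exact ⟨(assembled_mem h a b hab).1, (assembled_mem h a b hab).2, h' a b hab⟩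
    · exact ⟨(assembled_mem h b a hab).2, (assembled_mem h b a hab).1, by
        rw [inter_comm]; exact h' b a hab⟩
  -- the invariant for trees
  have hTree : ∀ {S' : Finset (Finset V)} {E : Finset (Finset V × Finset V)}, Tree d S' E →
      S' ⊆ S → ∃ a : Finset V → G, ∀ σ τ, Joined E σ τ → a σ * c.g σ τ * (a τ)⁻¹ = 1 := by
    intro S' E h
    induction h with
    | single σ h => intro _; exact ⟨fun _ => 1, fun σ τ h => by rcases h with h | h <;> simp at h⟩
    | attach S' E σ τ hT hσ hτ hc hcap hb ih =>
      intro hsub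
      obtain ⟨a, ha⟩ := ih ((subset_insert _ _).trans hsub)
      have hστ : σ ≠ τ := fun h => hτ (h ▸ hσ)
      have hinv := c.inv σ (hsub (mem_insert_of_mem hσ)) τ (hsub (mem_insert_self _ _)) hcap
      refine ⟨Function.update a τ (a σ * c.g σ τ), fun x y hxy => ?_⟩
      have hxy' : Joined E x y ∨ (x = σ ∧ y = τ) ∨ (x = τ ∧ y = σ) := by
        rcases hxy with h | h <;> rcases mem_insert.mp h with h | h
        · rw [Prod.mk.injEq] at h; exact Or.inr (Or.inl h)
        · exact Or.inl (Or.inl h)
        · rw [Prod.mk.injEq] at h; exact Or.inr (Or.inr h.symm)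
        · exact Or.inl (Or.inr h)
      rcases hxy' with h | ⟨rfl, rfl⟩ | ⟨rfl, rfl⟩
      · have hmem : x ∈ S' ∧ y ∈ S' := by
          rcases h with h | h
          · exact tree_mem hT _ _ h
          · exact (tree_mem hT _ _ h).symm
        have hx : x ≠ τ := fun h => hτ (h ▸ hmem.1)
        have hy : y ≠ τ := fun h => hτ (h ▸ hmem.2)
        rw [Function.update_of_ne hx, Function.update_of_ne hy]
        exact ha x y h
      · rw [Function.update_self, Function.update_of_ne hστ]
        group
      · rw [Function.update_self, Function.update_of_ne hστ, hinv]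
        group
  -- the invariant
  have hInv : ∀ {E : Finset (Finset V × Finset V)}, Assembled d S E →
      ∃ (a : Finset V → G) (m : G),
        (∀ σ τ, Joined E σ τ → a σ * c.g σ τ * (a τ)⁻¹ ∈ Subgroup.zpowers m) ∧
        (m = 1 ∨ ∀ σ ∈ S, ∀ τ ∈ S, (σ ∩ τ).card = d → c.e ⊆ σ ∩ τ → Joined E σ τ) := by
    intro E h
    induction h with
    | tree E h =>
      obtain ⟨a, ha⟩ := hTree h (Subset.refl S)
      exact ⟨a, 1, fun σ τ hst => by rw [ha σ τ hst]; exact Subgroup.one_mem _, Or.inl rfl⟩
    | glue E σ τ ρ hA hσ hτ hcap hb hb' hρ hρc hsame ih =>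
      obtain ⟨a, m, ha, hm⟩ := ih
      have hστ : σ ≠ τ := by
        intro h
        subst h
        rw [inter_self, hS σ hσ] at hcap
        omega
      have hinv := c.inv σ hσ τ hτ hcap
      have hnj : ¬ Joined E σ τ := fun h => hb τ h rfl
      have hcases : ∀ {x y}, Joined (insert (σ, τ) E) x y →
          Joined E x y ∨ (x = σ ∧ y = τ) ∨ (x = τ ∧ y = σ) := by
        intro x y hxy
        rcases hxy with h | h <;> rcases mem_insert.mp h with h | h
        · rw [Prod.mk.injEq] at h; exact Or.inr (Or.inl h)
        · exact Or.inl (Or.inl h)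
        · rw [Prod.mk.injEq] at h; exact Or.inr (Or.inr h.symm)
        · exact Or.inl (Or.inr h)
      by_cases hρe : ρ = c.e
      · subst hρe
        rcases hm with rfl | hm
        · -- first closing
          have hclose : ∀ x ∈ S, ∀ y ∈ S, (x ∩ y).card = d → c.e ⊆ x ∩ y →
              Joined (insert (σ, τ) E) x y := by
            have hes : ∀ x ∈ S, c.e ⊆ x → x = c.cA ∨ x = c.cB ∨ x = c.cC := c.he
            have hσe : c.e ⊆ σ := hρ.trans inter_subset_left
            have hτe : c.e ⊆ τ := hρ.trans inter_subset_right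
            have hES : ∀ a b, Joined E a b → a ∈ S ∧ b ∈ S := fun a b h =>
              ⟨(hadj hA a b h).1, (hadj hA a b h).2.1⟩
            -- third cell
            obtain ⟨z, hz⟩ : ∃ z, ∀ x ∈ S, c.e ⊆ x → x = σ ∨ x = τ ∨ x = z := by
              rcases hes σ hσ hσe with h1 | h1 | h1 <;> rcases hes τ hτ hτe with h2 | h2 | h2
              · exact absurd (h1.trans h2.symm) hστ
              · exact ⟨c.cC, fun x hx hxe => by
                  rcases hes x hx hxe with h | h | h
                  · exact Or.inl (h.trans h1.symm)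
                  · exact Or.inr (Or.inl (h.trans h2.symm))
                  · exact Or.inr (Or.inr h)⟩
              · exact ⟨c.cB, fun x hx hxe => by
                  rcases hes x hx hxe with h | h | h
                  · exact Or.inl (h.trans h1.symm)
                  · exact Or.inr (Or.inr h)
                  · exact Or.inr (Or.inl (h.trans h2.symm))⟩
              · exact ⟨c.cC, fun x hx hxe => by
                  rcases hes x hx hxe with h | h | h
                  · exact Or.inr (Or.inl (h.trans h2.symm))
                  · exact Or.inl (h.trans h1.symm)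
                  · exact Or.inr (Or.inr h)⟩
              · exact absurd (h1.trans h2.symm) hστ
              · exact ⟨c.cA, fun x hx hxe => by
                  rcases hes x hx hxe with h | h | h
                  · exact Or.inr (Or.inr h)
                  · exact Or.inl (h.trans h1.symm)
                  · exact Or.inr (Or.inl (h.trans h2.symm))⟩
              · exact ⟨c.cB, fun x hx hxe => by
                  rcases hes x hx hxe with h | h | h
                  · exact Or.inr (Or.inl (h.trans h2.symm))
                  · exact Or.inr (Or.inr h)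
                  · exact Or.inl (h.trans h1.symm)⟩
              · exact ⟨c.cA, fun x hx hxe => by
                  rcases hes x hx hxe with h | h | h
                  · exact Or.inr (Or.inr h)
                  · exact Or.inr (Or.inl (h.trans h2.symm))
                  · exact Or.inl (h.trans h1.symm)⟩
              · exact absurd (h1.trans h2.symm) hστ
            obtain ⟨hj1, hj2⟩ := closing3 hES hz hστ hsame hnj
            have hsub := subset_insert (σ, τ) E
            have hnew : Joined (insert (σ, τ) E) σ τ := Or.inl (mem_insert_self _ _)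
            intro x hx y hy hxy hexy
            have hxy' : x ≠ y := by
              intro h
              subst h
              rw [inter_self, hS x hx] at hxy
              omega
            rcases hz x hx (hexy.trans inter_subset_left) with rfl | rfl | rfl <;>
              rcases hz y hy (hexy.trans inter_subset_right) with rfl | rfl | rfl
            · exact absurd rfl hxy'
            · exact hnew
            · exact hj1.mono hsub
            · exact hnew.symm
            · exact absurd rfl hxy'
            · exact (hj2.mono hsub).symm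
            · exact (hj1.mono hsub).symm
            · exact hj2.mono hsub
            · exact absurd rfl hxy'
          refine ⟨a, a σ * c.g σ τ * (a τ)⁻¹, fun x y hxy => ?_, Or.inr hclose⟩
          rcases hcases hxy with h | ⟨rfl, rfl⟩ | ⟨rfl, rfl⟩
          · have := ha x y h
            rw [Subgroup.zpowers_one_eq_bot, Subgroup.mem_bot] at this
            rw [this]
            exact Subgroup.one_mem _
          · exact Subgroup.mem_zpowers _
          · rw [hinv]
            have : a x * (c.g y x)⁻¹ * (a y)⁻¹ = (a y * c.g y x * (a x)⁻¹)⁻¹ := by group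
            rw [this]
            exact Subgroup.inv_mem _ (Subgroup.mem_zpowers _)
        · exact absurd (hm σ hσ τ hτ hcap hρ) hnj
      · -- ρ ≠ e: use flatness
        have hpath : ∀ y, Same E ρ σ y →
            (c.pot ρ σ * (a σ)⁻¹)⁻¹ * (c.pot ρ y * (a y)⁻¹) ∈ Subgroup.zpowers m := by
          intro y hy
          induction hy with
          | refl => rw [inv_mul_cancel]; exact Subgroup.one_mem _
          | step x y _ hj hs ih =>
            obtain ⟨hx, hy, hxy⟩ := hadj hA x y hj
            have h1 := ha x y hj
            rw [c.flat x hx y hy hxy ρ hs hρc hρe] at h1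
            have h2 := Subgroup.mul_mem _ ih h1
            have h3 : (c.pot ρ σ * (a σ)⁻¹)⁻¹ * (c.pot ρ x * (a x)⁻¹) *
                (a x * ((c.pot ρ x)⁻¹ * c.pot ρ y) * (a y)⁻¹) =
                (c.pot ρ σ * (a σ)⁻¹)⁻¹ * (c.pot ρ y * (a y)⁻¹) := by group
            rwa [h3] at h2
        have hnew : a σ * c.g σ τ * (a τ)⁻¹ ∈ Subgroup.zpowers m := by
          have h1 := hpath τ hsame
          rw [c.flat σ hσ τ hτ hcap ρ hρ hρc hρe]
          have h3 : (c.pot ρ σ * (a σ)⁻¹)⁻¹ * (c.pot ρ τ * (a τ)⁻¹) =
            a σ * ((c.pot ρ σ)⁻¹ * c.pot ρ τ) * (a τ)⁻¹ := by group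
          rwa [h3] at h1
        refine ⟨a, m, fun x y hxy => ?_, ?_⟩
        · rcases hcases hxy with h | ⟨rfl, rfl⟩ | ⟨rfl, rfl⟩
          · exact ha x y h
          · exact hnew
          · rw [hinv]
            have : a x * (c.g y x)⁻¹ * (a y)⁻¹ = (a y * c.g y x * (a x)⁻¹)⁻¹ := by group
            rw [this]
            exact Subgroup.inv_mem _ hnew
        · rcases hm with rfl | hm
          · exact Or.inl rfl
          · exact Or.inr fun x hx y hy hxy hexy =>
              (hm x hx y hy hxy hexy).mono (subset_insert _ _)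
  -- all adjacent pairs are joined
  have hall : ∀ σ ∈ S, ∀ τ ∈ S, (σ ∩ τ).card = d → Joined E σ τ := by
    intro σ hσ τ hτ hcap
    have hστ : σ ≠ τ := by
      intro h
      subst h
      rw [inter_self, hS σ hσ] at hcap
      omega
    have hs := hfin σ hσ τ hτ hcap hστ
    have key : ∀ w, Same E (σ ∩ τ) σ w → w = σ ∨ Joined E σ τ := by
      intro w hw
      induction hw with
      | refl => exact Or.inl rfl
      | step x y _ hj hsub ih =>
        rcases ih with rfl | h
        · obtain ⟨hx, hy, -⟩ := hadj hA _ _ hj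
          rcases c.pm x hσ τ hτ y hy hcap (hsub.trans inter_subset_right) with h | h
          · exact Or.inl h
          · subst h; exact Or.inr hj
        · exact Or.inr h
    rcases key τ hs with h | h
    · exact absurd h.symm hστ
    · exact h
  obtain ⟨a, m, ha, -⟩ := hInv hA
  have hwalk : ∀ (l : List (Finset V)) (x y : Finset V), IsWalk d S (x :: (l ++ [y])) →
      a x * hol c.g (x :: (l ++ [y])) * (a y)⁻¹ ∈ Subgroup.zpowers m := by
    intro l
    induction l with
    | nil =>
      intro x y h
      simp only [List.nil_append, hol, mul_one]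
      obtain ⟨hx, hxy, hy⟩ := h
      exact ha x y (hall x hx y hy hxy)
    | cons z l ih =>
      intro x y h
      obtain ⟨hx, hxz, hz⟩ := h
      have h1 := ha x z (hall x hx z hz.head_mem hxz)
      have h2 := ih z y hz
      have h3 := Subgroup.mul_mem _ h1 h2
      have h4 : a x * c.g x z * (a z)⁻¹ * (a z * hol c.g (z :: (l ++ [y])) * (a y)⁻¹) =
          a x * (c.g x z * hol c.g (z :: (l ++ [y]))) * (a y)⁻¹ := by group
      rw [h4] at h3
      exact h3
  have e1 := hwalk l₁ x x h1
  have e2 := hwalk l₂ x x h2
  obtain ⟨k₁, hk₁⟩ := e1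
  obtain ⟨k₂, hk₂⟩ := e2
  simp only at hk₁ hk₂
  apply hne
  have hcomm : (m ^ k₁) * (m ^ k₂) = (m ^ k₂) * (m ^ k₁) := by
    rw [← zpow_add, ← zpow_add, add_comm]
  have f1 : hol c.g (x :: (l₁ ++ [x])) = (a x)⁻¹ * m ^ k₁ * a x := by rw [hk₁]; group
  have f2 : hol c.g (x :: (l₂ ++ [x])) = (a x)⁻¹ * m ^ k₂ * a x := by rw [hk₂]; group
  rw [f1, f2]
  calc (a x)⁻¹ * m ^ k₁ * a x * ((a x)⁻¹ * m ^ k₂ * a x)
      = (a x)⁻¹ * (m ^ k₁ * m ^ k₂) * a x := by group
    _ = (a x)⁻¹ * (m ^ k₂ * m ^ k₁) * a x := by rw [hcomm]
    _ = _ := by group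

end Pool.Agent.Work.MP_9638d9_co
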