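import Pool.Agent.Work.MP_9638d9_co.Defs

namespace Pool.Agent.Work.MP_9638d9_co

open Finset

universe u

/-- compact convex sets with interior are balls -/
theorem convexBody_homeo {F : Type*} [NormedAddCommGroup F] [NormedSpace ℝ F]
    [FiniteDimensional ℝ F] (n : ℕ) (hn : Module.finrank ℝ F = n) (K : Set F)
    (hc : Convex ℝ K) (hcomp : IsCompact K) (hi : (interior K).Nonempty) :
    Nonempty (K ≃ₜ
      (Metric.closedBall (0 : EuclideanSpace ℝ (Fin n)) 1 : Set (EuclideanSpace ℝ (Fin n)))) := by
  have hf : Module.finrank ℝ F = Module.finrank ℝ (EuclideanSpace ℝ (Fin n)) := by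
    rw [hn, finrank_euclideanSpace_fin]
  let e : F ≃L[ℝ] EuclideanSpace ℝ (Fin n) := ContinuousLinearEquiv.ofFinrankEq hf
  have h1 : Convex ℝ (e '' K) := hc.linear_image e.toLinearEquiv.toLinearMap
  have h2 : IsCompact (e '' K) := hcomp.image e.continuous
  have h3 : (interior (e '' K)).Nonempty := by
    have := e.toHomeomorph.image_interior K
    have h : e '' interior K = interior (e '' K) := this
    rw [← h]
    exact hi.image _
  obtain ⟨h, -, hcl, -⟩ := exists_homeomorph_image_interior_closure_frontier_eq_unitBall h1 h3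
    h2.isBounded
  rw [h2.isClosed.closure_eq] at hcl
  refine ⟨(e.toHomeomorph.image K).trans ((h.image (e '' K)).trans (Homeomorph.setCongr hcl))⟩

end Pool.Agent.Work.MP_9638d9_co
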