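import Pool.Agent.Work.MP_9638d9_co.Homology

namespace Pool.Agent.Work.MP_9638d9_co

open Finset

universe u
variable {V : Type u} [DecidableEq V]

/-- the property of the spanning tree used later on -/
def TreeProp (r : V → ℕ) (root : Finset V) (S : Finset (Finset V))
    (E : Finset (Finset V × Finset V)) : Prop :=
  ∀ (X : Finset V → Prop) (v : V),
    (∀ σ τ, Joined E σ τ → v ∈ σ → v ∈ τ → (X σ ↔ X τ)) →
    (∀ σ ∈ S, v ∈ σ → (∃ w ∈ σ, r v < r w) → ¬ X σ) →
    (v ∈ root → ¬ X root) → ∀ σ ∈ S, v ∈ σ → ¬ X σ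

omit [DecidableEq V] in
lemma vertex_mem {C : Finset (Finset V)} (hC : IsComplex C) {σ : Finset V} {v : V} (hσ : σ ∈ C)
    (hv : v ∈ σ) : {v} ∈ C :=
  hC.2 σ hσ {v} (singleton_subset_iff.mpr hv) (singleton_nonempty v)

theorem exists_tree {C : Finset (Finset V)} (hM : Mfd C) {r : V → ℕ} (hr : GoodOrder C r)
    (hne : ∃ x, {x} ∈ C) : ∃ (E : Finset (Finset V × Finset V)) (root : Finset V) (l : V),
      Tree 3 (cells 3 C) E ∧ {l} ∈ C ∧ l ∈ root ∧ root ∈ cells 3 C ∧
      (∀ w, {w} ∈ C → r w ≤ r l) ∧ TreeProp r root (cells 3 C) E := by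
  obtain ⟨x, hx⟩ := hne
  obtain ⟨l, hl, hlmax⟩ := exists_max_image (C.biUnion id) r ⟨x, mem_biUnion.mpr ⟨_, hx, by simp⟩⟩
  have hlC : {l} ∈ C := by
    obtain ⟨σ, hσ, h⟩ := mem_biUnion.mp hl
    exact vertex_mem hM.cx hσ h
  have hlmax' : ∀ w, {w} ∈ C → r w ≤ r l := fun w hw =>
    hlmax w (mem_biUnion.mpr ⟨_, hw, by simp⟩)
  obtain ⟨root, hroot, hlr⟩ := hM.pure {l} hlC
  rw [singleton_subset_iff] at hlr
  have hT := fun {t : Finset V} (ht : t ∈ cells 3 C) => mem_cells.mp ht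
  -- growing the tree
  have grow : ∀ (k : ℕ) (S : Finset (Finset V)) (E : Finset (Finset V × Finset V)),
      (cells 3 C \ S).card = k → S ⊆ cells 3 C → root ∈ S → Tree 3 S E → TreeProp r root S E →
      ∃ E', Tree 3 (cells 3 C) E' ∧ TreeProp r root (cells 3 C) E' := by
    intro k
    induction k with
    | zero =>
      intro S E hk hS _ hTr hP
      have : S = cells 3 C := by
        apply Subset.antisymm hS
        rw [card_eq_zero, sdiff_eq_empty_iff_subset] at hk
        exact hk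
      subst this
      exact ⟨E, hTr, hP⟩
    | succ k ih =>
      intro S E hk hS hrS hTr hP
      obtain ⟨t₁, ht₁⟩ := card_pos.mp (show 0 < (cells 3 C \ S).card by omega)
      have ht₁' := mem_sdiff.mp ht₁
      obtain ⟨u₁, hu₁⟩ := card_pos.mp (show 0 < t₁.card by rw [(hT ht₁'.1).2]; norm_num)
      obtain ⟨v, hv, hvmax⟩ := exists_max_image ((cells 3 C \ S).biUnion id) r
        ⟨u₁, mem_biUnion.mpr ⟨_, ht₁, hu₁⟩⟩
      obtain ⟨τ₀, hτ₀, hvτ₀⟩ := mem_biUnion.mp hv
      simp only [id] at hvτ₀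
      rw [mem_sdiff] at hτ₀
      have hvC : {v} ∈ C := vertex_mem hM.cx (hT hτ₀.1).1 hvτ₀
      have hlater : ∀ t ∈ cells 3 C, (∃ w ∈ t, r v < r w) → t ∈ S := by
        rintro t ht ⟨w, hw, hlt⟩
        by_contra hcon
        have := hvmax w (mem_biUnion.mpr ⟨t, mem_sdiff.mpr ⟨ht, hcon⟩, hw⟩)
        omega
      obtain ⟨σ₀, hσ₀S, hvσ₀⟩ : ∃ σ₀ ∈ S, v ∈ σ₀ := by
        by_cases hvl : v = l
        · exact ⟨root, hrS, hvl ▸ hlr⟩
        · have h1 : r v < r l := lt_of_le_of_ne (hlmax' v hvC) fun h => hvl (hr.inj v l hvC hlC h)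
          obtain ⟨y, hy, hry⟩ := hr.ex v hvC ⟨l, hlC, h1⟩
          obtain ⟨t, ht, hs⟩ := hM.pure _ hy
          exact ⟨t, hlater t ht ⟨y, hs (by simp), hry⟩, hs (by simp)⟩
      obtain ⟨a, b, ⟨ha, hb, hab, hc⟩, haS, hbS⟩ := exists_step (S := fun t => t ∈ S)
        (hM.connV v hvC σ₀ (hS hσ₀S) τ₀ hτ₀.1 (singleton_subset_iff.mpr hvσ₀)
          (singleton_subset_iff.mpr hvτ₀)) hσ₀S hτ₀.2
      have hvab := mem_inter.mp (singleton_subset_iff.mp hab)
      obtain ⟨hF1, hF2, hane, hF4⟩ := hM.adj ha hb hc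
      have hob : OnBoundary E a (a ∩ b) := by
        intro υ hυ heq
        have hυS : υ ∈ S := by
          rcases hυ with h | h
          · exact (tree_mem hTr _ _ h).2
          · exact (tree_mem hTr _ _ h).1
        have : υ ∈ (cells 3 C).filter (fun t => a ∩ b ⊆ t) := by
          rw [mem_filter]
          exact ⟨hS hυS, heq ▸ inter_subset_right⟩
        rw [hF4, mem_insert, mem_singleton] at this
        rcases this with h | h
        · rw [h, inter_self] at heq
          rw [← heq, (hT ha).2] at hc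
          omega
        · exact hbS (h ▸ hυS)
      have hTr' := Tree.attach S E a b hTr haS hbS (hT hb).2 hc hob
      refine ih (insert b S) (insert (a, b) E) ?_ (insert_subset hb hS) (mem_insert_of_mem hrS)
        hTr' ?_
      · have : cells 3 C \ insert b S = (cells 3 C \ S).erase b := by
          ext t; simp only [mem_sdiff, mem_insert, mem_erase]; tauto
        rw [this, card_erase_of_mem (mem_sdiff.mpr ⟨hb, hbS⟩), hk]
        rfl
      · intro X u h1 h2 h3
        have hSS := hP X u (fun σ τ h => h1 σ τ (h.mono (subset_insert _ _)))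
          (fun σ hσ => h2 σ (mem_insert_of_mem hσ)) h3
        intro σ hσ huσ
        rcases mem_insert.mp hσ with rfl | hσ
        · by_cases hlat : ∃ w ∈ σ, r u < r w
          · exact h2 σ (mem_insert_self _ _) huσ hlat
          · push Not at hlat
            have e1 := hlat v hvab.2
            have e2 := hvmax u (mem_biUnion.mpr ⟨σ, mem_sdiff.mpr ⟨hb, hbS⟩, huσ⟩)
            have huv : u = v := hr.inj u v (vertex_mem hM.cx (hT hb).1 huσ) hvC (by omega)
            subst huv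
            have e3 := h1 a σ (Or.inl (mem_insert_self _ _)) hvab.1 hvab.2
            rw [← e3]
            exact hSS a haS hvab.1
        · exact hSS σ hσ huσ
  obtain ⟨E', hE', hP'⟩ := grow _ {root} ∅ rfl (singleton_subset_iff.mpr hroot)
    (mem_singleton_self root) (Tree.single root (hT hroot).2) (by
      intro X v _ _ h3 σ hσ hvσ
      rw [mem_singleton] at hσ
      subst hσ
      exact h3 hvσ)
  exact ⟨E', root, l, hE', hlC, hlr, hroot, hlmax', hP'⟩

/-- joined cells of an assembled complex are adjacent cells -/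
lemma assembled_adj {S : Finset (Finset V)} {d : ℕ} {E : Finset (Finset V × Finset V)}
    (h : Assembled d S E) : ∀ a b, Joined E a b → a ∈ S ∧ b ∈ S ∧ (a ∩ b).card = d := by
  have hT : ∀ {S : Finset (Finset V)} {E : Finset (Finset V × Finset V)}, Tree d S E →
      ∀ a b, (a, b) ∈ E → (a ∩ b).card = d := by
    intro S E h
    induction h with
    | single σ h => intro a b ha; simp at ha
    | attach S E σ τ _ _ _ hc hcap _ ih =>
      intro a b ha
      rcases mem_insert.mp ha with h | h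
      · rw [Prod.mk.injEq] at h; rw [h.1, h.2]; exact hcap
      · exact ih a b h
  have h' : ∀ a b, (a, b) ∈ E → (a ∩ b).card = d := by
    induction h with
    | tree E h => exact hT h
    | glue E σ τ ρ _ _ _ hcap _ _ _ _ _ ih =>
      intro a b ha
      rcases mem_insert.mp ha with h | h
      · rw [Prod.mk.injEq] at h; rw [h.1, h.2]; exact hcap
      · exact ih a b h
  intro a b hab
  rcases hab with hab | hab
  · exact ⟨(assembled_mem h a b hab).1, (assembled_mem h a b hab).2, h' a b hab⟩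
  · exact ⟨(assembled_mem h b a hab).2, (assembled_mem h b a hab).1, by
      rw [inter_comm]; exact h' b a hab⟩

/-- the two tetrahedra at an interior triangle -/
lemma pair_of_deg_two {C : Finset (Finset V)} {F : Finset V} (hF : F ∈ cells 2 C)
    (hd : deg 3 C F = 2) : ∃ σ τ, σ ∈ cells 3 C ∧ τ ∈ cells 3 C ∧ σ ≠ τ ∧ F = σ ∩ τ ∧
      (cells 3 C).filter (fun t => F ⊆ t) = {σ, τ} := by
  rw [deg, card_eq_two] at hd
  obtain ⟨σ, τ, hst, hd⟩ := hd
  have hσ : σ ∈ (cells 3 C).filter (fun t => F ⊆ t) := by rw [hd]; simp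
  have hτ : τ ∈ (cells 3 C).filter (fun t => F ⊆ t) := by rw [hd]; simp
  rw [mem_filter] at hσ hτ
  have hcap : F = σ ∩ τ := by
    apply Finset.eq_of_subset_of_card_le (subset_inter hσ.2 hτ.2)
    rw [(mem_cells.mp hF).2]
    by_contra hcon
    push Not at hcon
    have h4 : σ ∩ τ = σ := Finset.eq_of_subset_of_card_le inter_subset_left (by
      rw [(mem_cells.mp hσ.1).2]; omega)
    have h5 : σ ∩ τ = τ := Finset.eq_of_subset_of_card_le inter_subset_right (by
      rw [(mem_cells.mp hτ.1).2]; omega)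
    exact hst (h4.symm.trans h5)
  exact ⟨σ, τ, hσ.1, hτ.1, hst, hcap, hd⟩

/-- no relative cycle of triangles with top vertex `v` avoids the tree -/
theorem acyclic {C : Finset (Finset V)} (hM : Mfd C) {r : V → ℕ} (hr : GoodOrder C r)
    {E₀ : Finset (Finset V × Finset V)} {root : Finset V} {l : V}
    (hT : Tree 3 (cells 3 C) E₀) (hl : {l} ∈ C) (hlr : l ∈ root)
    (hroot : root ∈ cells 3 C)
    (hlmax : ∀ w, {w} ∈ C → r w ≤ r l) (hP : TreeProp r root (cells 3 C) E₀) {v : V}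
    (hv : {v} ∈ C) (γ : Finset V → ZMod 2)
    (h1 : ∀ F, γ F ≠ 0 → F ∈ cells 2 C ∧ v ∈ F ∧ (∀ w ∈ F, r w ≤ r v) ∧ deg 3 C F = 2 ∧
      ∀ σ τ, Joined E₀ σ τ → σ ∩ τ ≠ F)
    (h2 : ∀ e ∈ cells 1 C, v ∈ e → IntEdge C e →
      ∑ F ∈ (cells 2 C).filter (fun F => e ⊆ F), γ F = 0) : ∀ F, γ F = 0 := by
  obtain ⟨X, hX⟩ := hM.bounds hv γ h2
  have z2 : ∀ x y : ZMod 2, x + y = 0 → x = y := by decide
  have z2' : ∀ x : ZMod 2, x + x = 0 := by decide
  have hA : Assembled 3 (cells 3 C) E₀ := Assembled.tree _ hT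
  -- tetrahedra through a later edge
  have hedge : ∀ y, r v < r y → ({v, y} : Finset V) ∈ C → ∀ t ∈ cells 3 C, ∀ t' ∈ cells 3 C,
      ({v, y} : Finset V) ⊆ t → ({v, y} : Finset V) ⊆ t' → X t = X t' := by
    intro y hry hvy t ht t' ht' hs hs'
    by_contra hcon
    have hne : v ≠ y := fun h => by rw [h] at hry; omega
    obtain ⟨a, b, ⟨ha, hb, hab, hc⟩, e1, e2⟩ := exists_step (S := fun s => X s = X t)
      (hM.connE v y hvy hne t ht t' ht' hs hs') rfl (fun h => hcon h.symm)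
    apply e2
    have hvab : v ∈ a ∩ b := hab (by simp)
    have hyab : y ∈ a ∩ b := hab (by simp)
    have e3 := hX a ha b hb hc hvab
    have e4 : γ (a ∩ b) = 0 := by
      by_contra hne
      have := (h1 _ hne).2.2.1 y hyab
      omega
    rw [e4] at e3
    rw [← e1]
    exact (z2 _ _ e3).symm
  have hlat : ∀ t ∈ cells 3 C, v ∈ t → (∃ w ∈ t, r v < r w) → ∀ t' ∈ cells 3 C, v ∈ t' →
      (∃ w ∈ t', r v < r w) → X t' = X t := by
    rintro t ht hvt ⟨w, hw, hrw⟩ t' ht' hvt' ⟨w', hw', hrw'⟩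
    have hpair : ∀ {s : Finset V} {y : V}, s ∈ cells 3 C → v ∈ s → y ∈ s →
        ({v, y} : Finset V) ⊆ s ∧ ({v, y} : Finset V) ∈ C := by
      intro s y hs hvs hys
      have : ({v, y} : Finset V) ⊆ s := by
        intro z hz
        rw [mem_insert, mem_singleton] at hz
        rcases hz with rfl | rfl
        · exact hvs
        · exact hys
      exact ⟨this, hM.cx.2 s (mem_cells.mp hs).1 _ this (insert_nonempty _ _)⟩
    have hch := hr.conn v hv w w' (hpair ht hvt hw).2 hrw (hpair ht' hvt' hw').2 hrw'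
    by_contra hcon
    obtain ⟨a, b, ⟨habC, hra, hrb⟩, e1, e2⟩ := exists_step
      (S := fun y => ∀ s ∈ cells 3 C, v ∈ s → y ∈ s → X s = X t) hch
      (fun s hs hvs hws => hedge w hrw (hpair ht hvt hw).2 s hs t ht (hpair hs hvs hws).1
        (hpair ht hvt hw).1)
      (fun h => hcon (h t' ht' hvt' hw'))
    apply e2
    intro s hs hvs hbs
    obtain ⟨t₁, ht₁, hs₁⟩ := hM.pure _ habC
    have hv₁ : v ∈ t₁ := hs₁ (by simp)
    have ha₁ : a ∈ t₁ := hs₁ (by simp)
    have hb₁ : b ∈ t₁ := hs₁ (by simp)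
    rw [hedge b hrb (hpair hs hvs hbs).2 s hs t₁ ht₁ (hpair hs hvs hbs).1 (hpair ht₁ hv₁ hb₁).1]
    exact e1 t₁ ht₁ hv₁ ha₁
  -- the value on later tetrahedra
  obtain ⟨c, hc1, hc2⟩ : ∃ c : ZMod 2,
      (∀ t ∈ cells 3 C, v ∈ t → (∃ w ∈ t, r v < r w) → X t = c) ∧ (v ∈ root → X root = c) := by
    by_cases hvl : v = l
    · refine ⟨X root, fun t ht hvt h => ?_, fun _ => rfl⟩
      obtain ⟨w, hw, hrw⟩ := h
      have := hlmax w (vertex_mem hM.cx (mem_cells.mp ht).1 hw)
      rw [hvl] at hrw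
      omega
    · have h1 : r v < r l := lt_of_le_of_ne (hlmax v hv) fun h => hvl (hr.inj v l hv hl h)
      obtain ⟨y, hy, hry⟩ := hr.ex v hv ⟨l, hl, h1⟩
      obtain ⟨t, ht, hs⟩ := hM.pure _ hy
      refine ⟨X t, fun t' ht' hvt' h => ?_, fun hvr => ?_⟩
      · exact hlat t ht (hs (by simp)) ⟨y, hs (by simp), hry⟩ t' ht' hvt' h
      · exact hlat t ht (hs (by simp)) ⟨y, hs (by simp), hry⟩ root hroot hvr ⟨l, hlr, h1⟩
  have hall := hP (fun t => X t ≠ c) v (by
    intro σ τ hj hvσ hvτ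
    obtain ⟨hσ, hτ, hcard⟩ := assembled_adj hA σ τ hj
    have e3 := hX σ hσ τ hτ hcard (mem_inter.mpr ⟨hvσ, hvτ⟩)
    have e4 : γ (σ ∩ τ) = 0 := by
      by_contra hne
      exact (h1 _ hne).2.2.2.2 σ τ hj rfl
    rw [e4] at e3
    rw [z2 _ _ e3]) (by
    intro σ hσ hvσ hw
    simp only [not_not, ne_eq]
    exact hc1 σ hσ hvσ hw) (by
    intro hvr
    simp only [not_not, ne_eq]
    exact hc2 hvr)
  intro F
  by_contra hne
  obtain ⟨hF, hvF, -, hd, -⟩ := h1 F hne
  obtain ⟨σ, τ, hσ, hτ, hst, hcap, -⟩ := pair_of_deg_two hF hd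
  have e1 := hX σ hσ τ hτ (by rw [← hcap]; exact (mem_cells.mp hF).2) (by rwa [← hcap])
  have hvst : v ∈ σ ∩ τ := hcap ▸ hvF
  have e2 : X σ = c := not_not.mp (hall σ hσ (mem_inter.mp hvst).1)
  have e3 : X τ = c := not_not.mp (hall τ hτ (mem_inter.mp hvst).2)
  rw [e2, e3, z2', ← hcap] at e1
  exact hne e1.symm

end Pool.Agent.Work.MP_9638d9_co
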